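import Pool.Agent.H81.ENG.Small2

/-!
The law for twisted sequences of even permutations of a set with at least five points.
-/

set_option autoImplicit false
set_option linter.style.haveILetI false

namespace Pool.Agent.H81.ENG

open Equiv Equiv.Perm

theorem trefoil_rel {G : Type*} [Group G] {a y : G} (ha : a * a = 1) (h3 : (a * y) ^ 3 = 1) :
    (a * (y⁻¹ * a * y))⁻¹ * (y⁻¹ * (a * (y⁻¹ * a * y)) * y) =
      (y ^ 2)⁻¹ * (a * (y⁻¹ * a * y)) * y ^ 2 := by
  have hai : a⁻¹ = a := inv_eq_of_mul_eq_one_left ha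
  have h1 : a * y * a = y⁻¹ * a * y⁻¹ := by
    have h2 : (a * y * a) * (y * a * y) = 1 := by
      rw [← h3, pow_succ, pow_two]; group
    rw [eq_inv_of_mul_eq_one_left h2, mul_inv_rev, mul_inv_rev, hai]
    group
  have h1' : a * y⁻¹ * a = y * a * y := by
    have := congrArg (fun g => g⁻¹) h1
    simp only [mul_inv_rev, hai, inv_inv] at this
    rw [mul_assoc, this]; group
  rw [mul_inv_rev, mul_inv_rev, mul_inv_rev, hai, inv_inv]
  calc y⁻¹ * (a * y) * a * (y⁻¹ * (a * (y⁻¹ * a * y)) * y)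
      = y⁻¹ * (a * y * a) * y⁻¹ * (a * y⁻¹ * a) * y * y := by group
    _ = y⁻¹ * (y⁻¹ * a * y⁻¹) * y⁻¹ * (y * a * y) * y * y := by rw [h1, h1']
    _ = (y ^ 2)⁻¹ * (a * (y⁻¹ * a * y)) * y ^ 2 := by
      rw [pow_two]
      simp only [mul_inv_rev, mul_assoc, inv_mul_cancel_left]

theorem trefoil_nc {G : Type*} [Group G] {a y : G} (ha : a * a = 1) (h3 : (a * y) ^ 3 = 1)
    (hc : y * (a * (y⁻¹ * a * y)) = (a * (y⁻¹ * a * y)) * y) : y ^ 6 = 1 := by
  have hai : a⁻¹ = a := inv_eq_of_mul_eq_one_left ha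
  have h1 : a * y * a = y⁻¹ * a * y⁻¹ := by
    have h2 : (a * y * a) * (y * a * y) = 1 := by
      rw [← h3, pow_succ, pow_two]; group
    rw [eq_inv_of_mul_eq_one_left h2, mul_inv_rev, mul_inv_rev, hai]
    group
  have h1' : a * y⁻¹ * a = y * a * y := by
    have := congrArg (fun g => g⁻¹) h1
    simp only [mul_inv_rev, hai, inv_inv] at this
    rw [mul_assoc, this]; group
  have h4 : y * (y * a * y) * y = (y * a * y) * y * y := by
    rw [← h1']
    calc y * (a * y⁻¹ * a) * y = y * (a * (y⁻¹ * a * y)) := by group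
      _ = (a * (y⁻¹ * a * y)) * y := hc
      _ = a * y⁻¹ * a * y * y := by group
  have h5 : y * a = a * y := by
    have h6 : y⁻¹ * (y * (y * a * y) * y) * y⁻¹ * y⁻¹ = y⁻¹ * ((y * a * y) * y * y) * y⁻¹ * y⁻¹ := by
      rw [h4]
    calc y * a = y⁻¹ * (y * (y * a * y) * y) * y⁻¹ * y⁻¹ := by group
      _ = y⁻¹ * ((y * a * y) * y * y) * y⁻¹ * y⁻¹ := h6
      _ = a * y := by group
  have hcm : Commute a y := h5.symm
  rw [hcm.mul_pow] at h3
  have h7 : a ^ 3 = a := by rw [pow_succ, pow_two, ha, one_mul]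
  rw [h7] at h3
  have h8 : y ^ 3 = a := by
    rw [← hai]; exact eq_inv_of_mul_eq_one_right h3
  calc y ^ 6 = y ^ 3 * y ^ 3 := by rw [← pow_add]
    _ = 1 := by rw [h8, ha]

theorem case_comb {Ω : Type*} [Fintype Ω] [DecidableEq Ω] {σ : Perm Ω} {p d : ℕ}
    (hp : p.Prime) (h5 : 5 ≤ p)
    (hcomb : ∃ a : Perm (ZMod p), a * a = 1 ∧ (a * Equiv.addRight (1 : ZMod p)) ^ 3 = 1)
    (hL : ALaw σ 1 d) (hσ : σ ^ p = 1) (hσ1 : σ ≠ 1) : p ∣ d := by
  haveI : NeZero p := ⟨hp.ne_zero⟩
  obtain ⟨u, hu⟩ : ∃ u, σ u ≠ u := by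
    by_contra hcon
    push Not at hcon
    exact hσ1 (Equiv.ext hcon)
  obtain ⟨ι, -, hι⟩ := orbit_embed hp σ u (c := 0) (by rw [zero_add, pow_one, hσ]; rfl)
    (by rw [pow_zero, pow_one]; exact hu) (l := 1) (β := p) (by simp) one_pos
  let j : ZMod p ↪ Ω := ⟨fun x => ι (0, x), fun x x' h => by
    have := ι.injective h
    exact (Prod.mk.inj this).2⟩
  have hL' := hL.restrict j (Equiv.addRight (1 : ZMod p)) (fun x => hι 0 x (by simp))
  obtain ⟨a, ha, h3⟩ := hcomb
  set y : Perm (ZMod p) := Equiv.addRight (1 : ZMod p) with hy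
  have hypow : ∀ (n : ℕ) (x : ZMod p), (y ^ n) x = x + n := by
    intro n
    induction n with
    | zero => intro x; simp
    | succ n ih =>
      intro x
      rw [pow_succ', Perm.mul_apply, ih, hy, Equiv.coe_addRight]
      push_cast
      ring
  have h6 : p ^ (0 + 1) ∣ d := by
    refine relseq hp hL' (a * (y⁻¹ * a * y)) ?_ ?_ (j := 1) one_pos (i := 2) ?_ ?_ ?_
    · rw [map_mul, map_mul, map_mul, map_inv]
      rcases Int.units_eq_one_or (sign a) with h | h <;>
        rcases Int.units_eq_one_or (sign y) with h' | h' <;> rw [h, h'] <;> decide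
    · ext x : 1
      rw [hypow]
      simp
    · intro h
      have := Nat.le_of_dvd (by norm_num) h
      omega
    · exact trefoil_rel ha h3
    · intro hcon
      rw [pow_zero, pow_one] at hcon
      have h7 := trefoil_nc ha h3 hcon
      have h8 := hypow 6 0
      rw [h7, zero_add] at h8
      have h9 : ((6 : ℕ) : ZMod p) = 0 := h8.symm
      rw [ZMod.natCast_eq_zero_iff] at h9
      have h10 := Nat.le_of_dvd (by norm_num) h9
      have h11 : p = 5 ∨ p = 6 := by omega
      rcases h11 with rfl | rfl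
      · norm_num at h9
      · exact absurd hp (by norm_num)
  simpa using h6

section

variable {Ω : Type*} [Fintype Ω] [DecidableEq Ω]

theorem ex_notMem (s : Finset Ω) (h : s.card < Fintype.card Ω) : ∃ x, x ∉ s := by
  by_contra hcon
  push Not at hcon
  have : s = Finset.univ := Finset.eq_univ_iff_forall.mpr hcon
  rw [this, Finset.card_univ] at h
  exact lt_irrefl _ h

theorem ex_off_orbit (σ : Perm Ω) (u : Ω) (L : ℕ) (h : L < Fintype.card Ω) :
    ∃ w, ∀ a < L, (σ ^ a) u ≠ w := by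
  obtain ⟨w, hw⟩ := ex_notMem ((Finset.range L).image (fun a => (σ ^ a) u))
    (lt_of_le_of_lt Finset.card_image_le (by rw [Finset.card_range]; exact h))
  refine ⟨w, fun a ha hcon => hw ?_⟩
  rw [Finset.mem_image]
  exact ⟨a, Finset.mem_range.mpr ha, hcon⟩

theorem minper {σ : Perm Ω} {p : ℕ} (hp : p.Prime) {u : Ω} {c : ℕ} (h1 : (σ ^ (p ^ (c + 1))) u = u)
    (h0 : (σ ^ (p ^ c)) u ≠ u) : Function.minimalPeriod σ u = p ^ (c + 1) := by
  haveI : Fact p.Prime := ⟨hp⟩
  apply Function.minimalPeriod_eq_prime_pow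
  · intro h
    apply h0
    rw [← Perm.iterate_eq_pow]
    exact h
  · show (⇑σ)^[p ^ (c + 1)] u = u
    rw [Perm.iterate_eq_pow]
    exact h1

theorem minper_one {σ : Perm Ω} {w : Ω} (h : σ w = w) : Function.minimalPeriod σ w = 1 :=
  Function.minimalPeriod_eq_one_iff_isFixedPt.mpr h

theorem off_fixed {σ : Perm Ω} {u w : Ω} (hu : σ u ≠ u) (hw : σ w = w) (a : ℕ) :
    (σ ^ a) u ≠ w := by
  intro h
  apply hu
  have h1 : (σ ^ a) (σ u) = (σ ^ a) u := by
    rw [← Perm.mul_apply, ← pow_succ, pow_succ', Perm.mul_apply, h, hw]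
  exact (σ ^ a).injective h1

theorem case_c0 (h5 : 5 ≤ Fintype.card Ω) {p : ℕ} (hp : p.Prime) {b d : ℕ}
    (hL : ALaw (1 : Perm Ω) (p ^ b) d) : p ^ (b + 0) ∣ ed d := by
  by_cases hp3 : p = 3
  · subst hp3
    obtain ⟨ι⟩ : Nonempty (Fin 4 ↪ Ω) :=
      Function.Embedding.nonempty_of_card_le (by rw [Fintype.card_fin]; omega)
    have hL' := hL.restrict ι 1 (fun w => rfl)
    have ht : (swap 0 1 * swap 2 3 : Perm (Fin 4)) ∈
        Subgroup.closure {(swap 0 1 * swap 2 3 : Perm (Fin 4)), swap 0 1 * swap 2 3} :=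
      Subgroup.subset_closure (by simp)
    refine ghgen Nat.prime_three hL' Nat.prime_two (by norm_num) (swap 0 1 * swap 2 3)
      (swap 0 1 * swap 2 3) rfl (by decide) (by decide) (by decide) (by decide) ?_ ?_ (c := 0)
      (by simp) (Or.inl ⟨rfl, by decide⟩)
    · simpa using ht
    · simpa using ht
  · obtain ⟨ι⟩ : Nonempty (Fin 3 ↪ Ω) :=
      Function.Embedding.nonempty_of_card_le (by rw [Fintype.card_fin]; omega)
    have hL' := hL.restrict ι 1 (fun w => rfl)
    have ht : (swap 0 1 * swap 1 2 : Perm (Fin 3)) ∈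
        Subgroup.closure {(swap 0 1 * swap 1 2 : Perm (Fin 3)), swap 0 1 * swap 1 2} :=
      Subgroup.subset_closure (by simp)
    refine ghgen hp hL' Nat.prime_three hp3 (swap 0 1 * swap 1 2)
      (swap 0 1 * swap 1 2) rfl (by decide) (by decide) (by decide) (by decide) ?_ ?_ (c := 0)
      (by simp) (Or.inl ⟨rfl, by decide⟩)
    · simpa using ht
    · simpa using ht

theorem case_222 {σ : Perm Ω} (h5 : 5 ≤ Fintype.card Ω) (hσ : σ ^ 2 = 1) (hfix : ∀ x, σ x ≠ x)
    (u : Ω) {b d : ℕ} (hL : ALaw σ (2 ^ b) d) : 2 ^ (b + 1) ∣ ed d := by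
  have hss : ∀ x, σ (σ x) = x := by
    intro x
    rw [← Perm.mul_apply, ← pow_two, hσ]; rfl
  obtain ⟨v, hv⟩ := ex_notMem ({u, σ u} : Finset Ω)
    (lt_of_le_of_lt Finset.card_le_two (by omega))
  obtain ⟨w, hw⟩ := ex_notMem ({u, σ u, v, σ v} : Finset Ω)
    (lt_of_le_of_lt Finset.card_le_four (by omega))
  simp only [Finset.mem_insert, Finset.mem_singleton, not_or] at hv hw
  obtain ⟨hv1, hv2⟩ := hv
  obtain ⟨hw1, hw2, hw3, hw4⟩ := hw
  have e1 : u ≠ σ u := (hfix u).symm
  have e2 : v ≠ σ v := (hfix v).symm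
  have e3 : w ≠ σ w := (hfix w).symm
  have e4 : u ≠ σ v := fun h => hv2 (by rw [h, hss])
  have e5 : σ u ≠ σ v := fun h => hv1 (σ.injective h).symm
  have e6 : u ≠ σ w := fun h => hw2 (by rw [h, hss])
  have e7 : σ u ≠ σ w := fun h => hw1 (σ.injective h).symm
  have e8 : v ≠ σ w := fun h => hw4 (by rw [h, hss])
  have e9 : σ v ≠ σ w := fun h => hw3 (σ.injective h).symm
  let l : List Ω := [u, σ u, v, σ v, w, σ w]
  have hnd : l.Nodup := by
    simp only [l, List.nodup_cons, List.mem_cons, List.not_mem_nil, or_false, not_or,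
      not_false_eq_true, List.nodup_nil, and_true]
    exact ⟨⟨e1, Ne.symm hv1, e4, Ne.symm hw1, e6⟩, ⟨Ne.symm hv2, e5, Ne.symm hw2, e7⟩,
      ⟨e2, Ne.symm hw3, e8⟩, ⟨Ne.symm hw4, e9⟩, e3⟩
  let ι : Fin 6 ↪ Ω := ⟨fun i => l.get i, hnd.injective_get⟩
  have hL' := hL.restrict ι s222 (by
    intro i
    fin_cases i
    · rfl
    · exact hss u
    · rfl
    · exact hss v
    · rfl
    · exact hss w)
  exact m222 hL'

/-- The law for twisted sequences of even permutations. -/
theorem alt_law (h5 : 5 ≤ Fintype.card Ω)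
    (hcomb : ∀ p : ℕ, p.Prime → 5 ≤ p →
      ∃ a : Perm (ZMod p), a * a = 1 ∧ (a * Equiv.addRight (1 : ZMod p)) ^ 3 = 1)
    {p : ℕ} (hp : p.Prime) {σ : Perm Ω} {b c d : ℕ} (hL : ALaw σ (p ^ b) d)
    (hσ : σ ^ (p ^ c) = 1) (hc : c = 0 ∨ σ ^ (p ^ (c - 1)) ≠ 1) : p ^ (b + c) ∣ ed d := by
  rcases c with _ | c
  · rw [pow_zero, pow_one] at hσ
    subst hσ
    exact case_c0 h5 hp hL
  have hc' : σ ^ (p ^ c) ≠ 1 := by
    rcases hc with h | h
    · omega
    · simpa using h
  obtain ⟨u, hu⟩ : ∃ u, (σ ^ (p ^ c)) u ≠ u := by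
    by_contra hcon
    push Not at hcon
    exact hc' (Equiv.ext hcon)
  have hfix : ∀ x, (σ ^ (p ^ (c + 1))) x = x := fun x => by rw [hσ]; rfl
  have hmu := minper hp (hfix u) hu
  -- p ≥ 5
  by_cases h5p : 5 ≤ p
  · rcases Nat.eq_zero_or_pos (b + c) with h0 | h0
    · have hb : b = 0 := by omega
      have hcc : c = 0 := by omega
      subst hb hcc
      simp only [pow_zero, pow_one, zero_add] at *
      exact dvd_trans (case_comb hp h5p (hcomb p hp h5p) hL hσ hc') (dvd_ed d)
    · exact dvd_trans (case_ge_five hp h5p hL (hfix u) hu h0) (dvd_ed d)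
  have hp23 : p = 2 ∨ p = 3 := by
    have := hp.two_le
    have h4 : p ≠ 4 := by rintro rfl; exact absurd hp (by norm_num)
    omega
  rcases hp23 with rfl | rfl
  · -- p = 2
    rcases c with _ | c
    · -- c = 1
      simp only [zero_add, pow_one, pow_zero] at hσ hc' hu hmu hfix
      by_cases hf : ∃ w, σ w = w
      · obtain ⟨w, hw⟩ := hf
        obtain ⟨ι, hι⟩ := sum_embed (by norm_num) one_pos hmu (minper_one hw)
          (fun a _ => off_fixed hu hw a)
        exact m21 (hL.restrict ι s21 hι)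
      · push Not at hf
        exact case_222 h5 hσ hf u hL
    · rcases Nat.eq_zero_or_pos (b + c) with h0 | h0
      · have hb : b = 0 := by omega
        have hcc : c = 0 := by omega
        subst hb hcc
        have hmu4 : Function.minimalPeriod σ u = 4 := by rw [hmu]; norm_num
        obtain ⟨w, hw⟩ := ex_off_orbit σ u 4 (by omega)
        have hfw := hfix w
        norm_num at hfw hL
        by_cases hw1 : σ w = w
        · obtain ⟨ι, hι⟩ := sum_embed (by norm_num) one_pos hmu4 (minper_one hw1) hw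
          exact m41 (b := 0) (hL.restrict ι s41 hι)
        · by_cases hw2 : (σ ^ 2) w = w
          · have hm2 : Function.minimalPeriod σ w = 2 := by
              have := minper Nat.prime_two (c := 0) (σ := σ) (u := w) (by simpa using hw2)
                (by simpa using hw1)
              simpa using this
            obtain ⟨ι, hι⟩ := sum_embed (by norm_num) (by norm_num) hmu4 hm2 hw
            exact m42 (b := 0) (hL.restrict ι s42 hι)
          · have hm4 : Function.minimalPeriod σ w = 4 := by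
              have := minper Nat.prime_two (c := 1) (σ := σ) (u := w) (by simpa using hfw)
                (by simpa using hw2)
              simpa using this
            obtain ⟨ι, hι⟩ := sum_embed (by norm_num) (by norm_num) hmu4 hm4 hw
            exact dvd_trans (m44 (hL.restrict ι s44 hι)) (dvd_ed d)
      · exact dvd_trans (case_two hL (hfix u) hu h0) (dvd_ed d)
  · -- p = 3
    rcases c with _ | c
    · simp only [zero_add, pow_one, pow_zero] at hσ hc' hu hmu hfix
      by_cases hf : ∃ w, σ w = w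
      · obtain ⟨w, hw⟩ := hf
        obtain ⟨ι, hι⟩ := sum_embed (by norm_num) one_pos hmu (minper_one hw)
          (fun a _ => off_fixed hu hw a)
        exact m31 (hL.restrict ι s31 hι)
      · push Not at hf
        obtain ⟨w, hw⟩ := ex_off_orbit σ u 3 (by omega)
        have hm3 : Function.minimalPeriod σ w = 3 := by
          have := minper Nat.prime_three (c := 0) (σ := σ) (u := w) (by simpa using hfix w)
            (by simpa using hf w)
          simpa using this
        obtain ⟨ι, hι⟩ := sum_embed (by norm_num) (by norm_num) hmu hm3 hw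
        exact m33 (hL.restrict ι s33 hι)
    · exact dvd_trans (case_three hL (hfix u) hu (by omega)) (dvd_ed d)

end

end Pool.Agent.H81.ENG
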