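import Mathlib

/-!
# Components of nonabelian minimal normal subgroups

`exists_comp`: a nonabelian minimal normal subgroup `M` of a finite group, and an element `z` which
does not centralise `M`: there is a simple component `T` of `M` which is not centralised by `z`.
-/

set_option autoImplicit false

namespace Pool.ENG81

section comp

variable {G : Type*} [Group G]

/-- The conjugate. -/
def cj (g : G) (T : Subgroup G) : Subgroup G := T.map (MulAut.conj g).toMonoidHom

theorem mem_cj {g x : G} {T : Subgroup G} : x ∈ cj g T ↔ ∃ t ∈ T, g * t * g⁻¹ = x := by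
  unfold cj
  rw [Subgroup.mem_map]
  rfl

theorem conj_mem_cj {g t : G} {T : Subgroup G} : g * t * g⁻¹ ∈ cj g T ↔ t ∈ T := by
  rw [mem_cj]
  constructor
  · rintro ⟨s, hs, h⟩
    have : s = t := by
      have h1 := mul_right_cancel h
      exact mul_left_cancel h1
    rwa [← this]
  · intro h
    exact ⟨t, h, rfl⟩

theorem cj_cj (g : G) (K : Subgroup G) : cj g (cj g⁻¹ K) = K := by
  ext x
  rw [mem_cj]
  constructor
  · rintro ⟨y, hy, h⟩
    obtain ⟨k, hk, h2⟩ := mem_cj.1 hy
    rw [← h, ← h2]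
    have : g * (g⁻¹ * k * g⁻¹⁻¹) * g⁻¹ = k := by group
    rwa [this]
  · intro hx
    refine ⟨g⁻¹ * x * g⁻¹⁻¹, conj_mem_cj.2 hx, ?_⟩
    group

theorem cj_mono {g : G} {K T : Subgroup G} (h : K ≤ T) : cj g K ≤ cj g T := Subgroup.map_mono h

theorem cj_bot (g : G) : cj g (⊥ : Subgroup G) = ⊥ := Subgroup.map_bot _

/-- A minimal nontrivial `M`-invariant subgroup. -/
structure Mn (M T : Subgroup G) : Prop where
  le : T ≤ M
  ne : T ≠ ⊥
  inv : ∀ m ∈ M, ∀ t ∈ T, m * t * m⁻¹ ∈ T
  min : ∀ K : Subgroup G, K ≤ T → (∀ m ∈ M, ∀ t ∈ K, m * t * m⁻¹ ∈ K) → K = ⊥ ∨ K = T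

theorem Mn.ex [Finite G] {M : Subgroup G} (hM : M ≠ ⊥) : ∃ T, Mn M T := by
  obtain ⟨T, ⟨h1, h2, h3⟩, h4⟩ := WellFounded.has_min (wellFounded_lt (α := Subgroup G))
    {T : Subgroup G | T ≤ M ∧ T ≠ ⊥ ∧ ∀ m ∈ M, ∀ t ∈ T, m * t * m⁻¹ ∈ T}
    ⟨M, le_rfl, hM, fun m hm t ht => M.mul_mem (M.mul_mem hm ht) (M.inv_mem hm)⟩
  refine ⟨T, h1, h2, h3, fun K hK hinv => ?_⟩
  by_cases hb : K = ⊥
  · exact Or.inl hb
  · right
    have h5 := h4 K ⟨hK.trans h1, hb, hinv⟩
    exact (lt_or_eq_of_le hK).resolve_left h5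

theorem inv_cj {M K : Subgroup G} [hN : M.Normal] (hinv : ∀ m ∈ M, ∀ t ∈ K, m * t * m⁻¹ ∈ K)
    (g : G) : ∀ m ∈ M, ∀ t ∈ cj g K, m * t * m⁻¹ ∈ cj g K := by
  intro m hm t ht
  obtain ⟨s, hs, h⟩ := mem_cj.1 ht
  have h1 : g⁻¹ * m * g⁻¹⁻¹ ∈ M := hN.conj_mem m hm g⁻¹
  have h2 := hinv _ h1 s hs
  refine mem_cj.2 ⟨_, h2, ?_⟩
  rw [← h]
  group

theorem Mn.cj {M T : Subgroup G} [hN : M.Normal] (h : Mn M T) (g : G) : Mn M (cj g T) := by
  refine ⟨?_, ?_, inv_cj h.inv g, fun K hK hinv => ?_⟩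
  · intro x hx
    obtain ⟨t, ht, e⟩ := mem_cj.1 hx
    rw [← e]
    exact hN.conj_mem t (h.le ht) g
  · intro hb
    apply h.ne
    rw [eq_bot_iff]
    intro t ht
    have h1 : g * t * g⁻¹ ∈ Pool.ENG81.cj g T := conj_mem_cj.2 ht
    rw [hb, Subgroup.mem_bot] at h1
    rw [Subgroup.mem_bot]
    have h2 : g * t = g := by
      have := congrArg (fun y => y * g) h1
      simpa using this
    simpa using h2
  · have h1 : Pool.ENG81.cj g⁻¹ K ≤ T := by
      have h2 := cj_mono (g := g⁻¹) hK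
      have h3 := cj_cj g⁻¹ T
      rw [inv_inv] at h3
      rwa [h3] at h2
    rcases h.min _ h1 (inv_cj hinv g⁻¹) with h2 | h2
    · left
      rw [← cj_cj g K, h2, cj_bot]
    · right
      rw [← cj_cj g K, h2]

/-- Two minimal subgroups are equal or commute. -/
theorem Mn.two {M T T' : Subgroup G} (h : Mn M T) (h' : Mn M T') :
    T = T' ∨ ∀ t ∈ T, ∀ t' ∈ T', t * t' = t' * t := by
  have hinv : ∀ m ∈ M, ∀ t ∈ T ⊓ T', m * t * m⁻¹ ∈ T ⊓ T' := fun m hm t ht =>
    ⟨h.inv m hm t ht.1, h'.inv m hm t ht.2⟩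
  rcases h.min (T ⊓ T') inf_le_left hinv with h1 | h1
  · right
    intro t ht t' ht'
    have h2 : t * t' * t⁻¹ * t'⁻¹ ∈ T ⊓ T' := by
      constructor
      · have h3 := h.inv t' (h'.le ht') t⁻¹ (T.inv_mem ht)
        have h4 := T.mul_mem ht h3
        have e : t * (t' * t⁻¹ * t'⁻¹) = t * t' * t⁻¹ * t'⁻¹ := by group
        rwa [e] at h4
      · have h3 := h'.inv t (h.le ht) t' ht'
        exact T'.mul_mem h3 (T'.inv_mem ht')
    rw [h1, Subgroup.mem_bot] at h2
    have h3 : t * t' * t⁻¹ = t' := mul_inv_eq_one.1 h2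
    exact mul_inv_eq_iff_eq_mul.1 h3
  · left
    have h2 : T ≤ T' := by
      rw [← h1]
      exact inf_le_right
    rcases h'.min T h2 h.inv with h3 | h3
    · exact absurd h3 h.ne
    · exact h3

end comp

/-- **Components.** -/
theorem exists_comp {G : Type*} [Group G] [Finite G] (M : Subgroup G) [M.Normal]
    (hmin : ∀ K : Subgroup G, K.Normal → K ≤ M → K = ⊥ ∨ K = M)
    (hnc : ¬ ∀ a ∈ M, ∀ b ∈ M, a * b = b * a) (z : G) (hz : ∃ m ∈ M, z * m ≠ m * z) :
    ∃ T : Subgroup G, T ≤ M ∧ (∀ m ∈ M, ∀ t ∈ T, m * t * m⁻¹ ∈ T) ∧ IsSimpleGroup T ∧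
      (¬ ∀ a ∈ T, ∀ b ∈ T, a * b = b * a) ∧ (∃ t ∈ T, z * t ≠ t * z) ∧
      (∀ g : G, (∀ t, t ∈ T ↔ g * t * g⁻¹ ∈ T) ∨
        (∀ t ∈ T, ∀ t' ∈ T, (g * t * g⁻¹) * t' = t' * (g * t * g⁻¹))) := by
  have hM : M ≠ ⊥ := by
    intro h
    apply hnc
    intro a ha b hb
    rw [h, Subgroup.mem_bot] at ha hb
    rw [ha, hb]
  obtain ⟨T₀, hT₀⟩ := Mn.ex hM
  -- the conjugates generate `M`
  have hgen : ∀ T, Mn M T → ∀ P : Subgroup G, (∀ g : G, cj g T ≤ P) → M ≤ P := by
    intro T hT P hP
    have h1 : Subgroup.normalClosure (T : Set G) ≤ M :=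
      Subgroup.normalClosure_le_normal (fun x hx => hT.le hx)
    have h2 : Subgroup.normalClosure (T : Set G) = M := by
      rcases hmin _ Subgroup.normalClosure_normal h1 with h3 | h3
      · exfalso
        apply hT.ne
        rw [eq_bot_iff, ← h3]
        exact fun x hx => Subgroup.subset_normalClosure hx
      · exact h3
    rw [← h2]
    unfold Subgroup.normalClosure
    rw [Subgroup.closure_le]
    intro x hx
    rw [Group.mem_conjugatesOfSet_iff] at hx
    obtain ⟨a, ha, hax⟩ := hx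
    obtain ⟨g, hg⟩ := isConj_iff.1 hax
    rw [← hg]
    exact hP g (conj_mem_cj.2 ha)
  -- the component which is moved by `z`
  obtain ⟨h, hh⟩ : ∃ h : G, ∃ t ∈ cj h T₀, z * t ≠ t * z := by
    by_contra hcon
    push Not at hcon
    obtain ⟨m, hm, hzm⟩ := hz
    apply hzm
    have h1 : M ≤ Subgroup.centralizer {z} := by
      refine hgen T₀ hT₀ _ fun g x hx => ?_
      rw [Subgroup.mem_centralizer_iff]
      intro y hy
      rw [Set.mem_singleton_iff] at hy
      rw [hy]
      exact hcon g x hx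
    exact (Subgroup.mem_centralizer_iff).1 (h1 hm) z (Set.mem_singleton z)
  obtain ⟨T, hTd⟩ : ∃ T, T = cj h T₀ := ⟨_, rfl⟩
  rw [← hTd] at hh
  have hT : Mn M T := by
    rw [hTd]
    exact hT₀.cj h
  have hdich : ∀ g : G, cj g T = T ∨ ∀ t ∈ cj g T, ∀ t' ∈ T, t * t' = t' * t := fun g =>
    (hT.cj g).two hT
  refine ⟨T, hT.le, hT.inv, ?_, ?_, hh, ?_⟩
  · -- simple
    have hnt : Nontrivial T := (Subgroup.nontrivial_iff_ne_bot T).2 hT.ne
    refine { toNontrivial := hnt, eq_bot_or_eq_top_of_normal := fun N hN => ?_ }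
    obtain ⟨K, hK⟩ : ∃ K : Subgroup G, K = N.map T.subtype := ⟨_, rfl⟩
    have hKT : K ≤ T := by
      rw [hK]
      exact Subgroup.map_subtype_le N
    have hmem : ∀ x : T, (x : G) ∈ K ↔ x ∈ N := by
      intro x
      rw [hK, Subgroup.mem_map]
      constructor
      · rintro ⟨y, hy, e⟩
        have : y = x := Subtype.ext e
        rwa [← this]
      · intro hx
        exact ⟨x, hx, rfl⟩
    have hnorm : M ≤ Subgroup.normalizer (K : Set G) := by
      refine hgen T hT _ fun g x hx => ?_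
      rcases hdich g with h1 | h1
      · rw [h1] at hx
        rw [Subgroup.mem_normalizer_iff]
        intro k
        constructor
        · intro hk
          have hk' : (⟨k, hKT hk⟩ : T) ∈ N := (hmem _).1 hk
          have h2 := hN.conj_mem _ hk' ⟨x, hx⟩
          exact (hmem _).2 h2
        · intro hk
          have h3 : x * k * x⁻¹ ∈ T := hKT hk
          have hk' : (⟨x * k * x⁻¹, h3⟩ : T) ∈ N := (hmem _).1 hk
          have h2 := hN.conj_mem _ hk' ⟨x⁻¹, T.inv_mem hx⟩
          have h4 := (hmem _).2 h2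
          have e : (((⟨x⁻¹, T.inv_mem hx⟩ : T) * ⟨x * k * x⁻¹, h3⟩ *
              (⟨x⁻¹, T.inv_mem hx⟩ : T)⁻¹ : T) : G) = k := by
            push_cast
            group
          rwa [e] at h4
      · rw [Subgroup.mem_normalizer_iff]
        intro k
        constructor
        · intro hk
          have h2 := h1 x hx k (hKT hk)
          have e : x * k * x⁻¹ = k := by
            rw [h2]
            group
          rwa [e]
        · intro hk
          have h2 := h1 x hx _ (hKT hk)
          have e : x * k * x⁻¹ = k := by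
            have h3 : x * (x * k * x⁻¹) = x * k := by
              rw [h2]
              group
            exact mul_left_cancel h3
          rwa [e] at hk
    rcases hT.min K hKT (fun m hm t ht =>
      ((Subgroup.mem_normalizer_iff).1 (hnorm hm) t).1 ht) with h1 | h1
    · left
      rw [eq_bot_iff]
      intro x hx
      have h2 := (hmem x).2 hx
      rw [h1, Subgroup.mem_bot] at h2
      rw [Subgroup.mem_bot]
      exact Subtype.ext h2
    · right
      rw [eq_top_iff]
      intro x _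
      rw [← hmem, h1]
      exact x.2
  · -- not abelian
    intro hab
    apply hnc
    have hcomm : ∀ g g' : G, ∀ x ∈ cj g T, ∀ y ∈ cj g' T, x * y = y * x := by
      intro g g' x hx y hy
      rcases (hT.cj g).two (hT.cj g') with h1 | h1
      · rw [h1] at hx
        obtain ⟨t, ht, e⟩ := mem_cj.1 hx
        obtain ⟨s, hs, e'⟩ := mem_cj.1 hy
        have h2 := hab t ht s hs
        rw [← e, ← e']
        have e1 : g' * t * g'⁻¹ * (g' * s * g'⁻¹) = g' * (t * s) * g'⁻¹ := by group
        have e2 : g' * s * g'⁻¹ * (g' * t * g'⁻¹) = g' * (s * t) * g'⁻¹ := by group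
        rw [e1, e2, h2]
      · exact h1 x hx y hy
    have h1 : ∀ g : G, ∀ x ∈ cj g T, ∀ m ∈ M, x * m = m * x := by
      intro g x hx m hm
      have h2 : M ≤ Subgroup.centralizer {x} := by
        refine hgen T hT _ fun g' y hy => ?_
        rw [Subgroup.mem_centralizer_iff]
        intro w hw
        rw [Set.mem_singleton_iff] at hw
        rw [hw]
        exact hcomm g g' x hx y hy
      exact (Subgroup.mem_centralizer_iff).1 (h2 hm) x (Set.mem_singleton x)
    intro a ha b hb
    have h2 : M ≤ Subgroup.centralizer {a} := by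
      refine hgen T hT _ fun g y hy => ?_
      rw [Subgroup.mem_centralizer_iff]
      intro w hw
      rw [Set.mem_singleton_iff] at hw
      rw [hw]
      exact (h1 g y hy a ha).symm
    exact (Subgroup.mem_centralizer_iff).1 (h2 hb) a (Set.mem_singleton a)
  · -- the conjugates
    intro g
    rcases hdich g with h1 | h1
    · left
      intro t
      constructor
      · intro ht
        have h2 : g * t * g⁻¹ ∈ cj g T := conj_mem_cj.2 ht
        rwa [h1] at h2
      · intro ht
        rw [← h1] at ht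
        exact conj_mem_cj.1 ht
    · right
      intro t ht t' ht'
      exact h1 _ (conj_mem_cj.2 ht) t' ht'

end Pool.ENG81
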