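import Pool.Agent.H81.ENG.AutAlt

/-!
# Automorphisms of odd order of alternating groups

`aut_alt_odd`: for `n ≥ 5` every automorphism of odd order of the alternating group of degree `n` is
the conjugation by a permutation. For `n = 6` the square of an automorphism maps three-cycles to
three-cycles.
-/

set_option autoImplicit false

namespace Pool.ENG81

open Equiv Equiv.Perm

/-- The two classes of elements of order `3` in degree `6`. -/
theorem six_or {x : alternatingGroup (Fin 6)} (h : orderOf (x : Perm (Fin 6)) = 3) :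
    IsThreeCycle (x : Perm (Fin 6)) ∨ (x : Perm (Fin 6)).cycleType = Multiset.replicate 2 3 := by
  obtain ⟨m, hm⟩ := cycleType_prime_order (σ := (x : Perm (Fin 6))) (by rw [h]; norm_num)
  rw [h] at hm
  have h1 := sum_cycleType_le (x : Perm (Fin 6))
  rw [hm, Multiset.sum_replicate, smul_eq_mul, Fintype.card_fin] at h1
  have h2 : m = 0 ∨ m = 1 := by omega
  rcases h2 with h2 | h2
  · left
    rw [h2] at hm
    exact hm
  · right
    rw [h2] at hm
    exact hm

/-- The second class is a class of the alternating group. -/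
theorem six_conj {x y : alternatingGroup (Fin 6)}
    (hx : (x : Perm (Fin 6)).cycleType = Multiset.replicate 2 3)
    (hy : (y : Perm (Fin 6)).cycleType = Multiset.replicate 2 3) : IsConj x y := by
  obtain ⟨g, hg⟩ := isConj_iff.1 (isConj_of_cycleType_eq (hx.trans hy.symm))
  rw [isConj_iff]
  by_cases hs : g ∈ alternatingGroup (Fin 6)
  · exact ⟨⟨g, hs⟩, Subtype.ext hg⟩
  · have h1 : ¬ Subgroup.centralizer {(y : Perm (Fin 6))} ≤ alternatingGroup (Fin 6) := by
      intro h2
      have h3 := count_le_one_of_centralizer_le_alternating h2 3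
      rw [hy, Multiset.count_replicate_self] at h3
      omega
    obtain ⟨h, hh, hhA⟩ := SetLike.not_le_iff_exists.1 h1
    have hc := (Subgroup.mem_centralizer_iff).1 hh (y : Perm (Fin 6)) (Set.mem_singleton _)
    have hm : h * g ∈ alternatingGroup (Fin 6) := by
      rw [mem_alternatingGroup] at hs hhA ⊢
      rw [Perm.sign_mul]
      rcases Int.units_eq_one_or (Perm.sign g) with a | a
      · exact absurd a hs
      · rcases Int.units_eq_one_or (Perm.sign h) with b | b
        · exact absurd b hhA
        · rw [a, b]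
          rfl
    refine ⟨⟨h * g, hm⟩, Subtype.ext ?_⟩
    change h * g * (x : Perm (Fin 6)) * (h * g)⁻¹ = y
    calc h * g * (x : Perm (Fin 6)) * (h * g)⁻¹ = h * (g * x * g⁻¹) * h⁻¹ := by group
      _ = h * y * h⁻¹ := by rw [hg]
      _ = y := by rw [← hc]; group

theorem conj_type {x y : alternatingGroup (Fin 6)} (h : IsConj x y) :
    (x : Perm (Fin 6)).cycleType = (y : Perm (Fin 6)).cycleType := by
  obtain ⟨g, hg⟩ := isConj_iff.1 h
  have h1 : (g : Perm (Fin 6)) * x * (g : Perm (Fin 6))⁻¹ = y := congrArg Subtype.val hg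
  rw [← h1, cycleType_conj]

/-- **The square of an automorphism** maps three-cycles to three-cycles. -/
theorem six_sq (φ : MulAut (alternatingGroup (Fin 6))) (x : alternatingGroup (Fin 6))
    (hx : IsThreeCycle (x : Perm (Fin 6))) : IsThreeCycle ((φ (φ x) : alternatingGroup (Fin 6)) :
      Perm (Fin 6)) := by
  have h6 : 5 ≤ Nat.card (Fin 6) := by
    rw [Nat.card_eq_fintype_card, Fintype.card_fin]
    norm_num
  have ho : ∀ (ψ : MulAut (alternatingGroup (Fin 6))) (y : alternatingGroup (Fin 6)),
      orderOf (y : Perm (Fin 6)) = 3 →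
      orderOf ((ψ y : alternatingGroup (Fin 6)) : Perm (Fin 6)) = 3 := by
    intro ψ y hy
    rw [Subgroup.orderOf_coe, MulEquiv.orderOf_eq, ← Subgroup.orderOf_coe, hy]
  have hx3 : orderOf (x : Perm (Fin 6)) = 3 := hx.orderOf
  by_cases h1 : IsThreeCycle ((φ x : alternatingGroup (Fin 6)) : Perm (Fin 6))
  · have h2 : IsConj (φ x) x := alternatingGroup.isThreeCycle_isConj h6 h1 hx
    have h3 : IsConj (φ (φ x)) (φ x) := φ.toMonoidHom.map_isConj h2
    have h4 := conj_type h3
    unfold IsThreeCycle at h1 ⊢
    rw [h4, h1]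
  · have h2 := (six_or (ho φ x hx3)).resolve_left h1
    obtain ⟨w, hw⟩ := φ.surjective x
    have hw3 : orderOf (w : Perm (Fin 6)) = 3 := by
      have : w = (φ⁻¹ : MulAut (alternatingGroup (Fin 6))) x := by
        rw [← hw]
        exact (MulAut.inv_apply_self _ φ w).symm
      rw [this]
      exact ho _ x hx3
    rcases six_or hw3 with h3 | h3
    · exfalso
      have h4 : IsConj w x := alternatingGroup.isThreeCycle_isConj h6 h3 hx
      have h5 : IsConj (φ w) (φ x) := φ.toMonoidHom.map_isConj h4
      rw [hw] at h5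
      apply h1
      have h7 := conj_type h5
      unfold IsThreeCycle at hx ⊢
      rw [← h7, hx]
    · have h4 : IsConj w (φ x) := six_conj h3 h2
      have h5 : IsConj (φ w) (φ (φ x)) := φ.toMonoidHom.map_isConj h4
      rw [hw] at h5
      have h7 := conj_type h5
      unfold IsThreeCycle at hx ⊢
      rw [← h7, hx]

/-- **Automorphisms of odd order of alternating groups.** -/
theorem aut_alt_odd {n : ℕ} (h5 : 5 ≤ n) (φ : MulAut (alternatingGroup (Fin n))) {m : ℕ}
    (hm : Odd m) (hφ : φ ^ m = 1) : ∃ σ : Equiv.Perm (Fin n), ∀ x : alternatingGroup (Fin n),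
      ((φ x : alternatingGroup (Fin n)) : Equiv.Perm (Fin n)) = σ * x * σ⁻¹ := by
  by_cases h6 : n = 6
  · subst h6
    refine aut_of_three (by rw [Fintype.card_fin]; norm_num) φ ?_
    obtain ⟨k, hk⟩ := hm
    have h1 : (φ * φ) ^ (k + 1) = φ := by
      rw [← pow_two, ← pow_mul]
      have : 2 * (k + 1) = m + 1 := by omega
      rw [this, pow_succ, hφ, one_mul]
    have h2 : ∀ (j : ℕ) (x : alternatingGroup (Fin 6)), IsThreeCycle (x : Perm (Fin 6)) →
        IsThreeCycle ((((φ * φ) ^ j) x : alternatingGroup (Fin 6)) : Perm (Fin 6)) := by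
      intro j
      induction j with
      | zero =>
        intro x hx
        rw [pow_zero]
        exact hx
      | succ j ih =>
        intro x hx
        rw [pow_succ, MulAut.mul_apply]
        exact ih _ (six_sq φ x hx)
    intro x hx
    have h3 := h2 (k + 1) x hx
    rw [h1] at h3
    exact h3
  · exact aut_alt h5 h6 φ

end Pool.ENG81
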