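import Mathlib

/-!
# Automorphisms of alternating groups

`aut_alt`: for `n ≥ 5`, `n ≠ 6`, every automorphism of the alternating group of degree `n` is the
conjugation by a permutation.
-/

set_option autoImplicit false

namespace Pool.ENG81

open Equiv Equiv.Perm

section perm

variable {α : Type*} [Fintype α] [DecidableEq α]

/-- The cycle `x → y → z → x`. -/
def tc (x y z : α) : Perm α := swap x y * swap y z

theorem tc_inv {x y z : α} (xy : x ≠ y) (xz : x ≠ z) (yz : y ≠ z) :
    (tc x y z)⁻¹ = tc x z y := by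
  unfold tc
  rw [mul_inv_rev, swap_inv, swap_inv]
  ext w
  simp only [Perm.coe_mul, Function.comp_apply]
  grind [swap_apply_def]

theorem tc_rot {x y z : α} (xy : x ≠ y) (xz : x ≠ z) (yz : y ≠ z) : tc x y z = tc y z x := by
  unfold tc
  ext w
  simp only [Perm.coe_mul, Function.comp_apply]
  grind [swap_apply_def]

theorem tc_three {x y z : α} (xy : x ≠ y) (xz : x ≠ z) (yz : y ≠ z) :
    IsThreeCycle (tc x y z) := by
  have h := isThreeCycle_swap_mul_swap_same (a := y) (b := x) (c := z) xy.symm yz xz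
  rw [swap_comm y x] at h
  exact h

/-- `(x y w) (x y z)⁻¹ = (x z w)`. -/
theorem tc_mul {x y z w : α} (xy : x ≠ y) (xz : x ≠ z) (xw : x ≠ w) (yz : y ≠ z) (yw : y ≠ w)
    (zw : z ≠ w) : tc x y w * (tc x y z)⁻¹ = tc x z w := by
  rw [tc_inv xy xz yz]
  unfold tc
  ext v
  simp only [Perm.coe_mul, Function.comp_apply]
  grind [swap_apply_def]

/-- Three-cycles with two common points in the same order. -/
theorem tc_prod {x y z w : α} (xy : x ≠ y) (xz : x ≠ z) (xw : x ≠ w) (yz : y ≠ z) (yw : y ≠ w)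
    (zw : z ≠ w) : tc x y z * tc x y w = swap x z * swap y w := by
  unfold tc
  ext v
  simp only [Perm.coe_mul, Function.comp_apply]
  grind [swap_apply_def]

theorem IsThreeCycle.cube {f : Perm α} (hf : IsThreeCycle f) (x : α) : f (f (f x)) = x := by
  have h : (f ^ 3) x = x := by
    rw [← hf.orderOf, pow_orderOf_eq_one, Perm.one_apply]
  exact h

/-- **A common arc.** -/
theorem arc {f g : Perm α} (hf : IsThreeCycle f) (hg : IsThreeCycle g)
    (h2 : f * g * (f * g) = 1) (h1 : f * g ≠ 1) : ∃ x, f x ≠ x ∧ g x = f x := by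
  have f3 := IsThreeCycle.cube hf
  have e : ∀ x, f (g (f (g x))) = x := fun x => by
    have := congrArg (fun h : Perm α => h x) h2
    exact this
  by_cases hs : ∀ x, f x ≠ x → g x ≠ x
  · by_contra hcon
    push Not at hcon
    apply h1
    have hsupp : f.support = g.support := by
      refine Finset.eq_of_subset_of_card_le (fun x hx => ?_) ?_
      · exact mem_support.2 (hs x (mem_support.1 hx))
      · rw [hf.card_support, hg.card_support]
    ext x
    show f (g x) = x
    by_cases hx : f x = x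
    · have h3 : x ∉ g.support := by
        rw [← hsupp]
        exact notMem_support.2 hx
      rw [notMem_support.1 h3, hx]
    · have h3 : g x ∈ f.support := by
        rw [hsupp, apply_mem_support, ← hsupp]
        exact mem_support.2 hx
      rw [(hf.support_eq_iff_mem_support).2 (mem_support.2 hx)] at h3
      simp only [Finset.mem_insert, Finset.mem_singleton] at h3
      rcases h3 with h3 | h3 | h3
      · exact absurd h3 (hs x hx)
      · exact absurd h3 (hcon x hx)
      · rw [h3, f3]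
  · push Not at hs
    obtain ⟨x, hx, hgx⟩ := hs
    have h3 := e x
    rw [hgx] at h3
    refine ⟨f x, fun h => hx (f.injective h), ?_⟩
    apply f.injective
    rw [h3, f3]

theorem IsThreeCycle.eq_tc {f : Perm α} (hf : IsThreeCycle f) {a : α} (ha : f a ≠ a) :
    f = tc a (f a) (f (f a)) :=
  (hf.eq_swap_mul_swap_iff_mem_support).2 (mem_support.2 ha)

/-- **The common arc of all.** -/
theorem common {f₁ f₂ f₃ : Perm α} (h₁ : IsThreeCycle f₁) (h₂ : IsThreeCycle f₂)
    (h₃ : IsThreeCycle f₃) (h12 : f₁ ≠ f₂) {a x₁ x₂ : α} (ha : f₁ a ≠ a) (ha2 : f₂ a = f₁ a)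
    (hx1 : f₁ x₁ ≠ x₁) (e1 : f₃ x₁ = f₁ x₁) (hx2 : f₂ x₂ ≠ x₂) (e2 : f₃ x₂ = f₂ x₂) :
    f₃ a = f₁ a := by
  have g1 := IsThreeCycle.cube h₁
  have g2 := IsThreeCycle.cube h₂
  have g3 := IsThreeCycle.cube h₃
  have s1 := (h₁.support_eq_iff_mem_support).2 (mem_support.2 ha)
  have ha' : f₂ a ≠ a := by rw [ha2]; exact ha
  have s2 := (h₂.support_eq_iff_mem_support).2 (mem_support.2 ha')
  have m1 := mem_support.2 hx1
  have m2 := mem_support.2 hx2
  rw [s1] at m1
  rw [s2, ha2] at m2
  simp only [Finset.mem_insert, Finset.mem_singleton] at m1 m2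
  have hc : f₁ (f₁ a) ≠ f₂ (f₁ a) := by
    intro h
    apply h12
    rw [IsThreeCycle.eq_tc h₁ ha, IsThreeCycle.eq_tc h₂ ha', ha2, h]
  have i1 := f₁.injective
  have i2 := f₂.injective
  have i3 := f₃.injective
  -- the case of arcs in different positions
  rcases m1 with m1 | m1 | m1
  · rw [← m1, e1]
  · rcases m2 with m2 | m2 | m2
    · rw [← m2, e2, m2, ha2]
    · exfalso
      apply hc
      rw [← m1, ← e1, m1, ← m2, e2]
    · exfalso
      -- `f₃ b = c₁`, `f₃ c₂ = a`
      have k1 : f₃ (f₁ a) = f₁ (f₁ a) := by rw [← m1, e1]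
      have k2 : f₃ (f₂ (f₁ a)) = a := by
        rw [← m2, e2, m2, ← ha2, g2]
      have k3 : f₃ (f₁ a) ≠ f₁ a := by
        rw [k1]
        exact fun h => ha (i1 h)
      have s3 := (h₃.support_eq_iff_mem_support).2 (mem_support.2 k3)
      have k4 : f₂ (f₁ a) ∈ f₃.support := by
        rw [mem_support, k2]
        intro h
        have := g2 a
        rw [ha2, ← h] at this
        exact ha' this
      rw [s3, k1] at k4
      simp only [Finset.mem_insert, Finset.mem_singleton] at k4
      rcases k4 with k4 | k4 | k4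
      · rw [← ha2] at k4
        exact ha' (i2 k4)
      · exact hc k4.symm
      · rw [k4] at k2
        have := g3 (f₁ a)
        rw [k1, k2] at this
        exact ha this.symm
  · rcases m2 with m2 | m2 | m2
    · rw [← m2, e2, m2, ha2]
    · exfalso
      -- `f₃ c₁ = a`, `f₃ b = c₂`
      have k1 : f₃ (f₁ a) = f₂ (f₁ a) := by rw [← m2, e2]
      have k2 : f₃ (f₁ (f₁ a)) = a := by
        rw [← m1, e1, m1, g1]
      have k3 : f₃ (f₁ a) ≠ f₁ a := by
        rw [k1, ← ha2]
        exact fun h => ha' (i2 h)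
      have s3 := (h₃.support_eq_iff_mem_support).2 (mem_support.2 k3)
      have k4 : f₁ (f₁ a) ∈ f₃.support := by
        rw [mem_support, k2]
        intro h
        have := g1 a
        rw [← h] at this
        exact ha this
      rw [s3, k1] at k4
      simp only [Finset.mem_insert, Finset.mem_singleton] at k4
      rcases k4 with k4 | k4 | k4
      · exact ha (i1 k4)
      · exact hc k4
      · rw [k4] at k2
        have := g3 (f₁ a)
        rw [k1, k2] at this
        exact ha this.symm
    · exfalso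
      have k1 : f₃ x₁ = a := by rw [e1, m1, g1]
      have k2 : f₃ x₂ = a := by rw [e2, m2, ← ha2, g2]
      have k3 : x₁ = x₂ := i3 (k1.trans k2.symm)
      apply hc
      rw [← m1, ← m2, k3]

end perm

section aut

variable {α : Type*} [Fintype α] [DecidableEq α]

theorem ex_not (s : Finset α) (h : s.card < Fintype.card α) : ∃ x, x ∉ s := by
  by_contra hcon
  push Not at hcon
  have : s = Finset.univ := Finset.eq_univ_iff_forall.2 hcon
  rw [this, Finset.card_univ] at h
  exact lt_irrefl _ h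

/-- **Generation by the cycles `(o e i)`.** -/
theorem gen {K : Subgroup (Perm α)} {o e : α} (oe : o ≠ e)
    (h : ∀ i, i ≠ o → i ≠ e → tc o e i ∈ K) : alternatingGroup α ≤ K := by
  have p1 : ∀ x y : α, x ≠ y → (∀ z, z ≠ x → z ≠ y → tc x y z ∈ K) →
      ∀ z, z ≠ x → ∀ w, w ≠ x → w ≠ z → tc x z w ∈ K := by
    intro x y xy hP z zx w wx wz
    by_cases hz : z = y
    · rw [hz]
      exact hP w wx (by rw [← hz]; exact wz)
    by_cases hw : w = y
    · rw [hw, ← tc_inv xy zx.symm (Ne.symm hz)]
      exact K.inv_mem (hP z zx hz)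
    · rw [← tc_mul xy zx.symm wx.symm (Ne.symm hz) (Ne.symm hw) wz.symm]
      exact K.mul_mem (hP w wx hw) (K.inv_mem (hP z zx hz))
  have p2 : ∀ x y : α, x ≠ y → (∀ z, z ≠ x → z ≠ y → tc x y z ∈ K) →
      ∀ z, z ≠ y → z ≠ x → tc y x z ∈ K := by
    intro x y xy hP z zy zx
    have h1 := K.inv_mem (hP z zx zy)
    rw [tc_inv xy zx.symm zy.symm] at h1
    rw [tc_rot xy.symm zy.symm zx.symm]
    exact h1
  have all : ∀ x y z : α, x ≠ y → x ≠ z → y ≠ z → tc x y z ∈ K := by
    have q1 : ∀ z, z ≠ o → ∀ w, w ≠ o → w ≠ z → tc o z w ∈ K := p1 o e oe h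
    intro x y z xy xz yz
    by_cases hx : x = o
    · subst hx
      exact q1 y xy.symm z xz.symm yz.symm
    · exact p1 x o hx (p2 o x (Ne.symm hx) (fun w h1 h2 => q1 x hx w h1 h2)) y xy.symm z
        xz.symm yz.symm
  rw [← closure_three_cycles_eq_alternating, Subgroup.closure_le]
  intro g hg
  have hg' : IsThreeCycle g := hg
  obtain ⟨a, ha⟩ : ∃ a, g a ≠ a := by
    by_contra hcon
    push Not at hcon
    exact hg'.ne_one (Perm.ext hcon)
  have h1 := (hg'.nodup_iff_mem_support).2 (mem_support.2 ha)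
  simp only [List.nodup_cons, List.mem_cons, List.not_mem_nil, or_false, not_or,
    List.nodup_nil, and_true, not_false_eq_true] at h1
  rw [IsThreeCycle.eq_tc hg' ha]
  exact all _ _ _ h1.1.1 h1.1.2 h1.2

/-- The automorphism is a conjugation if it maps three-cycles to three-cycles. -/
theorem aut_of_three (h5 : 5 ≤ Fintype.card α) (φ : alternatingGroup α ≃* alternatingGroup α)
    (H : ∀ x : alternatingGroup α, IsThreeCycle (x : Perm α) → IsThreeCycle (φ x : Perm α)) :
    ∃ σ : Perm α, ∀ x : alternatingGroup α, (φ x : Perm α) = σ * x * σ⁻¹ := by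
  obtain ⟨o, -⟩ := ex_not (∅ : Finset α) (by rw [Finset.card_empty]; omega)
  obtain ⟨e, he⟩ := ex_not ({o} : Finset α) (by rw [Finset.card_singleton]; omega)
  have oe : o ≠ e := by
    rw [Finset.mem_singleton] at he
    exact Ne.symm he
  obtain ⟨i₁, hi₁⟩ := ex_not ({o, e} : Finset α) (Finset.card_le_two.trans_lt (by omega))
  obtain ⟨i₂, hi₂⟩ := ex_not ({o, e, i₁} : Finset α) (Finset.card_le_three.trans_lt (by omega))
  simp only [Finset.mem_insert, Finset.mem_singleton, not_or] at hi₁ hi₂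
  -- the cycles
  obtain ⟨T, hT⟩ : ∃ T : α → alternatingGroup α, ∀ i, i ≠ o → i ≠ e →
      (T i : Perm α) = tc o e i := by
    refine ⟨fun i => if h : i ≠ o ∧ i ≠ e then
      ⟨tc o e i, (tc_three oe h.1.symm h.2.symm).mem_alternatingGroup⟩ else 1, fun i h1 h2 => ?_⟩
    simp only [dif_pos (And.intro h1 h2)]
  obtain ⟨X, hX⟩ : ∃ X : α → Perm α, X = fun i => (φ (T i) : Perm α) := ⟨_, rfl⟩
  have X3 : ∀ i, i ≠ o → i ≠ e → IsThreeCycle (X i) := by
    intro i h1 h2
    rw [hX]
    refine H _ ?_
    rw [hT i h1 h2]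
    exact tc_three oe h1.symm h2.symm
  have Xprod : ∀ i j, i ≠ o → i ≠ e → j ≠ o → j ≠ e → i ≠ j →
      X i * X j * (X i * X j) = 1 ∧ X i * X j ≠ 1 := by
    intro i j h1 h2 h3 h4 h5
    have e1 : (T i : Perm α) * T j = swap o i * swap e j := by
      rw [hT i h1 h2, hT j h3 h4]
      exact tc_prod oe h1.symm h3.symm h2.symm h4.symm h5
    have e2 : swap o i * swap e j * (swap o i * swap e j) = 1 := by
      ext v
      simp only [Perm.coe_mul, Function.comp_apply, Perm.coe_one, id_eq]
      grind [swap_apply_def]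
    constructor
    · have e3 : T i * T j * (T i * T j) = 1 := by
        refine Subtype.ext ?_
        push_cast
        rw [e1, e2]
      have e4 := congrArg (fun y => (φ y : Perm α)) e3
      simp only [map_mul, map_one] at e4
      rw [hX]
      exact e4
    · intro h6
      have e3 : φ (T i * T j) = 1 := by
        rw [map_mul]
        refine Subtype.ext ?_
        rw [hX] at h6
        exact h6
      have e4 : T i * T j = 1 := by
        rw [← map_one φ] at e3
        exact φ.injective e3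
      have e5 := congrArg (fun y : alternatingGroup α => (y : Perm α)) e4
      have e6 : (T i : Perm α) * T j = 1 := e5
      rw [e1] at e6
      have e7 := congrArg (fun y : Perm α => y o) e6
      simp only [Perm.coe_mul, Function.comp_apply, Perm.coe_one, id_eq] at e7
      rw [swap_apply_of_ne_of_ne oe h3.symm, swap_apply_left] at e7
      exact h1 e7
  have Xinj : ∀ i j, i ≠ o → i ≠ e → j ≠ o → j ≠ e → X i = X j → i = j := by
    intro i j h1 h2 h3 h4 h5
    rw [hX] at h5
    have e1 : T i = T j := φ.injective (Subtype.ext h5)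
    have e2 : tc o e i = tc o e j := by
      rw [← hT i h1 h2, ← hT j h3 h4, e1]
    have e3 := congrArg (fun y : Perm α => y e) e2
    unfold tc at e3
    simp only [Perm.coe_mul, Function.comp_apply, swap_apply_left] at e3
    rw [swap_apply_of_ne_of_ne h1 h2, swap_apply_of_ne_of_ne h3 h4] at e3
    exact e3
  have hne : X i₁ ≠ X i₂ := fun h => hi₂.2.2 (Xinj i₁ i₂ hi₁.1 hi₁.2 hi₂.1 hi₂.2.1 h).symm
  obtain ⟨a, ha, ha2⟩ := arc (X3 i₁ hi₁.1 hi₁.2) (X3 i₂ hi₂.1 hi₂.2.1)
    (Xprod i₁ i₂ hi₁.1 hi₁.2 hi₂.1 hi₂.2.1 (Ne.symm hi₂.2.2)).1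
    (Xprod i₁ i₂ hi₁.1 hi₁.2 hi₂.1 hi₂.2.1 (Ne.symm hi₂.2.2)).2
  obtain ⟨b, hb⟩ : ∃ b, b = X i₁ a := ⟨_, rfl⟩
  have hab : ∀ i, i ≠ o → i ≠ e → X i a = b := by
    intro i h1 h2
    by_cases k1 : i = i₁
    · rw [k1, hb]
    by_cases k2 : i = i₂
    · rw [k2, hb, ha2]
    obtain ⟨x₁, y1, y2⟩ := arc (X3 i₁ hi₁.1 hi₁.2) (X3 i h1 h2)
      (Xprod i₁ i hi₁.1 hi₁.2 h1 h2 (Ne.symm k1)).1 (Xprod i₁ i hi₁.1 hi₁.2 h1 h2 (Ne.symm k1)).2
    obtain ⟨x₂, y3, y4⟩ := arc (X3 i₂ hi₂.1 hi₂.2.1) (X3 i h1 h2)
      (Xprod i₂ i hi₂.1 hi₂.2.1 h1 h2 (Ne.symm k2)).1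
      (Xprod i₂ i hi₂.1 hi₂.2.1 h1 h2 (Ne.symm k2)).2
    rw [hb]
    exact common (X3 i₁ hi₁.1 hi₁.2) (X3 i₂ hi₂.1 hi₂.2.1) (X3 i h1 h2) hne ha ha2 y1 y2 y3 y4
  have hba : b ≠ a := by rw [hb]; exact ha
  have hia : ∀ i, i ≠ o → i ≠ e → X i a ≠ a := fun i h1 h2 => by
    rw [hab i h1 h2]
    exact hba
  have hXt : ∀ i, i ≠ o → i ≠ e → X i = tc a b (X i b) := fun i h1 h2 => by
    have := IsThreeCycle.eq_tc (X3 i h1 h2) (hia i h1 h2)
    rwa [hab i h1 h2] at this
  have hnb : ∀ i, i ≠ o → i ≠ e → X i b ≠ b := fun i h1 h2 h3 => by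
    have : X i a = X i b := by rw [hab i h1 h2, h3]
    exact hba ((X i).injective this).symm
  have hna : ∀ i, i ≠ o → i ≠ e → X i b ≠ a := fun i h1 h2 h3 => by
    have h4 := IsThreeCycle.cube (X3 i h1 h2) a
    rw [hab i h1 h2, h3, hab i h1 h2] at h4
    exact hba h4
  -- the permutation
  obtain ⟨s, hs⟩ : ∃ s : α → α, s = fun i => if i = o then a else if i = e then b else X i b :=
    ⟨_, rfl⟩
  have so : s o = a := by rw [hs]; simp
  have se : s e = b := by rw [hs]; simp [oe.symm]
  have si : ∀ i, i ≠ o → i ≠ e → s i = X i b := fun i h1 h2 => by rw [hs]; simp [h1, h2]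
  have sinj : Function.Injective s := by
    intro i j hij
    by_cases i1 : i = o
    · by_cases j1 : j = o
      · rw [i1, j1]
      · by_cases j2 : j = e
        · rw [i1, j2, so, se] at hij
          exact absurd hij.symm hba
        · rw [i1, so, si j j1 j2] at hij
          exact absurd hij.symm (hna j j1 j2)
    · by_cases i2 : i = e
      · by_cases j1 : j = o
        · rw [i2, j1, so, se] at hij
          exact absurd hij hba
        · by_cases j2 : j = e
          · rw [i2, j2]
          · rw [i2, se, si j j1 j2] at hij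
            exact absurd hij.symm (hnb j j1 j2)
      · by_cases j1 : j = o
        · rw [j1, so, si i i1 i2] at hij
          exact absurd hij (hna i i1 i2)
        · by_cases j2 : j = e
          · rw [j2, se, si i i1 i2] at hij
            exact absurd hij (hnb i i1 i2)
          · rw [si i i1 i2, si j j1 j2] at hij
            refine Xinj i j i1 i2 j1 j2 ?_
            rw [hXt i i1 i2, hXt j j1 j2, hij]
  obtain ⟨σ, hσ⟩ : ∃ σ : Perm α, ∀ i, σ i = s i :=
    ⟨Equiv.ofBijective s (Finite.injective_iff_bijective.1 sinj), fun i => rfl⟩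
  refine ⟨σ, ?_⟩
  -- the subgroup
  obtain ⟨K, hK⟩ : ∃ K : Subgroup (alternatingGroup α), ∀ x : alternatingGroup α,
      x ∈ K ↔ (φ x : Perm α) = σ * x * σ⁻¹ := by
    refine ⟨{
        carrier := {x | (φ x : Perm α) = σ * x * σ⁻¹}
        mul_mem' := ?_
        one_mem' := ?_
        inv_mem' := ?_ }, fun x => Iff.rfl⟩
    · intro x y hx hy
      simp only [Set.mem_setOf_eq] at hx hy ⊢
      rw [map_mul]
      push_cast
      rw [hx, hy]
      group
    · simp only [Set.mem_setOf_eq, map_one, Subgroup.coe_one]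
      group
    · intro x hx
      simp only [Set.mem_setOf_eq] at hx ⊢
      rw [map_inv]
      push_cast
      rw [hx]
      group
  have hgen : alternatingGroup α ≤ K.map (alternatingGroup α).subtype := by
    refine gen oe fun i h1 h2 => ?_
    rw [Subgroup.mem_map]
    refine ⟨T i, ?_, hT i h1 h2⟩
    rw [hK, hT i h1 h2]
    have e1 : (φ (T i) : Perm α) = X i := by rw [hX]
    rw [e1, hXt i h1 h2]
    unfold tc
    have e2 : σ * (swap o e * swap e i) * σ⁻¹ = (σ * swap o e * σ⁻¹) * (σ * swap e i * σ⁻¹) := by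
      group
    rw [e2, ← swap_apply_apply, ← swap_apply_apply, hσ, hσ, hσ, so, se, si i h1 h2]
  intro x
  obtain ⟨y, hy, hyx⟩ := (Subgroup.mem_map).1 (hgen x.2)
  have : y = x := Subtype.ext hyx
  rw [← this]
  exact (hK y).1 hy

theorem card_cent_le (x : alternatingGroup α) :
    Nat.card (Subgroup.centralizer {x}) ≤ Nat.card (Subgroup.centralizer {(x : Perm α)}) := by
  refine Nat.card_le_card_of_injective (fun y => ⟨((y : alternatingGroup α) : Perm α), ?_⟩) ?_
  · have h := (Subgroup.mem_centralizer_iff).1 y.2 x (Set.mem_singleton x)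
    rw [Subgroup.mem_centralizer_iff]
    intro z hz
    rw [Set.mem_singleton_iff] at hz
    rw [hz]
    exact congrArg (fun w : alternatingGroup α => (w : Perm α)) h
  · intro y z h
    have h1 : ((y : alternatingGroup α) : Perm α) = ((z : alternatingGroup α) : Perm α) := by
      have h2 := Subtype.ext_iff.1 h
      exact h2
    exact Subtype.ext (Subtype.ext h1)

theorem card_cent_ge [Nontrivial α] (x : alternatingGroup α) :
    Nat.card (Subgroup.centralizer {(x : Perm α)}) ≤ 2 * Nat.card (Subgroup.centralizer {x}) := by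
  obtain ⟨C, hC⟩ : ∃ C, C = Subgroup.centralizer {(x : Perm α)} := ⟨_, rfl⟩
  rw [← hC]
  have h1 := ((alternatingGroup α).subgroupOf C).card_mul_index
  have h2 : ((alternatingGroup α).subgroupOf C).index ∣ 2 := by
    have := Subgroup.relIndex_dvd_index_of_normal (alternatingGroup α) C
    rwa [alternatingGroup.index_eq_two] at this
  have h3 : ((alternatingGroup α).subgroupOf C).index ≤ 2 := Nat.le_of_dvd (by norm_num) h2
  have h4 : Nat.card ((alternatingGroup α).subgroupOf C) ≤
      Nat.card (Subgroup.centralizer {x}) := by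
    refine Nat.card_le_card_of_injective (fun y => ⟨⟨((y : C) : Perm α),
      (Subgroup.mem_subgroupOf).1 y.2⟩, ?_⟩) ?_
    · rw [Subgroup.mem_centralizer_iff]
      intro z hz
      rw [Set.mem_singleton_iff] at hz
      rw [hz]
      have h5 : ((y : C) : Perm α) ∈ Subgroup.centralizer {(x : Perm α)} := by
        rw [← hC]
        exact (y : C).2
      exact Subtype.ext ((Subgroup.mem_centralizer_iff).1 h5 (x : Perm α) (Set.mem_singleton _))
    · intro y z h
      have h1 : ((y : C) : Perm α) = ((z : C) : Perm α) :=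
        congrArg (fun w : Subgroup.centralizer {x} => ((w : alternatingGroup α) : Perm α)) h
      exact Subtype.ext (Subtype.ext h1)
  calc Nat.card C = Nat.card ((alternatingGroup α).subgroupOf C) *
        ((alternatingGroup α).subgroupOf C).index := h1.symm
    _ ≤ Nat.card (Subgroup.centralizer {x}) * 2 := Nat.mul_le_mul h4 h3
    _ = _ := mul_comm _ _

theorem card_cent_map (φ : alternatingGroup α ≃* alternatingGroup α) (x : alternatingGroup α) :
    Nat.card (Subgroup.centralizer {φ x}) = Nat.card (Subgroup.centralizer {x}) := by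
  refine (Nat.card_congr (φ.toEquiv.subtypeEquiv fun y => ?_)).symm
  rw [Subgroup.mem_centralizer_iff, Subgroup.mem_centralizer_iff]
  constructor
  · intro h z hz
    rw [Set.mem_singleton_iff] at hz
    rw [hz]
    have h1 := congrArg φ (h x (Set.mem_singleton x))
    rw [map_mul, map_mul] at h1
    exact h1
  · intro h z hz
    rw [Set.mem_singleton_iff] at hz
    rw [hz]
    refine φ.injective ?_
    rw [map_mul, map_mul]
    exact h (φ x) (Set.mem_singleton _)

open Nat in
theorem fac_ineq {n m : ℕ} (hm : 2 ≤ m) (hn : 3 * m ≤ n) (h7 : 7 ≤ n) :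
    2 * ((n - 3 * m)! * 3 ^ m * m !) < (n - 3)! * 3 := by
  obtain ⟨k, rfl⟩ : ∃ k, n = k + 3 * m := ⟨n - 3 * m, by omega⟩
  have e1 : k + 3 * m - 3 * m = k := by omega
  rw [e1]
  rcases Nat.eq_or_lt_of_le hm with h2 | h2
  · subst h2
    obtain ⟨l, rfl⟩ : ∃ l, k = l + 1 := ⟨k - 1, by omega⟩
    have e2 : l + 1 + 3 * 2 - 3 = l + 1 + 1 + 1 + 1 := by omega
    rw [e2, Nat.factorial_succ (l + 1 + 1 + 1), Nat.factorial_succ (l + 1 + 1),
      Nat.factorial_succ (l + 1)]
    have hp := Nat.factorial_pos (l + 1)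
    have e3 : (2 : ℕ)! = 2 := rfl
    rw [e3]
    have h3 : 4 * (3 * 2) ≤ (l + 1 + 1 + 1 + 1) * ((l + 1 + 1 + 1) * (l + 1 + 1)) :=
      Nat.mul_le_mul (by omega) (Nat.mul_le_mul (by omega) (by omega))
    have h4 := Nat.mul_le_mul_right (l + 1)! h3
    nlinarith
  · -- `m ≥ 3`
    have key : ∀ j : ℕ, 2 * (3 ^ (j + 3) * (j + 3)!) < (3 * j + 6)! * 3 := by
      intro j
      induction j with
      | zero => decide
      | succ j ih =>
        have e2 : 3 * (j + 1) + 6 = 3 * j + 6 + 1 + 1 + 1 := by ring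
        rw [e2, Nat.factorial_succ (3 * j + 6 + 1 + 1), Nat.factorial_succ (3 * j + 6 + 1),
          Nat.factorial_succ (3 * j + 6)]
        have e3 : j + 1 + 3 = (j + 3) + 1 := by ring
        rw [e3, Nat.factorial_succ (j + 3), pow_succ]
        have h3 : 3 * (j + 3 + 1) ≤ (3 * j + 6 + 1 + 1 + 1) * ((3 * j + 6 + 1 + 1) *
            (3 * j + 6 + 1)) :=
          (show 3 * (j + 3 + 1) ≤ (3 * j + 6 + 1 + 1 + 1) * (2 * 1) by omega).trans
            (Nat.mul_le_mul le_rfl (Nat.mul_le_mul (by omega) (by omega)))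
        have hp := Nat.factorial_pos (3 * j + 6)
        calc 2 * (3 ^ (j + 3) * 3 * ((j + 3 + 1) * (j + 3)!))
            = 3 * (j + 3 + 1) * (2 * (3 ^ (j + 3) * (j + 3)!)) := by ring
          _ < 3 * (j + 3 + 1) * ((3 * j + 6)! * 3) := by
              refine Nat.mul_lt_mul_of_pos_left ih (by positivity)
          _ ≤ ((3 * j + 6 + 1 + 1 + 1) * ((3 * j + 6 + 1 + 1) * (3 * j + 6 + 1))) *
              ((3 * j + 6)! * 3) := Nat.mul_le_mul_right _ h3
          _ = _ := by ring
    obtain ⟨j, rfl⟩ : ∃ j, m = j + 3 := ⟨m - 3, by omega⟩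
    have h3 := key j
    have e2 : k + 3 * (j + 3) - 3 = k + (3 * j + 6) := by omega
    rw [e2]
    have h4 : k ! * (3 * j + 6)! ≤ (k + (3 * j + 6))! :=
      Nat.le_of_dvd (Nat.factorial_pos _) (Nat.factorial_mul_factorial_dvd_factorial_add k _)
    have hp := Nat.factorial_pos k
    calc 2 * (k ! * 3 ^ (j + 3) * (j + 3)!) = k ! * (2 * (3 ^ (j + 3) * (j + 3)!)) := by ring
      _ < k ! * ((3 * j + 6)! * 3) := Nat.mul_lt_mul_of_pos_left h3 hp
      _ = (k ! * (3 * j + 6)!) * 3 := by ring
      _ ≤ _ := Nat.mul_le_mul_right 3 h4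

/-- **Three-cycles are mapped to three-cycles.** -/
theorem three_map (h5 : 5 ≤ Fintype.card α) (h6 : Fintype.card α ≠ 6)
    (φ : alternatingGroup α ≃* alternatingGroup α) (x : alternatingGroup α)
    (hx : IsThreeCycle (x : Perm α)) : IsThreeCycle (φ x : Perm α) := by
  have hnt : Nontrivial α := Fintype.one_lt_card_iff_nontrivial.1 (by omega)
  have ho : orderOf ((φ x : alternatingGroup α) : Perm α) = 3 := by
    rw [Subgroup.orderOf_coe, MulEquiv.orderOf_eq, ← Subgroup.orderOf_coe, hx.orderOf]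
  obtain ⟨m, hm⟩ := cycleType_prime_order (σ := ((φ x : alternatingGroup α) : Perm α))
    (by rw [ho]; norm_num)
  rw [ho] at hm
  by_cases hm0 : m = 0
  · rw [hm0] at hm
    exact hm
  exfalso
  have hcard : 3 * (m + 1) ≤ Fintype.card α := by
    have h1 := sum_cycleType_le ((φ x : alternatingGroup α) : Perm α)
    rw [hm, Multiset.sum_replicate, smul_eq_mul] at h1
    omega
  have c1 := nat_card_centralizer ((φ x : alternatingGroup α) : Perm α)
  have c2 := nat_card_centralizer (x : Perm α)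
  have hx' : (x : Perm α).cycleType = {3} := hx
  rw [hx'] at c2
  rw [hm] at c1
  have e1 : (Multiset.replicate (m + 1) 3).toFinset = {3} := by
    ext y
    rw [Multiset.mem_toFinset, Multiset.mem_replicate, Finset.mem_singleton]
    exact ⟨fun h => h.2, fun h => ⟨by omega, h⟩⟩
  have e2 : (({3} : Multiset ℕ)).toFinset = {3} := by
    simp
  rw [e1, Finset.prod_singleton, Multiset.count_replicate_self, Multiset.sum_replicate,
    Multiset.prod_replicate, smul_eq_mul, mul_comm (m + 1) 3] at c1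
  rw [e2, Finset.prod_singleton, Multiset.count_singleton_self, Multiset.sum_singleton,
    Multiset.prod_singleton, Nat.factorial_one, mul_one] at c2
  have h1 := card_cent_ge x
  have h2 := card_cent_le (φ x)
  rw [card_cent_map] at h2
  have h3 := fac_ineq (n := Fintype.card α) (m := m + 1) (by omega) hcard (by omega)
  rw [c1] at h2
  rw [c2] at h1
  omega

end aut

/-- **Automorphisms of alternating groups**, degree at least `5` and not `6`. -/
theorem aut_alt {n : ℕ} (h5 : 5 ≤ n) (h6 : n ≠ 6)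
    (φ : alternatingGroup (Fin n) ≃* alternatingGroup (Fin n)) :
    ∃ σ : Equiv.Perm (Fin n), ∀ x : alternatingGroup (Fin n),
      ((φ x : alternatingGroup (Fin n)) : Equiv.Perm (Fin n)) = σ * x * σ⁻¹ :=
  aut_of_three (by rwa [Fintype.card_fin]) φ
    (three_map (by rwa [Fintype.card_fin]) (by rwa [Fintype.card_fin]) φ)

end Pool.ENG81
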