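import Pool.Agent.H81.ENG.Ext

/-!
The base group `A_4 < S_4` with a 4-cycle (p = 2, q = 3).
-/

set_option autoImplicit false
set_option linter.style.haveILetI false

namespace Pool.Agent.H81.ENG

open Equiv Equiv.Perm

/-- the 4-cycle -/
def y4 : Perm (ZMod 4) := Equiv.addRight (1 : ZMod 4)

def v1 : Perm (ZMod 4) := swap 0 1 * swap 2 3
def v2 : Perm (ZMod 4) := swap 0 2 * swap 1 3
def v3 : Perm (ZMod 4) := swap 0 3 * swap 1 2
def rho4 : Perm (ZMod 4) := swap 0 1 * swap 1 2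

/-- the Klein four group -/
def V4 : Subgroup (Perm (ZMod 4)) where
  carrier := {g | g = 1 ∨ g = v1 ∨ g = v2 ∨ g = v3}
  one_mem' := Or.inl rfl
  mul_mem' := by
    rintro a b (rfl | rfl | rfl | rfl) (rfl | rfl | rfl | rfl) <;>
      (show _ ∨ _ ∨ _ ∨ _; decide)
  inv_mem' := by
    rintro a (rfl | rfl | rfl | rfl) <;> (show _ ∨ _ ∨ _ ∨ _; decide)

theorem mem_V4 {g : Perm (ZMod 4)} : g ∈ V4 ↔ g = 1 ∨ g = v1 ∨ g = v2 ∨ g = v3 := Iff.rfl

theorem V4_normal_aux : ∀ g : Perm (ZMod 4), 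
    (g * v1 * g⁻¹ = v1 ∨ g * v1 * g⁻¹ = v2 ∨ g * v1 * g⁻¹ = v3) ∧
    (g * v2 * g⁻¹ = v1 ∨ g * v2 * g⁻¹ = v2 ∨ g * v2 * g⁻¹ = v3) ∧
    (g * v3 * g⁻¹ = v1 ∨ g * v3 * g⁻¹ = v2 ∨ g * v3 * g⁻¹ = v3) := by
  decide

theorem V4_card : Nat.card V4 = 2 ^ 2 := by
  have h1 : (V4 : Set (Perm (ZMod 4))) = (({1, v1, v2, v3} : Finset (Perm (ZMod 4))) : Set _) := by
    ext g
    rw [SetLike.mem_coe, mem_V4]
    simp
  have h2 : Nat.card V4 = Set.ncard (V4 : Set (Perm (ZMod 4))) := by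
    rw [← Nat.card_coe_set_eq]; rfl
  rw [h2, h1, Set.ncard_coe_finset]
  decide

noncomputable def baseA4 : Base (Perm (ZMod 4)) 2 3 2 where
  W := alternatingGroup (ZMod 4)
  N0 := V4
  y := y4
  ρ := rho4
  χ := sign
  nW := inferInstance
  nN := by
    constructor
    rintro n (rfl | rfl | rfl | rfl) g
    · rw [mul_one, mul_inv_cancel]; exact V4.one_mem
    · exact Or.inr (V4_normal_aux g).1
    · exact Or.inr (V4_normal_aux g).2.1
    · exact Or.inr (V4_normal_aux g).2.2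
  le := by
    rintro n (rfl | rfl | rfl | rfl) <;> (rw [mem_alternatingGroup]; decide)
  comm := by
    rintro a (rfl | rfl | rfl | rfl) b (rfl | rfl | rfl | rfl) <;> decide
  exp := by
    rintro a (rfl | rfl | rfl | rfl) <;> decide
  card := V4_card
  zN := by
    rw [mem_V4]; decide
  ρW := by rw [mem_alternatingGroup]; decide
  ρq := by decide
  nc := by decide
  χN := by rintro a (rfl | rfl | rfl | rfl) <;> decide
  tw := Or.inr ⟨rfl, by rw [mem_V4]; decide⟩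

theorem case_two {Ω : Type*} [Fintype Ω] [DecidableEq Ω] {σ : Perm Ω} {b c d : ℕ}
    (hL : ALaw σ (2 ^ b) d) {u : Ω} (h1 : (σ ^ (2 ^ (c + 2))) u = u)
    (h0 : (σ ^ (2 ^ (c + 1))) u ≠ u) (hbc : 1 ≤ b + c) : 2 ^ (b + (c + 2)) ∣ d := by
  obtain ⟨ι, hι1, hι2⟩ := orbit_embed Nat.prime_two σ u (c := c + 1) h1 h0 (l := 2 ^ c) (β := 4)
    (by rw [show (4 : ℕ) = 2 ^ 2 by norm_num, ← pow_add]) (pow_pos (by norm_num) c)
  have hm : 2 ^ b * 2 ^ c = 2 ^ (b + c) := (pow_add 2 b c).symm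
  have h3 := hL.block baseA4 (Z := ZMod 4) (MonoidHom.id _) (fun _ _ h => h) (fun _ => rfl) hm
    (pow_pos (by norm_num) c) ι hι1 (fun r x hr => hι2 r x hr)
  haveI : Fact (Nat.Prime 3) := ⟨Nat.prime_three⟩
  have h4 := baseA4.main Nat.prime_two (by norm_num) (μ := b + c + 1) (m := 2 ^ (b + c))
    (k := 2 ^ b) (l := 2 ^ c) (d := d) (by
      have : 2 ^ 2 ≤ 2 ^ (b + c + 1) := Nat.pow_le_pow_right (by norm_num) (by omega)
      omega) (by rw [pow_succ]; ring) hm (Or.inl (by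
        show sign rho4 = 1
        decide)) h3
  rw [show b + (c + 2) = b + c + 1 + 1 by ring]
  exact h4

end Pool.Agent.H81.ENG
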