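import Pool.Agent.H81.ENG.Ext

/-!
The base group `AGL(1,p)` with the translation by 1 (p odd).
-/

set_option autoImplicit false
set_option linter.style.haveILetI false

namespace Pool.Agent.H81.ENG

open Equiv Equiv.Perm

theorem apinv {α : Type*} (g : Perm α) (x : α) : g (g⁻¹ x) = x := Equiv.apply_symm_apply g x

section

variable (p : ℕ)

/-- The affine group. -/
def AGL : Subgroup (Perm (ZMod p)) where
  carrier := {g | ∃ u : (ZMod p)ˣ, ∃ b : ZMod p, ∀ x, g x = u * x + b}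
  one_mem' := ⟨1, 0, fun x => by simp⟩
  mul_mem' := by
    rintro g g' ⟨u, b, h⟩ ⟨u', b', h'⟩
    refine ⟨u * u', u * b' + b, fun x => ?_⟩
    rw [Perm.mul_apply, h, h']
    push_cast
    ring
  inv_mem' := by
    rintro g ⟨u, b, h⟩
    refine ⟨u⁻¹, -(↑u⁻¹ * b), fun x => ?_⟩
    apply g.injective
    rw [apinv, h]
    have : (u : ZMod p) * (↑u⁻¹ * x + -(↑u⁻¹ * b)) + b = (u * ↑u⁻¹) * x + (b - (u * ↑u⁻¹) * b) := by
      ring
    rw [this, Units.mul_inv]
    ring

theorem mem_AGL {g : Perm (ZMod p)} :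
    g ∈ AGL p ↔ ∃ u : (ZMod p)ˣ, ∃ b : ZMod p, ∀ x, g x = u * x + b := Iff.rfl

/-- Translations. -/
def TR : Subgroup (AGL p) where
  carrier := {g | ∃ b : ZMod p, ∀ x, (g : Perm (ZMod p)) x = x + b}
  one_mem' := ⟨0, fun x => by simp⟩
  mul_mem' := by
    rintro g g' ⟨b, h⟩ ⟨b', h'⟩
    refine ⟨b' + b, fun x => ?_⟩
    show (g : Perm (ZMod p)) ((g' : Perm (ZMod p)) x) = _
    rw [h, h']
    ring
  inv_mem' := by
    rintro g ⟨b, h⟩
    refine ⟨-b, fun x => ?_⟩
    apply (g : Perm (ZMod p)).injective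
    show (g : Perm (ZMod p)) ((g : Perm (ZMod p))⁻¹ x) = _
    rw [apinv, h]
    ring

theorem mem_TR {g : AGL p} : g ∈ TR p ↔ ∃ b : ZMod p, ∀ x, (g : Perm (ZMod p)) x = x + b := Iff.rfl

/-- The translation by `b`. -/
def tr (b : ZMod p) : AGL p := ⟨Equiv.addRight b, 1, b, fun x => by simp⟩

/-- The homothety. -/
def homo (u : (ZMod p)ˣ) : AGL p := ⟨Units.mulLeft u, u, 0, fun x => by simp⟩

theorem tr_apply (b x : ZMod p) : ((tr p b : AGL p) : Perm (ZMod p)) x = x + b := rfl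

theorem homo_apply (u : (ZMod p)ˣ) (x : ZMod p) :
    ((homo p u : AGL p) : Perm (ZMod p)) x = u * x := rfl

theorem homo_pow (u : (ZMod p)ˣ) (n : ℕ) : (homo p u) ^ n = homo p (u ^ n) := by
  induction n with
  | zero => apply Subtype.ext; ext x; simp [homo]
  | succ n ih =>
    rw [pow_succ, ih]
    apply Subtype.ext
    ext x : 1
    show (homo p (u ^ n) : Perm (ZMod p)) ((homo p u : Perm (ZMod p)) x) = _
    rw [homo_apply, homo_apply, homo_apply, pow_succ, ← mul_assoc, Units.val_mul]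

theorem TR_normal : (TR p).Normal := by
  constructor
  rintro n ⟨b, hb⟩ ⟨g, u, e, hg⟩
  refine ⟨u * b, fun x => ?_⟩
  show g ((n : Perm (ZMod p)) (g⁻¹ x)) = _
  have h1 : g (g⁻¹ x) = x := apinv g x
  rw [hg] at h1
  rw [hb, hg, mul_add, add_right_comm, h1]

theorem TR_tr {g : AGL p} (hg : g ∈ TR p) : ∃ b, g = tr p b := by
  obtain ⟨b, hb⟩ := hg
  refine ⟨b, ?_⟩
  apply Subtype.ext
  ext x : 1
  rw [hb, tr_apply]

theorem tr_pow (b : ZMod p) (n : ℕ) : (tr p b) ^ n = tr p (n * b) := by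
  induction n with
  | zero => apply Subtype.ext; ext x : 1; simp [tr]
  | succ n ih =>
    rw [pow_succ, ih]
    apply Subtype.ext
    ext x : 1
    show (tr p (n * b) : Perm (ZMod p)) ((tr p b : Perm (ZMod p)) x) = _
    rw [tr_apply, tr_apply, tr_apply]
    push_cast
    ring

variable [NeZero p]

theorem TR_card : Nat.card (TR p) = p ^ 1 := by
  rw [pow_one]
  refine Eq.trans ?_ (Nat.card_zmod p)
  symm
  apply Nat.card_congr
  exact Equiv.ofBijective (fun b => (⟨tr p b, b, fun x => rfl⟩ : TR p)) ⟨by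
    intro b b' hbb
    have h1 : ((tr p b : AGL p) : Perm (ZMod p)) 0 = ((tr p b' : AGL p) : Perm (ZMod p)) 0 :=
      congrArg (fun g : TR p => ((g : AGL p) : Perm (ZMod p)) 0) hbb
    rw [tr_apply, tr_apply, zero_add, zero_add] at h1
    exact h1, by
    rintro ⟨g, hg⟩
    obtain ⟨b, rfl⟩ := TR_tr p hg
    exact ⟨b, rfl⟩⟩

/-- The base data. -/
noncomputable def baseAGL {q : ℕ} (hp : p.Prime) (hp2 : p ≠ 2) (u : (ZMod p)ˣ) (hu : u ^ q = 1)
    (hu1 : u ≠ 1) : Base (AGL p) p q 1 where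
  W := ⊤
  N0 := TR p
  y := tr p 1
  ρ := homo p u
  χ := sign.comp (AGL p).subtype
  nW := inferInstance
  nN := TR_normal p
  le := le_top
  comm := by
    intro a ha b hb
    obtain ⟨e, rfl⟩ := TR_tr p ha
    obtain ⟨f, rfl⟩ := TR_tr p hb
    apply Subtype.ext
    ext x : 1
    show (tr p e : Perm (ZMod p)) ((tr p f : Perm (ZMod p)) x) =
      (tr p f : Perm (ZMod p)) ((tr p e : Perm (ZMod p)) x)
    rw [tr_apply, tr_apply, tr_apply, tr_apply]
    ring
  exp := by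
    intro a ha
    obtain ⟨e, rfl⟩ := TR_tr p ha
    rw [tr_pow]
    apply Subtype.ext
    ext x : 1
    rw [tr_apply]
    simp
  card := TR_card p
  zN := by rw [pow_one]; exact ⟨1, fun x => rfl⟩
  ρW := Subgroup.mem_top _
  ρq := by
    rw [homo_pow, hu]
    apply Subtype.ext
    ext x : 1
    rw [homo_apply]
    simp
  nc := by
    intro hcon
    rw [pow_one] at hcon
    have h1 : (tr p 1 : Perm (ZMod p)) ((homo p u : Perm (ZMod p)) 0) =
      (homo p u : Perm (ZMod p)) ((tr p 1 : Perm (ZMod p)) 0) :=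
      congrArg (fun g : AGL p => (g : Perm (ZMod p)) 0) hcon
    rw [homo_apply, tr_apply, tr_apply, homo_apply] at h1
    apply hu1
    apply Units.ext
    simpa using h1.symm
  χN := by
    intro a ha
    have h1 : a ^ p = 1 := by
      obtain ⟨e, rfl⟩ := TR_tr p ha
      rw [tr_pow]
      apply Subtype.ext
      ext x : 1
      rw [tr_apply]
      simp
    have h2 : (sign.comp (AGL p).subtype a) ^ p = 1 := by rw [← map_pow, h1, map_one]
    rcases Int.units_eq_one_or (sign.comp (AGL p).subtype a) with h3 | h3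
    · exact h3
    · rw [h3, (hp.odd_of_ne_two hp2).neg_one_pow] at h2
      exact absurd h2 (by decide)
  tw := by
    left
    refine ⟨rfl, ?_⟩
    refine ⟨u - 1, fun x => ?_⟩
    show (tr p 1 : Perm (ZMod p))⁻¹ ((homo p u : Perm (ZMod p)) ((tr p 1 : Perm (ZMod p))
      ((homo p u : Perm (ZMod p))⁻¹ x))) = _
    apply (tr p 1 : Perm (ZMod p)).injective
    rw [apinv, tr_apply, homo_apply, tr_apply, mul_add]
    have h1 : (homo p u : Perm (ZMod p)) ((homo p u : Perm (ZMod p))⁻¹ x) = x :=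
      apinv _ x
    rw [homo_apply] at h1
    rw [h1]
    ring

end

/-- `p` odd, base `AGL(1,p)` with a homothety of prime order `q`. -/
theorem case_odd_aux {Ω : Type*} [Fintype Ω] [DecidableEq Ω] {σ : Perm Ω} {p b c d : ℕ}
    [NeZero p] (hp : p.Prime) (hp2 : p ≠ 2) (hL : ALaw σ (p ^ b) d) {w : Ω} (h1 : (σ ^ (p ^ (c + 1))) w = w)
    (h0 : (σ ^ (p ^ c)) w ≠ w) (hbc : 1 ≤ b + c) {q : ℕ} (hq : q.Prime) (hpq : p ≠ q)
    (u : (ZMod p)ˣ) (hu : u ^ q = 1) (hu1 : u ≠ 1)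
    (hχ : sign ((homo p u : AGL p) : Perm (ZMod p)) = 1 ∨ 1 ≤ c) : p ^ (b + (c + 1)) ∣ d := by
  obtain ⟨ι, hι1, hι2⟩ := orbit_embed hp σ w (c := c) h1 h0 (l := p ^ c) (β := p)
    (by rw [pow_succ]) (pow_pos hp.pos c)
  have hm : p ^ b * p ^ c = p ^ (b + c) := (pow_add p b c).symm
  have h3 := hL.block (baseAGL p hp hp2 u hu hu1) (Z := ZMod p) (AGL p).subtype
    (Subtype.val_injective) (fun _ => rfl) hm (pow_pos hp.pos c) ι hι1
    (fun r x hr => hι2 r x hr)
  haveI : Fact q.Prime := ⟨hq⟩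
  have hp3 : 3 ≤ p := by
    have := hp.two_le
    omega
  have h4 := (baseAGL p hp hp2 u hu hu1).main hp hpq (μ := b + c) (m := p ^ (b + c))
    (k := p ^ b) (l := p ^ c) (d := d) (by
      have : p ^ 1 ≤ p ^ (b + c) := Nat.pow_le_pow_right hp.pos hbc
      rw [pow_one] at this
      omega) (by ring) hm (by
        rcases hχ with h | h
        · exact Or.inl h
        · exact Or.inr ⟨Nat.one_lt_pow (by omega) hp.one_lt, rfl⟩) h3
  rw [show b + (c + 1) = b + c + 1 by ring]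
  exact h4

theorem case_three {Ω : Type*} [Fintype Ω] [DecidableEq Ω] {σ : Perm Ω} {b c d : ℕ}
    (hL : ALaw σ (3 ^ b) d) {w : Ω} (h1 : (σ ^ (3 ^ (c + 1))) w = w)
    (h0 : (σ ^ (3 ^ c)) w ≠ w) (hc : 1 ≤ c) : 3 ^ (b + (c + 1)) ∣ d := by
  refine case_odd_aux Nat.prime_three (by norm_num) hL h1 h0 (by omega) Nat.prime_two
    (by norm_num) (-1) (by norm_num) (by decide) (Or.inr hc)

theorem case_ge_five {Ω : Type*} [Fintype Ω] [DecidableEq Ω] {σ : Perm Ω} {p b c d : ℕ}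
    (hp : p.Prime) (h5 : 5 ≤ p) (hL : ALaw σ (p ^ b) d) {w : Ω}
    (h1 : (σ ^ (p ^ (c + 1))) w = w)
    (h0 : (σ ^ (p ^ c)) w ≠ w) (hbc : 1 ≤ b + c) : p ^ (b + (c + 1)) ∣ d := by
  haveI : Fact p.Prime := ⟨hp⟩
  have hodd : p % 2 = 1 := by
    rcases hp.eq_two_or_odd with h | h
    · omega
    · exact h
  obtain ⟨q, hq, hqd⟩ := Nat.exists_prime_and_dvd (n := (p - 1) / 2) (by omega)
  obtain ⟨e, he⟩ := hqd
  have hpe : p - 1 = 2 * (q * e) := by omega
  obtain ⟨g, hg⟩ := IsCyclic.exists_generator (α := (ZMod p)ˣ)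
  have hog : orderOf g = p - 1 := by
    rw [orderOf_eq_card_of_forall_mem_zpowers hg, Nat.card_eq_fintype_card,
      ZMod.card_units_eq_totient, Nat.totient_prime hp]
  have he0 : 0 < e := Nat.pos_of_ne_zero (by rintro rfl; omega)
  refine case_odd_aux hp (by omega) hL h1 h0 hbc hq ?_ (g ^ (2 * e)) ?_ ?_ (Or.inl ?_)
  · rintro rfl
    have : p * e ≥ p * 1 := Nat.mul_le_mul_left p he0
    omega
  · rw [← pow_mul, show 2 * e * q = 2 * (q * e) by ring, ← hpe, ← hog, pow_orderOf_eq_one]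
  · intro hcon
    have h6 := orderOf_dvd_of_pow_eq_one hcon
    rw [hog, hpe] at h6
    have h7 := Nat.le_of_dvd (by omega) h6
    have h8 : 2 * (q * e) = q * (2 * e) := by ring
    rw [h8] at h7
    have h9 : 2 * (2 * e) ≤ q * (2 * e) := Nat.mul_le_mul_right _ hq.two_le
    omega
  · have h10 : homo p (g ^ (2 * e)) = (homo p (g ^ e)) ^ 2 := by
      rw [homo_pow, ← pow_mul, mul_comm]
    rw [h10]
    push_cast
    rw [map_pow]
    exact Int.units_sq _

end Pool.Agent.H81.ENG
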