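import Pool.Agent.H81.ENG.Seq

/-!
The base theorem: a law for the shift on twisted periodic sequences forces `p^(μ+1) ∣ d`.
-/

set_option autoImplicit false
set_option linter.style.haveILetI false

namespace Pool.Agent.H81.ENG

theorem tw_zpow {Q : Type*} [Group Q] (y : Q) (b : ℤ → Q) (m : ℤ)
    (hb : ∀ i, b (i + m) = y⁻¹ * b i * y) (j i : ℤ) : b (i + m * j) = y ^ (-j) * b i * y ^ j := by
  induction j using Int.induction_on generalizing i with
  | zero => simp
  | succ j ih =>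
    have h1 : i + m * ((j : ℤ) + 1) = (i + m * j) + m := by ring
    rw [h1, hb, ih, neg_add, zpow_add, zpow_add, zpow_neg_one, zpow_one]
    have h2 : y⁻¹ * y ^ (-(j : ℤ)) = y ^ (-(j : ℤ)) * y⁻¹ := by
      rw [← zpow_neg_one, ← zpow_add, ← zpow_add, add_comm]
    calc y⁻¹ * (y ^ (-(j : ℤ)) * b i * y ^ (j : ℤ)) * y
        = (y⁻¹ * y ^ (-(j : ℤ))) * b i * (y ^ (j : ℤ) * y) := by group
      _ = (y ^ (-(j : ℤ)) * y⁻¹) * b i * (y ^ (j : ℤ) * y) := by rw [h2]
      _ = _ := by group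
  | pred j ih =>
    have h1 := hb (i + m * (-(j : ℤ) - 1))
    have h3 : i + m * (-(j : ℤ) - 1) + m = i + m * (-(j : ℤ)) := by ring
    rw [h3, ih] at h1
    have h4 : b (i + m * (-(j : ℤ) - 1)) = y * (y ^ (- -(j : ℤ)) * b i * y ^ (-(j : ℤ))) * y⁻¹ := by
      rw [h1]; group
    rw [h4]
    group

theorem coe_ef_restr {G : Type*} [Group G] (s : MulAut G) (H : Subgroup G)
    (h : ∀ x, x ∈ H ↔ s x ∈ H) (n : ℕ) (x : H) :
    (((ef (restr s H h))^[n] x : H) : G) = (ef s)^[n] x := by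
  induction n generalizing x with
  | zero => rfl
  | succ n ih => rw [Function.iterate_succ_apply, Function.iterate_succ_apply, ih]; rfl

theorem coe_ef_restr_inv {G : Type*} [Group G] (s : MulAut G) (H : Subgroup G)
    (h : ∀ x, x ∈ H ↔ s x ∈ H) (n : ℕ) (x : H) :
    (((ef (restr s H h)⁻¹)^[n] x : H) : G) = (ef s⁻¹)^[n] x := by
  induction n generalizing x with
  | zero => rfl
  | succ n ih => rw [Function.iterate_succ_apply, Function.iterate_succ_apply, ih]; rfl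

theorem rel_iter {P Q : Type*} [Group P] [Group Q] (θ : P →* Q) {x : Q} {q : ℕ} [NeZero q]
    (hx : x ^ q = 1) (n : ℕ) (η : ℤ → P) (b : ℤ → ZMod q) (h : ∀ i, θ (η i) = pw x (b i)) (i : ℤ) :
    θ (((ef (shift P))^[n] η) i) =
      pw x (((fun (b : ℤ → ZMod q) j => b (j + 1) - b j)^[n] b) i) := by
  induction n generalizing η b with
  | zero => exact h i
  | succ n ih =>
    rw [Function.iterate_succ_apply, Function.iterate_succ_apply]
    apply ih
    intro j
    show θ ((η j)⁻¹ * η (j + 1)) = pw x (b (j + 1) - b j)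
    rw [map_mul, map_inv, h, h, sub_eq_neg_add, pw_add hx, pw_neg hx]

theorem rel_iter_inv {P Q : Type*} [Group P] [Group Q] (θ : P →* Q) {x : Q} {q : ℕ} [NeZero q]
    (hx : x ^ q = 1) (n : ℕ) (η : ℤ → P) (b : ℤ → ZMod q) (h : ∀ i, θ (η i) = pw x (b i)) (i : ℤ) :
    θ (((ef (shift P)⁻¹)^[n] η) i) =
      pw x (((fun (b : ℤ → ZMod q) j => b (j - 1) - b j)^[n] b) i) := by
  induction n generalizing η b with
  | zero => exact h i
  | succ n ih =>
    rw [Function.iterate_succ_apply, Function.iterate_succ_apply]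
    apply ih
    intro j
    show θ ((η j)⁻¹ * η (j - 1)) = pw x (b (j - 1) - b j)
    rw [map_mul, map_inv, h, h, show b (j - 1) - b j = - b j + b (j - 1) by ring, pw_add hx,
      pw_neg hx]

/-- The subgroup of `N0`-valued sequences. -/
def Base.NN {P : Type*} [Group P] {p q h : ℕ} (D : Base P p q h) (m k l : ℕ) :
    Subgroup (D.TS m k l) where
  carrier := {η | ∀ i, (η : ℤ → P) i ∈ D.N0}
  one_mem' := fun _ => D.N0.one_mem
  mul_mem' := fun ha hb i => D.N0.mul_mem (ha i) (hb i)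
  inv_mem' := fun ha i => D.N0.inv_mem (ha i)

theorem Base.main {P : Type*} [Group P] {p q h : ℕ} (D : Base P p q h) (hp : p.Prime)
    [hq : Fact q.Prime] (hpq : p ≠ q) {μ : ℕ} (hμ : 2 < p ^ μ) {m k l : ℕ} (hm : h * m = p ^ μ)
    (hkl : k * l = m) (hχ : D.χ D.ρ = 1 ∨ (1 < l ∧ h = 1)) {d : ℕ}
    (hL : SL (D.sh m k l) d) : p ^ (μ + 1) ∣ d := by
  haveI : Fact p.Prime := ⟨hp⟩
  haveI := D.nN
  haveI : NeZero q := ⟨hq.out.ne_zero⟩
  obtain ⟨a, ha0, haM, ham, hasum, hcase⟩ := root_seq hp hpq hμ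
  have hm0 : m ≠ 0 := by rintro rfl; omega
  have hmz : (m : ℤ) ≠ 0 := by exact_mod_cast hm0
  let θ : P →* P ⧸ D.N0 := QuotientGroup.mk' D.N0
  have hθ1 : ∀ x, θ x = 1 ↔ x ∈ D.N0 := fun x => QuotientGroup.eq_one_iff x
  have hρq : (θ D.ρ) ^ q = 1 := by rw [← map_pow, D.ρq, map_one]
  -- the model sequence
  let ξ0 : ℤ → P := fun i => D.y ^ (-(i / m)) * pw D.ρ (a (i % m)) * D.y ^ (i / m)
  have hbtw : ∀ i : ℤ, pw (θ D.ρ) (a (i + m)) = (θ D.y)⁻¹ * pw (θ D.ρ) (a i) * θ D.y := by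
    intro i
    rcases D.tw with ⟨h1, htw⟩ | ⟨h2, htw⟩
    · have hmM : m = p ^ μ := by rw [← hm, h1, one_mul]
      rw [hmM, haM]
      have h3 := (hθ1 _).mpr htw
      rw [map_mul, map_mul, map_mul, map_inv, map_inv, mul_inv_eq_one] at h3
      have h4 : Commute (θ D.y) (θ D.ρ) := by
        rw [Commute, SemiconjBy]
        calc θ D.y * θ D.ρ = θ D.y * ((θ D.y)⁻¹ * θ D.ρ * θ D.y) := by rw [h3]
          _ = θ D.ρ * θ D.y := by group
      have h5 : Commute (θ D.y) (pw (θ D.ρ) (a i)) := h4.pow_right _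
      rw [mul_assoc, ← h5.eq]; group
    · have hmM : 2 * m = p ^ μ := by rw [← hm, h2]
      rw [ham m hmM, pw_neg hρq]
      have h3 := (hθ1 _).mpr htw
      rw [map_mul, map_mul, map_mul, map_inv] at h3
      have h4 : (θ D.y)⁻¹ * θ D.ρ * θ D.y = (θ D.ρ)⁻¹ := eq_inv_of_mul_eq_one_left h3
      unfold pw
      rw [← inv_pow, ← h4]
      have h5 := conj_pow (i := (a i).val) (a := (θ D.y)⁻¹) (b := θ D.ρ)
      rw [inv_inv] at h5
      exact h5
  have hθξ : ∀ i, θ (ξ0 i) = pw (θ D.ρ) (a i) := by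
    intro i
    have h1 := tw_zpow (θ D.y) (fun i => pw (θ D.ρ) (a i)) m hbtw (i / m) (i % m)
    rw [Int.emod_add_mul_ediv] at h1
    rw [h1]
    show θ (D.y ^ (-(i / m)) * pw D.ρ (a (i % m)) * D.y ^ (i / m)) = _
    rw [map_mul, map_mul, map_zpow, map_zpow, pw_map]
  have hξW : ∀ i, ξ0 i ∈ D.W := by
    intro i
    have h1 := D.nW.conj_mem (pw D.ρ (a (i % m))) (D.W.pow_mem D.ρW _) (D.y ^ (-(i / m)))
    rwa [← zpow_neg, neg_neg] at h1
  have hξtw : ∀ i, ξ0 (i + m) = D.y⁻¹ * ξ0 i * D.y := by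
    intro i
    show D.y ^ (-((i + m) / m)) * pw D.ρ (a ((i + m) % m)) * D.y ^ ((i + m) / m) = _
    rw [Int.add_emod_right, Int.add_ediv_of_dvd_right (dvd_refl _), Int.ediv_self hmz]
    show _ = D.y⁻¹ * (D.y ^ (-(i / m)) * pw D.ρ (a (i % m)) * D.y ^ (i / m)) * D.y
    rw [neg_add, zpow_add, zpow_add, zpow_neg_one, zpow_one]
    have h2 : D.y⁻¹ * D.y ^ (-(i / m)) = D.y ^ (-(i / m)) * D.y⁻¹ := by
      rw [← zpow_neg_one, ← zpow_add, ← zpow_add, add_comm]
    calc D.y ^ (-(i / (m : ℤ))) * D.y⁻¹ * pw D.ρ (a (i % m)) * (D.y ^ (i / (m : ℤ)) * D.y)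
        = (D.y⁻¹ * D.y ^ (-(i / (m : ℤ)))) * pw D.ρ (a (i % m)) * (D.y ^ (i / (m : ℤ)) * D.y) := by
          rw [h2]
      _ = _ := by group
  have hξχ : ∀ i, ∏ r ∈ Finset.range l, D.χ (ξ0 (i + k * r)) = 1 := by
    intro i
    have h1 : ∀ i, D.χ (ξ0 i) = pw (D.χ D.ρ) (a (i % m)) := by
      intro i
      show D.χ (D.y ^ (-(i / m)) * pw D.ρ (a (i % m)) * D.y ^ (i / m)) = _
      rw [map_mul, map_mul, map_zpow, map_zpow, pw_map, mul_comm, ← mul_assoc, ← zpow_add,
        add_neg_cancel, zpow_zero, one_mul]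
    rcases hχ with h2 | ⟨hl, hh⟩
    · apply Finset.prod_eq_one
      intro r _
      rw [h1, h2]
      unfold pw
      rw [one_pow]
    · have hmM : m = p ^ μ := by rw [← hm, hh, one_mul]
      have hper : ∀ i, a (i % m) = a i := by
        intro i
        have h3 : Function.Periodic a (m : ℤ) := by
          intro j
          rw [hmM]; exact haM j
        have h4 := h3.int_mul (i / m) (i % m)
        simp only [Int.cast_id] at h4
        rw [mul_comm, Int.emod_add_mul_ediv] at h4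
        exact h4.symm
      have h5 : ∀ r ∈ Finset.range l, D.χ (ξ0 (i + k * r)) = pw (D.χ D.ρ) (a (i + k * r)) := by
        intro r _
        rw [h1, hper]
      rw [Finset.prod_congr rfl h5, pw_sum (by rw [← map_pow, D.ρq, map_one]),
        hasum k l (by rw [hkl, hmM]) hl, pw_zero]
  let ξ : D.TS m k l := ⟨ξ0, hξW, hξtw, hξχ⟩
  -- the subgroup N
  let N := D.NN m k l
  haveI hNn : N.Normal := by
    constructor
    intro n hn g i
    exact D.nN.conj_mem _ (hn i) _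
  have hTS : ∀ x : D.TS m k l, ∀ i j : ℤ,
      (x : ℤ → P) (i + m * j) = D.y ^ (-j) * (x : ℤ → P) i * D.y ^ j := by
    intro x i j
    exact tw_zpow D.y _ m x.2.2.1 j i
  haveI hfin0 : Finite D.N0 := by
    apply Nat.finite_of_card_ne_zero
    rw [D.card]
    exact pow_ne_zero _ hp.ne_zero
  let J : N → (Fin m → D.N0) := fun η t => ⟨((η : D.TS m k l) : ℤ → P) (t : ℤ), η.2 _⟩
  have hJ : Function.Injective J := by
    intro η η' hηη
    apply Subtype.ext
    apply Subtype.ext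
    funext i
    have h1 := hTS η.1 (i % m) (i / m)
    have h2 := hTS η'.1 (i % m) (i / m)
    rw [Int.emod_add_mul_ediv] at h1 h2
    rw [h1, h2]
    have hlt : i % m < m := Int.emod_lt_of_pos _ (by positivity)
    have hge : 0 ≤ i % m := Int.emod_nonneg _ hmz
    have h3 := congrFun hηη ⟨(i % m).toNat, by omega⟩
    have h4 := congrArg Subtype.val h3
    have h5 : (((⟨(i % m).toNat, by omega⟩ : Fin m) : ℕ) : ℤ) = i % m := by
      simp [hge]
    simp only [J] at h4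
    rw [h5] at h4
    rw [h4]
  haveI : Finite N := Finite.of_injective J hJ
  have hcard : Nat.card N ≤ p ^ (p ^ μ) := by
    have h1 := Nat.card_le_card_of_injective J hJ
    rw [Nat.card_fun, Nat.card_eq_fintype_card (α := Fin m), Fintype.card_fin, D.card,
      ← pow_mul, hm] at h1
    exact h1
  have hcomm : ∀ x ∈ N, ∀ y ∈ N, x * y = y * x := by
    intro x hx y hy
    apply Subtype.ext
    funext i
    exact D.comm _ (hx i) _ (hy i)
  have hexp : ∀ x ∈ N, x ^ p = 1 := by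
    intro x hx
    apply Subtype.ext
    funext i
    exact D.exp _ (hx i)
  have hsN : ∀ x ∈ N, D.sh m k l x ∈ N := fun x hx i => hx (i + 1)
  have hsN' : ∀ x ∈ N, (D.sh m k l)⁻¹ x ∈ N := fun x hx i => hx (i - 1)
  -- the constant z
  let z : D.TS m k l := ⟨fun _ => D.y ^ h, fun _ => D.le D.zN, fun _ => by
    show D.y ^ h = D.y⁻¹ * D.y ^ h * D.y
    rw [mul_assoc, ← pow_succ, pow_succ']; group, fun i => by
    apply Finset.prod_eq_one
    intro r _
    exact D.χN _ D.zN⟩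
  have hzN : z ∈ N := fun _ => D.zN
  have hsz : D.sh m k l z = z := rfl
  have hM : ∀ x, ((D.sh m k l) ^ (p ^ μ)) x = z⁻¹ * x * z := by
    intro x
    apply Subtype.ext
    funext i
    have h1 := restr_pow_apply (shift P) (D.TS m k l) (D.TS_shift m k l) (p ^ μ) x
    have h2 := congrFun h1 i
    rw [shift_pow_apply] at h2
    refine h2.trans ?_
    have h3 := hTS x i h
    have h4 : ((p ^ μ : ℕ) : ℤ) = m * h := by rw [← hm]; push_cast; ring
    rw [h4, h3]
    show D.y ^ (-(h : ℤ)) * (x : ℤ → P) i * D.y ^ (h : ℤ) = (D.y ^ h)⁻¹ * (x : ℤ → P) i * D.y ^ h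
    rw [zpow_neg, zpow_natCast]
  have hpos : 0 < p ^ μ := by omega
  have hξ00 : ξ0 0 = D.ρ := by
    show D.y ^ (-((0 : ℤ) / m)) * pw D.ρ (a (0 % m)) * D.y ^ ((0 : ℤ) / m) = D.ρ
    rw [Int.zero_ediv, Int.zero_emod, ha0, pw_one D.ρ hq.out.one_lt]
    simp
  have hnc : z * ξ ≠ ξ * z := by
    intro hcon
    have h1 := congrArg Subtype.val hcon
    have h2 := congrFun h1 0
    apply D.nc
    have h3 : D.y ^ h * ξ0 0 = ξ0 0 * D.y ^ h := h2
    rwa [hξ00] at h3
  rcases hcase with ⟨r, hr, hrel⟩ | ⟨r, hr, hrel⟩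
  · refine unip (D.sh m k l) N hcomm hexp hcard hsN hsN' hzN hsz hM (ξ := ξ) hnc hr ?_ hL.1
    intro i
    rw [← hθ1]
    show θ ((((ef (D.sh m k l))^[r] ξ : D.TS m k l) : ℤ → P) i * (ξ0 (i + 1))⁻¹) = 1
    have h1 := coe_ef_restr (shift P) (D.TS m k l) (D.TS_shift m k l) r ξ
    have h2 := congrFun h1 i
    have h3 : (((ef (D.sh m k l))^[r] ξ : D.TS m k l) : ℤ → P) i = ((ef (shift P))^[r] ξ0) i := h2
    rw [h3, map_mul, map_inv, hθξ, rel_iter θ hρq r ξ0 a hθξ, hrel, mul_inv_cancel]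
  · have hzN' : z⁻¹ ∈ N := N.inv_mem hzN
    refine unip (D.sh m k l)⁻¹ N hcomm hexp hcard hsN' (by rw [inv_inv]; exact hsN) hzN' ?_ ?_
      (ξ := ξ) ?_ hr ?_ hL.2
    · apply Subtype.ext; rfl
    · intro x
      rw [inv_inv, inv_pow]
      apply (D.sh m k l ^ (p ^ μ)).injective
      rw [MulAut.apply_inv_self, hM]
      group
    · intro hcon
      apply hnc
      have h1 : Commute z⁻¹ ξ := hcon
      exact (Commute.inv_left_iff.mp h1).eq
    intro i
    rw [← hθ1]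
    show θ ((((ef (D.sh m k l)⁻¹)^[r] ξ : D.TS m k l) : ℤ → P) i * (ξ0 (i - 1))⁻¹) = 1
    have h1 := coe_ef_restr_inv (shift P) (D.TS m k l) (D.TS_shift m k l) r ξ
    have h2 := congrFun h1 i
    have h3 : (((ef (D.sh m k l)⁻¹)^[r] ξ : D.TS m k l) : ℤ → P) i =
      ((ef (shift P)⁻¹)^[r] ξ0) i := h2
    rw [h3, map_mul, map_inv, hθξ, rel_iter_inv θ hρq r ξ0 a hθξ, hrel, mul_inv_cancel]

end Pool.Agent.H81.ENG
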