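import Mathlib

/-!
Engel maps of automorphisms: `ef s x = x⁻¹ * s x`, the law `L s d`, and elementary facts.
-/

set_option autoImplicit false

namespace Pool.Agent.H81.ENG

variable {B : Type*} [Group B]

/-- The Engel map of an automorphism. -/
def ef (s : MulAut B) (x : B) : B := x⁻¹ * s x

/-- The law `f^r = f^(r+d)` for the Engel map of `s`. -/
def L (s : MulAut B) (d : ℕ) : Prop := ∃ r : ℕ, ∀ x : B, (ef s)^[r] x = (ef s)^[r + d] x

/-- The law for `s` and for its inverse. -/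
def SL (s : MulAut B) (d : ℕ) : Prop := L s d ∧ L s⁻¹ d

theorem SL.symm {s : MulAut B} {d : ℕ} (h : SL s d) : SL s⁻¹ d :=
  ⟨h.2, by rw [inv_inv]; exact h.1⟩

theorem L.ge {s : MulAut B} {d : ℕ} (h : L s d) :
    ∃ r : ℕ, ∀ n, r ≤ n → ∀ x : B, (ef s)^[n] x = (ef s)^[n + d] x := by
  obtain ⟨r, hr⟩ := h
  refine ⟨r, fun n hn x => ?_⟩
  obtain ⟨m, rfl⟩ := Nat.exists_eq_add_of_le hn
  have h1 := hr x
  have h2 := congrArg ((ef s)^[m]) h1
  rw [← Function.iterate_add_apply, ← Function.iterate_add_apply] at h2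
  rw [show r + m = m + r by ring, show m + r + d = m + (r + d) by ring]
  exact h2

theorem L.mul {s : MulAut B} {d : ℕ} (h : L s d) (e : ℕ) : L s (d * e) := by
  obtain ⟨r, hr⟩ := h.ge
  refine ⟨r, ?_⟩
  induction e with
  | zero => intro x; simp
  | succ e ih =>
    intro x
    rw [ih x, hr (r + d * e) (by omega) x]
    congr 1
    ring_nf

/-- On periodic points the `d`-th iterate is the identity. -/
theorem L.periodic {s : MulAut B} {d : ℕ} (h : L s d) {x : B} {j : ℕ} (hj : 0 < j)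
    (hx : (ef s)^[j] x = x) : (ef s)^[d] x = x := by
  obtain ⟨r, hr⟩ := h.ge
  have hp : ∀ n, (ef s)^[j * n] x = x := by
    intro n
    rw [Function.iterate_mul]
    exact Function.iterate_fixed hx n
  have h1 := hr (j * r) (Nat.le_mul_of_pos_left r hj) x
  rw [hp, Nat.add_comm, Function.iterate_add_apply, hp] at h1
  exact h1.symm

theorem ef_zpow (s : MulAut B) (i : ℤ) (x : B) : ef s ((s ^ i) x) = (s ^ i) (ef s x) := by
  unfold ef
  rw [map_mul, map_inv]
  congr 1
  rw [← MulAut.mul_apply, ← MulAut.mul_apply, ← zpow_one_add, ← zpow_add_one, add_comm]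

theorem ef_iter_zpow (s : MulAut B) (i : ℤ) (n : ℕ) (x : B) :
    (ef s)^[n] ((s ^ i) x) = (s ^ i) ((ef s)^[n] x) := by
  induction n generalizing x with
  | zero => rfl
  | succ n ih =>
    rw [Function.iterate_succ_apply, Function.iterate_succ_apply, ef_zpow, ih]

theorem ef_iter_mul (s : MulAut B) (i : ℤ) (j : ℕ) (x : B) (h : (ef s)^[j] x = (s ^ i) x)
    (n : ℕ) : (ef s)^[j * n] x = (s ^ (i * n)) x := by
  induction n with
  | zero => simp
  | succ n ih =>
    rw [Nat.mul_succ, Function.iterate_add_apply, h, ef_iter_zpow, ih, ← MulAut.mul_apply,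
      ← zpow_add]
    congr 2
    push_cast
    ring

/-- The exponents fixing `x` are closed under gcd. -/
theorem fix_gcd (s : MulAut B) (x : B) {a b : ℤ} (ha : (s ^ a) x = x) (hb : (s ^ b) x = x)
    {c : ℤ} (hc : (Int.gcd a b : ℤ) ∣ c) : (s ^ c) x = x := by
  have key : ∀ (u : ℤ), (s ^ u) x = x → ∀ k : ℤ, (s ^ (u * k)) x = x := by
    intro u hu k
    have h1 : s ^ u ∈ MulAction.stabilizer (MulAut B) x := hu
    have h2 := Subgroup.zpow_mem _ h1 k
    rw [← zpow_mul] at h2
    exact h2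
  obtain ⟨k, rfl⟩ := hc
  apply key
  rw [Int.gcd_eq_gcd_ab, zpow_add, MulAut.mul_apply, key b hb, key a ha]

/-- If `f^j x = s^i x` with `i` prime to `p` and `s` of `p`-power order at `x`, then `p^(a+1) ∤ d`
forces `s^(p^a)` to fix `x`. -/
theorem L.rel {s : MulAut B} {d : ℕ} (h : L s d) {p : ℕ} (hp : p.Prime) {x : B} {N : ℕ}
    (hN : (s ^ ((p : ℤ) ^ N)) x = x) {j : ℕ} (hj : 0 < j) {i : ℤ}
    (hx : (ef s)^[j] x = (s ^ i) x) (hi : ¬ (p : ℤ) ∣ i) {a : ℕ} (ha : ¬ p ^ (a + 1) ∣ d) :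
    (s ^ ((p : ℤ) ^ a)) x = x := by
  have h1 := ef_iter_mul s i j x hx
  have hper : (ef s)^[j * p ^ N] x = x := by
    rw [h1, mul_comm, show (((p ^ N : ℕ) : ℤ) * i) = (p : ℤ) ^ N * i by push_cast; ring]
    have := fix_gcd s x (a := (p : ℤ) ^ N) (b := (p : ℤ) ^ N) hN hN
      (c := (p : ℤ) ^ N * i) (by
        rw [Int.gcd_self]
        exact Dvd.dvd.mul_right (Int.natAbs_dvd.mpr dvd_rfl) _)
    exact this
  have hd := h.periodic (Nat.mul_pos hj (pow_pos hp.pos N)) hper
  have hd2 : (s ^ (i * d)) x = x := by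
    rw [← h1 d, mul_comm, Function.iterate_mul]
    exact Function.iterate_fixed hd j
  refine fix_gcd s x hd2 hN ?_
  -- gcd (i*d) (p^N) divides p^a
  have hcop : IsCoprime i ((p : ℤ) ^ N) := by
    apply IsCoprime.pow_right
    rw [isCoprime_comm]
    exact (Prime.coprime_iff_not_dvd (Nat.prime_iff_prime_int.mp hp)).mpr hi
  set g := Int.gcd (i * d) ((p : ℤ) ^ N) with hg
  have hg1 : (g : ℤ) ∣ (p : ℤ) ^ N := Int.gcd_dvd_right _ _
  have hg2 : (g : ℤ) ∣ (d : ℤ) := by
    have h3 : (g : ℤ) ∣ i * d := Int.gcd_dvd_left _ _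
    have h4 : IsCoprime (g : ℤ) i := (IsCoprime.of_isCoprime_of_dvd_right hcop hg1).symm
    exact h4.dvd_of_dvd_mul_left h3
  have hg3 : g ∣ p ^ N := by exact_mod_cast hg1
  have hg4 : g ∣ d := by exact_mod_cast hg2
  obtain ⟨e, he, hge⟩ := (Nat.dvd_prime_pow hp).mp hg3
  rw [hge] at hg4 ⊢
  have hea : e ≤ a := by
    by_contra hcon
    push Not at hcon
    exact ha (dvd_trans (pow_dvd_pow p hcon) hg4)
  push_cast
  exact pow_dvd_pow _ hea

/-- Transfer of laws along injective equivariant homomorphisms. -/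
theorem L.of_inj {B' : Type*} [Group B'] {s : MulAut B} {s' : MulAut B'} (T : B →* B')
    (hT : Function.Injective T) (hs : ∀ x, T (s x) = s' (T x)) {d : ℕ} (h : L s' d) : L s d := by
  obtain ⟨r, hr⟩ := h
  have key : ∀ n x, T ((ef s)^[n] x) = (ef s')^[n] (T x) := by
    intro n
    induction n with
    | zero => intro x; rfl
    | succ n ih =>
      intro x
      rw [Function.iterate_succ_apply, Function.iterate_succ_apply, ih]
      congr 1
      unfold ef
      rw [map_mul, map_inv, hs]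
  refine ⟨r, fun x => hT ?_⟩
  rw [key, key, hr]

theorem SL.of_inj {B' : Type*} [Group B'] {s : MulAut B} {s' : MulAut B'} (T : B →* B')
    (hT : Function.Injective T) (hs : ∀ x, T (s x) = s' (T x)) {d : ℕ} (h : SL s' d) : SL s d := by
  refine ⟨h.1.of_inj T hT hs, h.2.of_inj T hT ?_⟩
  intro x
  rw [← MulAut.inv_apply_self B' s' (T (s⁻¹ x)), ← hs, MulAut.apply_inv_self]

/-- Transfer of laws along surjective equivariant homomorphisms. -/
theorem L.of_surj {B' : Type*} [Group B'] {s : MulAut B} {s' : MulAut B'} (T : B →* B')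
    (hT : Function.Surjective T) (hs : ∀ x, T (s x) = s' (T x)) {d : ℕ} (h : L s d) : L s' d := by
  obtain ⟨r, hr⟩ := h
  have key : ∀ n x, T ((ef s)^[n] x) = (ef s')^[n] (T x) := by
    intro n
    induction n with
    | zero => intro x; rfl
    | succ n ih =>
      intro x
      rw [Function.iterate_succ_apply, Function.iterate_succ_apply, ih]
      congr 1
      unfold ef
      rw [map_mul, map_inv, hs]
  refine ⟨r, fun x => ?_⟩
  obtain ⟨y, rfl⟩ := hT x
  rw [← key, ← key, hr]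

end Pool.Agent.H81.ENG
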