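import Mathlib

/-!
# An involution which makes the `p`-cycle a product of orders `2` and `3`

`comb`: for a prime `p ≥ 5` there is an involution `a` of `ZMod p` with `(a ∘ (· + 1)) ^ 3 = 1`:
it swaps `2 j` and `p - 1 - j` for `3 j < p - 1` and fixes the other points.
-/

set_option autoImplicit false

namespace Pool.ENG81

/-- The involution on numbers. -/
def iA (k m : ℕ) : ℕ := if 2 * (k - 1) ≤ 3 * m then 2 * (k - 1 - m) else
  if m % 2 = 0 then k - 1 - m / 2 else m

/-- The successor modulo `k`. -/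
def iY (k m : ℕ) : ℕ := if m + 1 = k then 0 else m + 1

theorem iA_lt {k m : ℕ} (h : m < k) : iA k m < k := by
  unfold iA
  split_ifs <;> omega

theorem iY_lt {k m : ℕ} (h : m < k) : iY k m < k := by
  unfold iY
  split_ifs <;> omega

theorem iA_iA {k m : ℕ} (h : m < k) : iA k (iA k m) = m := by
  unfold iA
  split_ifs <;> omega

theorem iA_spec (k m : ℕ) : (2 * (k - 1) ≤ 3 * m ∧ iA k m = 2 * (k - 1 - m)) ∨
    (3 * m < 2 * (k - 1) ∧ m % 2 = 0 ∧ iA k m = k - 1 - m / 2) ∨
    (3 * m < 2 * (k - 1) ∧ m % 2 = 1 ∧ iA k m = m) := by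
  unfold iA
  split_ifs <;> omega

theorem iY_spec (k m : ℕ) : (m + 1 = k ∧ iY k m = 0) ∨ (m + 1 ≠ k ∧ iY k m = m + 1) := by
  unfold iY
  split_ifs <;> omega

theorem iAY {k m : ℕ} (h3 : k % 3 ≠ 0) (h : m < k) :
    iA k (iY k (iA k (iY k (iA k (iY k m))))) = m := by
  have s1 := iY_spec k m
  generalize iY k m = m1 at s1 ⊢
  have s2 := iA_spec k m1
  generalize iA k m1 = m2 at s2 ⊢
  have s3 := iY_spec k m2
  generalize iY k m2 = m3 at s3 ⊢
  have s4 := iA_spec k m3
  generalize iA k m3 = m4 at s4 ⊢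
  have s5 := iY_spec k m4
  generalize iY k m4 = m5 at s5 ⊢
  have s6 := iA_spec k m5
  generalize iA k m5 = m6 at s6 ⊢
  rcases s1 with s1 | s1 <;> rcases s2 with s2 | s2 | s2 <;> (try (exfalso; omega)) <;>
    rcases s3 with s3 | s3 <;> rcases s4 with s4 | s4 | s4 <;> (try (exfalso; omega)) <;>
    rcases s5 with s5 | s5 <;> rcases s6 with s6 | s6 | s6 <;> omega

theorem iY_eq {k m : ℕ} (h : m < k) : (m + 1) % k = iY k m := by
  unfold iY
  split_ifs with h1
  · rw [h1, Nat.mod_self]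
  · exact Nat.mod_eq_of_lt (by omega)

/-- **The combinatorial lemma.** -/
theorem comb (p : ℕ) (hp : p.Prime) (h5 : 5 ≤ p) : ∃ a : Equiv.Perm (ZMod p),
    a * a = 1 ∧ (a * Equiv.addRight (1 : ZMod p)) ^ 3 = 1 := by
  have : NeZero p := ⟨hp.ne_zero⟩
  have : Fact (1 < p) := ⟨hp.one_lt⟩
  have h3 : p % 3 ≠ 0 := by
    intro h
    have h1 : 3 ∣ p := Nat.dvd_of_mod_eq_zero h
    have h2 := (Nat.prime_dvd_prime_iff_eq Nat.prime_three hp).1 h1
    omega
  have hv : ∀ x : ZMod p, ((iA p x.val : ℕ) : ZMod p).val = iA p x.val := fun x =>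
    ZMod.val_cast_of_lt (iA_lt (ZMod.val_lt x))
  have hinv : ∀ x : ZMod p, ((iA p ((iA p x.val : ℕ) : ZMod p).val : ℕ) : ZMod p) = x := by
    intro x
    rw [hv, iA_iA (ZMod.val_lt x), ZMod.natCast_zmod_val]
  let a : Equiv.Perm (ZMod p) :=
    { toFun := fun x => ((iA p x.val : ℕ) : ZMod p)
      invFun := fun x => ((iA p x.val : ℕ) : ZMod p)
      left_inv := hinv
      right_inv := hinv }
  have ha : ∀ x, (a x).val = iA p x.val := hv
  have hy : ∀ x : ZMod p, ((a * Equiv.addRight (1 : ZMod p)) x).val = iA p (iY p x.val) := by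
    intro x
    rw [Equiv.Perm.mul_apply, ha, Equiv.coe_addRight, ZMod.val_add, ZMod.val_one,
      iY_eq (ZMod.val_lt x)]
  refine ⟨a, ?_, ?_⟩
  · refine Equiv.ext fun x => ?_
    exact hinv x
  · refine Equiv.ext fun x => ?_
    have e : ((a * Equiv.addRight (1 : ZMod p)) ^ 3) x =
        (a * Equiv.addRight (1 : ZMod p)) ((a * Equiv.addRight (1 : ZMod p))
          ((a * Equiv.addRight (1 : ZMod p)) x)) := by
      rw [pow_succ, pow_two]
      rfl
    rw [e, Equiv.Perm.one_apply]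
    apply ZMod.val_injective p
    rw [hy, hy, hy, iAY h3 (ZMod.val_lt x)]

end Pool.ENG81
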