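import Pool.Agent.H81.ENG.Prod
import Pool.Agent.H81.ENG.AltLaw
import Pool.Agent.H81.ENG.AutAlt

/-!
A simple component isomorphic to an alternating group of degree `≠ 6`.
-/

set_option autoImplicit false
set_option linter.style.haveILetI false

namespace Pool.Agent.H81.ENG

open Equiv Equiv.Perm

theorem cent_alt {Ω : Type*} [Fintype Ω] [DecidableEq Ω] (h4 : 4 ≤ Fintype.card Ω) (τ : Perm Ω)
    (h : ∀ x ∈ alternatingGroup Ω, τ * x = x * τ) : τ = 1 := by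
  by_contra hcon
  obtain ⟨a, ha⟩ : ∃ a, τ a ≠ a := by
    by_contra h1
    push Not at h1
    exact hcon (Equiv.ext h1)
  obtain ⟨c, hc⟩ := ex_notMem ({a, τ a} : Finset Ω)
    (lt_of_le_of_lt Finset.card_le_two (by omega))
  obtain ⟨e, he⟩ := ex_notMem ({a, τ a, c} : Finset Ω)
    (lt_of_le_of_lt Finset.card_le_three (by omega))
  simp only [Finset.mem_insert, Finset.mem_singleton, not_or] at hc he
  obtain ⟨hc1, hc2⟩ := hc
  obtain ⟨he1, he2, he3⟩ := he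
  have hx : swap (τ a) c * swap c e ∈ alternatingGroup Ω := by
    rw [mem_alternatingGroup, map_mul, sign_swap (Ne.symm hc2), sign_swap (Ne.symm he3)]
    rfl
  have h1 := congrArg (fun g : Perm Ω => g a) (h _ hx)
  simp only [Perm.mul_apply] at h1
  rw [swap_apply_of_ne_of_ne (Ne.symm hc1) (Ne.symm he1),
    swap_apply_of_ne_of_ne (Ne.symm ha) (Ne.symm hc1),
    swap_apply_of_ne_of_ne (Ne.symm hc2) (Ne.symm he2), swap_apply_left] at h1
  exact hc2 h1.symm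

theorem comp_case {G : Type*} [Group G]
    (hcomb : ∀ p : ℕ, p.Prime → 5 ≤ p →
      ∃ a : Perm (ZMod p), a * a = 1 ∧ (a * Equiv.addRight (1 : ZMod p)) ^ 3 = 1)
    (y : G) {p : ℕ} (hp : p.Prime) {N : ℕ} (hy : y ^ (p ^ N) = 1) (T : Subgroup G)
    (hTs : IsSimpleGroup T) (hTn : ¬ ∀ a ∈ T, ∀ b ∈ T, a * b = b * a)
    (hTg : ∀ g : G, (∀ t, t ∈ T ↔ g * t * g⁻¹ ∈ T) ∨
      (∀ t ∈ T, ∀ t' ∈ T, (g * t * g⁻¹) * t' = t' * (g * t * g⁻¹)))
    {n : ℕ} (h5 : 5 ≤ n)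
    (haut : ∀ φ : MulAut (alternatingGroup (Fin n)), φ ^ (p ^ N) = 1 → ∃ σ : Perm (Fin n),
      ∀ x : alternatingGroup (Fin n),
        ((φ x : alternatingGroup (Fin n)) : Perm (Fin n)) = σ * x * σ⁻¹)
    (Ψ : T ≃* alternatingGroup (Fin n)) {d : ℕ}
    (hL : SL (MulAut.conj y⁻¹) d) {v : ℕ} (hv : ¬ p ^ (v + 1) ∣ ed d) :
    ∀ t ∈ T, y ^ (p ^ v) * t = t * y ^ (p ^ v) := by
  classical
  set K := Subgroup.normalizer (T : Set G) with hK
  have hKmem : ∀ g, g ∈ K ↔ ∀ t, t ∈ T ↔ g * t * g⁻¹ ∈ T := fun g => Subgroup.mem_normalizer_iff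
  have hex : ∃ b, y ^ (p ^ b) ∈ K := ⟨N, by rw [hy]; exact K.one_mem⟩
  set b := Nat.find hex with hb
  have hbK : y ^ (p ^ b) ∈ K := Nat.find_spec hex
  set k := p ^ b with hk
  have hk0 : 0 < k := pow_pos hp.pos b
  have hnot : ∀ i, 0 < i → i < k → y ^ i ∉ K := by
    intro i hi hik hmem
    have hg : y ^ (Nat.gcd i (p ^ N)) ∈ K := by
      have h1 : (y ^ (Nat.gcd i (p ^ N)) : G) = (y ^ i) ^ (Nat.gcdA i (p ^ N)) *
          (y ^ (p ^ N)) ^ (Nat.gcdB i (p ^ N)) := by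
        rw [← zpow_natCast, Nat.gcd_eq_gcd_ab, zpow_add, zpow_mul, zpow_mul, zpow_natCast,
          zpow_natCast]
      rw [h1, hy, one_zpow, mul_one]
      exact K.zpow_mem hmem _
    obtain ⟨e, -, he⟩ := (Nat.dvd_prime_pow hp).mp (Nat.gcd_dvd_right i (p ^ N))
    rw [he] at hg
    have h2 : p ^ e ∣ i := he ▸ Nat.gcd_dvd_left i (p ^ N)
    have h3 : p ^ e < p ^ b := lt_of_le_of_lt (Nat.le_of_dvd hi h2) hik
    have h4 : e < b := (Nat.pow_lt_pow_iff_right hp.one_lt).mp h3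
    exact Nat.find_min hex h4 hg
  have hcomm1 : ∀ i j, i < j → j < k → ∀ s ∈ T, ∀ t ∈ T,
      Commute (y ^ i * s * (y ^ i)⁻¹) (y ^ j * t * (y ^ j)⁻¹) := by
    intro i j hij hj s hs t ht
    have h1 := hnot (j - i) (by omega) (by omega)
    rw [hKmem] at h1
    rcases hTg (y ^ (j - i)) with h2 | h2
    · exact absurd h2 h1
    · have h3 := h2 t ht s hs
      have h4 : y ^ j = y ^ i * y ^ (j - i) := by rw [← pow_add]; congr 1; omega
      rw [h4, Commute, SemiconjBy]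
      calc y ^ i * s * (y ^ i)⁻¹ * (y ^ i * y ^ (j - i) * t * (y ^ i * y ^ (j - i))⁻¹)
          = y ^ i * (s * (y ^ (j - i) * t * (y ^ (j - i))⁻¹)) * (y ^ i)⁻¹ := by group
        _ = y ^ i * ((y ^ (j - i) * t * (y ^ (j - i))⁻¹) * s) * (y ^ i)⁻¹ := by rw [h3]
        _ = _ := by group
  have hcommT : ∀ i < k, ∀ j < k, i ≠ j → ∀ s ∈ T, ∀ t ∈ T,
      Commute (y ^ i * s * (y ^ i)⁻¹) (y ^ j * t * (y ^ j)⁻¹) := by
    intro i hi j hj hij s hs t ht
    rcases lt_or_gt_of_ne hij with h | h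
    · exact hcomm1 i j h hj s hs t ht
    · exact (hcomm1 j i h hi t ht s hs).symm
  have hKpow : ∀ m, y ^ (k * m) ∈ K := by
    intro m
    rw [pow_mul]
    exact K.pow_mem hbK m
  have hnm : ∀ m, ∀ t ∈ T, (y ^ (k * m))⁻¹ * t * y ^ (k * m) ∈ T := by
    intro m t ht
    have h1 := K.inv_mem (hKpow m)
    rw [hKmem] at h1
    have h2 := (h1 t).mp ht
    rwa [inv_inv] at h2
  have hnorm : ∀ t ∈ T, (y ^ k)⁻¹ * t * y ^ k ∈ T := by
    intro t ht
    have := hnm 1 t ht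
    rwa [mul_one] at this
  have hcen : ∀ t ∈ T, (∀ s ∈ T, Commute s t) → t = 1 := by
    intro t ht hs
    have h1 : (⟨t, ht⟩ : T) ∈ Subgroup.center T := by
      rw [Subgroup.mem_center_iff]
      intro g
      exact Subtype.ext (hs g g.2).eq
    rcases hTs.eq_bot_or_eq_top_of_normal (Subgroup.center T) inferInstance with h2 | h2
    · rw [h2, Subgroup.mem_bot] at h1
      exact congrArg Subtype.val h1
    · exfalso
      apply hTn
      intro a ha b hb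
      have h3 : (⟨b, hb⟩ : T) ∈ Subgroup.center T := by rw [h2]; exact Subgroup.mem_top _
      rw [Subgroup.mem_center_iff] at h3
      exact congrArg Subtype.val (h3 ⟨a, ha⟩)
  -- the automorphism
  let α : MulAut T := restr (MulAut.conj (y ^ k)⁻¹) T (by
    intro t
    rw [MulAut.conj_apply]
    have h1 := K.inv_mem hbK
    rw [hKmem] at h1
    exact h1 t)
  have hα : ∀ t : T, ((α t : T) : G) = (y ^ k)⁻¹ * t * y ^ k := by
    intro t
    show MulAut.conj (y ^ k)⁻¹ (t : G) = _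
    rw [MulAut.conj_apply, inv_inv]
  have hαN : α ^ (p ^ N) = 1 := by
    ext t
    have h1 := restr_pow_apply (MulAut.conj (y ^ k)⁻¹) T (by
      intro t
      rw [MulAut.conj_apply]
      have h1 := K.inv_mem hbK
      rw [hKmem] at h1
      exact h1 t) (p ^ N) t
    have h2 : ((y ^ k)⁻¹) ^ (p ^ N) = 1 := by
      rw [inv_pow, ← pow_mul, mul_comm, pow_mul, hy, one_pow, inv_one]
    rw [← map_pow, h2, map_one] at h1
    exact h1
  obtain ⟨σ0, hσ0⟩ := haut (MulAut.congr Ψ α) (by rw [← map_pow, hαN, map_one])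
  set σ := σ0⁻¹ with hσdef
  have hΨ : ∀ t : T, ((Ψ ⟨(y ^ k)⁻¹ * t * y ^ k, hnorm t t.2⟩ : alternatingGroup (Fin n)) :
      Perm (Fin n)) = σ⁻¹ * (Ψ t : Perm (Fin n)) * σ := by
    intro t
    have h1 := hσ0 (Ψ t)
    have h0 : (MulAut.congr Ψ α) (Ψ t) = Ψ (α t) := by
      show Ψ (α (Ψ.symm (Ψ t))) = Ψ (α t)
      rw [MulEquiv.symm_apply_apply]
    rw [h0] at h1
    have h2 : α t = ⟨(y ^ k)⁻¹ * t * y ^ k, hnorm t t.2⟩ := Subtype.ext (hα t)
    rw [h2] at h1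
    rw [h1, hσdef, inv_inv]
  have hΨm : ∀ (m : ℕ) (t : T), ((Ψ ⟨(y ^ (k * m))⁻¹ * t * y ^ (k * m), hnm m t t.2⟩ :
      alternatingGroup (Fin n)) : Perm (Fin n)) = (σ ^ m)⁻¹ * (Ψ t : Perm (Fin n)) * σ ^ m := by
    intro m
    induction m with
    | zero =>
      intro t
      have : (⟨(y ^ (k * 0))⁻¹ * t * y ^ (k * 0), hnm 0 t t.2⟩ : T) = t := by
        apply Subtype.ext; simp
      rw [this]; simp
    | succ m ih =>
      intro t
      have h1 : (⟨(y ^ (k * (m + 1)))⁻¹ * t * y ^ (k * (m + 1)), hnm (m + 1) t t.2⟩ : T) =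
          ⟨(y ^ k)⁻¹ * ((⟨(y ^ (k * m))⁻¹ * t * y ^ (k * m), hnm m t t.2⟩ : T) : G) * y ^ k,
            hnorm _ (hnm m t t.2)⟩ := by
        apply Subtype.ext
        show (y ^ (k * (m + 1)))⁻¹ * (t : G) * y ^ (k * (m + 1)) =
          (y ^ k)⁻¹ * ((y ^ (k * m))⁻¹ * (t : G) * y ^ (k * m)) * y ^ k
        rw [Nat.mul_succ, pow_add]
        group
      rw [h1, hΨ, ih, pow_succ]
      group
  have hcardn : Fintype.card (Fin n) = n := Fintype.card_fin n
  have htriv : ∀ m, y ^ (k * m) = 1 → σ ^ m = 1 := by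
    intro m hm
    apply cent_alt (by rw [hcardn]; omega)
    intro x hx
    obtain ⟨t, ht⟩ := Ψ.surjective ⟨x, hx⟩
    have h1 := hΨm m t
    have h2 : (⟨(y ^ (k * m))⁻¹ * t * y ^ (k * m), hnm m t t.2⟩ : T) = t := by
      apply Subtype.ext
      show (y ^ (k * m))⁻¹ * (t : G) * y ^ (k * m) = t
      rw [hm]; simp
    rw [h2, ht] at h1
    have h3 : x = (σ ^ m)⁻¹ * x * σ ^ m := h1
    calc σ ^ m * x = σ ^ m * ((σ ^ m)⁻¹ * x * σ ^ m) := by rw [← h3]
      _ = x * σ ^ m := by group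
  have hexc : ∃ c, σ ^ (p ^ c) = 1 := ⟨N, htriv _ (by rw [mul_comm, pow_mul, hy, one_pow])⟩
  set c := Nat.find hexc with hc
  have hc1 : σ ^ (p ^ c) = 1 := Nat.find_spec hexc
  have hc0 : c = 0 ∨ σ ^ (p ^ (c - 1)) ≠ 1 := by
    rcases Nat.eq_zero_or_pos c with h | h
    · exact Or.inl h
    · exact Or.inr (Nat.find_min hexc (by omega))
  have hA : ALaw σ k d := prod_law y T hk0 hcommT hnorm hcen Ψ σ hΨ hL
  have hdvd := alt_law (Ω := Fin n) (by rw [hcardn]; exact h5) hcomb hp hA hc1 hc0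
  have hbc : b + c ≤ v := by
    by_contra hcon
    push Not at hcon
    exact hv (dvd_trans (pow_dvd_pow p (by omega)) hdvd)
  have hyv : y ^ (p ^ v) = y ^ (k * p ^ (v - b)) := by
    rw [hk, ← pow_add]
    congr 2
    omega
  have hσv : σ ^ (p ^ (v - b)) = 1 := by
    obtain ⟨e, he⟩ := Nat.exists_eq_add_of_le (show c ≤ v - b by omega)
    rw [he, pow_add, pow_mul, hc1, one_pow]
  intro t ht
  have h1 := hΨm (p ^ (v - b)) ⟨t, ht⟩
  rw [hσv, inv_one, one_mul, mul_one] at h1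
  have h2 := Ψ.injective (Subtype.ext h1)
  have h3 : (y ^ (k * p ^ (v - b)))⁻¹ * t * y ^ (k * p ^ (v - b)) = t := congrArg Subtype.val h2
  rw [hyv]
  calc y ^ (k * p ^ (v - b)) * t = y ^ (k * p ^ (v - b)) *
        ((y ^ (k * p ^ (v - b)))⁻¹ * t * y ^ (k * p ^ (v - b))) := by rw [h3]
    _ = t * y ^ (k * p ^ (v - b)) := by group

end Pool.Agent.H81.ENG
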