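import Pool.Agent.H81.ENG.GHSeq

/-!
Coprime action: an automorphism of `p`-power order of a `p'`-group.
-/

set_option autoImplicit false
set_option linter.style.haveILetI false

namespace Pool.Agent.H81.ENG

open scoped Pointwise

theorem no_tor {Q : Type*} [Group Q] [Finite Q] {p : ℕ} (hp : p.Prime) (hc : ¬ p ∣ Nat.card Q)
    (x : Q) (hx : x ^ p = 1) : x = 1 := by
  have h1 := orderOf_dvd_of_pow_eq_one hx
  rcases (Nat.dvd_prime hp).mp h1 with h2 | h2
  · exact orderOf_eq_one_iff.mp h2
  · exact absurd (h2 ▸ orderOf_dvd_natCard x) hc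

theorem no_tor_pow {Q : Type*} [Group Q] [Finite Q] {p : ℕ} (hp : p.Prime)
    (hc : ¬ p ∣ Nat.card Q) (N : ℕ) (x : Q) (hx : x ^ (p ^ N) = 1) : x = 1 := by
  induction N with
  | zero => simpa using hx
  | succ N ih =>
    apply ih
    apply no_tor hp hc
    rw [← pow_mul, ← pow_succ, hx]

theorem solv_fix : ∀ (n : ℕ) {Q : Type} [Group Q] [Finite Q] [Group.IsSolvable Q] (s : MulAut Q)
    {p : ℕ} (_ : p.Prime) (_ : ¬ p ∣ Nat.card Q) {N : ℕ} (_ : s ^ (p ^ N) = 1) {d : ℕ}
    (_ : SL s d) {v : ℕ} (_ : ¬ p ^ (v + 1) ∣ ed d), Nat.card Q = n → s ^ (p ^ v) = 1 := by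
  intro n
  induction n using Nat.strong_induction_on with
  | _ n ih =>
  intro Q _ _ _ s p hp hc N hN d hL v hv hcard
  have hinv : ∀ x, x ∈ commutator Q ↔ s x ∈ commutator Q := by
    intro x
    have h1 : (commutator Q).map s.toMonoidHom = commutator Q :=
      (Subgroup.characteristic_iff_map_eq.mp inferInstance) s
    constructor
    · intro hx
      rw [← h1]
      exact Subgroup.mem_map_of_mem _ hx
    · intro hx
      rw [← h1] at hx
      obtain ⟨y, hy, hyx⟩ := hx
      have h2 : y = x := s.injective hyx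
      rwa [← h2]
  by_cases hab : ∀ a b : Q, a * b = b * a
  · by_contra hne
    exact hv (gh_grp hab s hp (no_tor hp hc) hN hL hne)
  · -- the quotient by the commutator
    let sq : MulAut (Q ⧸ commutator Q) := QuotientGroup.congr (commutator Q) (commutator Q) s
      ((Subgroup.characteristic_iff_map_eq.mp inferInstance) s)
    have hsq : ∀ x : Q, sq (x : Q ⧸ commutator Q) = ((s x : Q) : Q ⧸ commutator Q) := fun x => rfl
    have hsqpow : ∀ (k : ℕ) (x : Q), (sq ^ k) (x : Q ⧸ commutator Q) =
        (((s ^ k) x : Q) : Q ⧸ commutator Q) := by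
      intro k
      induction k with
      | zero => intro x; rfl
      | succ k ih => intro x; rw [pow_succ, pow_succ, MulAut.mul_apply, MulAut.mul_apply, hsq, ih]
    have hLq : SL sq d := by
      refine ⟨hL.1.of_surj (QuotientGroup.mk' _) (QuotientGroup.mk'_surjective _) (fun x => rfl),
        hL.2.of_surj (QuotientGroup.mk' _) (QuotientGroup.mk'_surjective _) (fun x => ?_)⟩
      apply sq.injective
      rw [MulAut.apply_inv_self]
      show sq (((s⁻¹ x : Q) : Q ⧸ commutator Q)) = _
      rw [hsq, MulAut.apply_inv_self]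
      rfl
    have hcq : ¬ p ∣ Nat.card (Q ⧸ commutator Q) := by
      intro h
      exact hc (dvd_trans h (Subgroup.card_quotient_dvd_card _))
    have hcomq : ∀ a b : Q ⧸ commutator Q, a * b = b * a := by
      intro a b
      exact mul_comm (G := Abelianization Q) a b
    have hNq : sq ^ (p ^ N) = 1 := by
      ext x
      obtain ⟨x, rfl⟩ := QuotientGroup.mk_surjective x
      rw [hsqpow, hN]
      rfl
    have h1 : sq ^ (p ^ v) = 1 := by
      by_contra hne
      exact hv (gh_grp hcomq sq hp (no_tor hp hcq) hNq hLq hne)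
    -- the commutator subgroup
    let sc : MulAut (commutator Q) := restr s (commutator Q) hinv
    have hscpow : ∀ (k : ℕ) (x : commutator Q), (((sc ^ k) x : commutator Q) : Q) = (s ^ k) x :=
      fun k x => restr_pow_apply s (commutator Q) hinv k x
    have hLc : SL sc d := hL.of_inj (commutator Q).subtype Subtype.val_injective (fun x => rfl)
    have hNc : sc ^ (p ^ N) = 1 := by
      ext x
      rw [hscpow, hN]
      rfl
    have hcc : ¬ p ∣ Nat.card (commutator Q) := fun h =>
      hc (dvd_trans h (Subgroup.card_subgroup_dvd_card _))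
    have hlt : Nat.card (commutator Q) < n := by
      have hne : commutator Q ≠ ⊤ := by
        intro htop
        apply hab
        haveI : Nontrivial Q := by
          by_contra hsub
          rw [not_nontrivial_iff_subsingleton] at hsub
          exact hab (fun a b => Subsingleton.elim _ _)
        exact absurd htop (Group.IsSolvable.commutator_lt_top_of_nontrivial Q).ne
      rw [← hcard]
      have h3 : Nat.card (commutator Q) ≠ Nat.card Q := fun h =>
        hne (Subgroup.eq_top_of_card_eq _ h)
      exact lt_of_le_of_ne (Nat.le_of_dvd Nat.card_pos (Subgroup.card_subgroup_dvd_card _)) h3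
    have h2 : sc ^ (p ^ v) = 1 := ih _ hlt sc hp hcc hNc hLc hv rfl
    -- conclusion
    ext x
    rw [MulAut.one_apply]
    set τ := s ^ (p ^ v) with hτ
    have h4 : x⁻¹ * τ x ∈ commutator Q := by
      have h5 := hsqpow (p ^ v) x
      rw [h1] at h5
      have h6 : (x : Q ⧸ commutator Q) = ((τ x : Q) : Q ⧸ commutator Q) := h5
      exact QuotientGroup.eq.mp h6
    set c := x⁻¹ * τ x with hcdef
    have h7 : τ c = c := by
      have h8 := hscpow (p ^ v) ⟨c, h4⟩
      rw [h2] at h8
      exact h8.symm
    have h9 : τ x = x * c := by rw [hcdef]; group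
    have h10 : ∀ k : ℕ, (τ ^ k) x = x * c ^ k := by
      intro k
      induction k with
      | zero => simp
      | succ k ihk =>
        rw [pow_succ', MulAut.mul_apply, ihk, map_mul, map_pow, h7, h9, pow_succ', mul_assoc]
    have h11 : c ^ (p ^ N) = 1 := by
      have h12 := h10 (p ^ N)
      have h13 : τ ^ (p ^ N) = 1 := by rw [hτ, ← pow_mul, mul_comm, pow_mul, hN, one_pow]
      rw [h13, MulAut.one_apply] at h12
      exact mul_eq_left.mp h12.symm
    have h14 := no_tor_pow hp hc N c h11
    rw [h9, h14, mul_one]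

theorem coprime_fix {M : Type} [Group M] [Finite M] (s : MulAut M) {p : ℕ} (hp : p.Prime)
    (hc : ¬ p ∣ Nat.card M) {N : ℕ} (hN : s ^ (p ^ N) = 1) {d : ℕ} (hL : SL s d) {v : ℕ}
    (hv : ¬ p ^ (v + 1) ∣ ed d) : s ^ (p ^ v) = 1 := by
  haveI : Fact p.Prime := ⟨hp⟩
  -- the fixed subgroup
  let F : Subgroup M :=
    { carrier := {x | (s ^ (p ^ v)) x = x}
      one_mem' := map_one _
      mul_mem' := by
        intro a b ha hb
        show (s ^ (p ^ v)) (a * b) = a * b
        rw [map_mul, show (s ^ (p ^ v)) a = a from ha, show (s ^ (p ^ v)) b = b from hb]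
      inv_mem' := by
        intro a ha
        show (s ^ (p ^ v)) a⁻¹ = a⁻¹
        rw [map_inv, show (s ^ (p ^ v)) a = a from ha] }
  have key : ∀ q : ℕ, q.Prime → ∃ Q : Sylow q M, (Q : Subgroup M) ≤ F := by
    intro q hq
    haveI : Fact q.Prime := ⟨hq⟩
    have hpg : IsPGroup p (Subgroup.zpowers s) := by
      rw [IsPGroup.iff_card, Nat.card_zpowers]
      obtain ⟨e, -, he⟩ := (Nat.dvd_prime_pow hp).mp (orderOf_dvd_of_pow_eq_one hN)
      exact ⟨e, he⟩
    have hns : ¬ p ∣ Nat.card (Sylow q M) := by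
      intro h
      let Q0 : Sylow q M := Classical.arbitrary _
      exact hc (dvd_trans h (dvd_trans (Sylow.card_dvd_index Q0) (Subgroup.index_dvd_card _)))
    obtain ⟨Q, hQ⟩ := hpg.nonempty_fixed_point_of_prime_not_dvd_card (Sylow q M) hns
    have hsQ : s • Q = Q := hQ ⟨s, Subgroup.mem_zpowers s⟩
    have hinv : ∀ x, x ∈ (Q : Subgroup M) ↔ s x ∈ (Q : Subgroup M) := by
      intro x
      have h1 : s • x ∈ s • (Q : Subgroup M) ↔ x ∈ (Q : Subgroup M) :=
        Subgroup.smul_mem_pointwise_smul_iff
      have h2 : s • (Q : Subgroup M) = (Q : Subgroup M) := by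
        have := congrArg (fun P : Sylow q M => (P : Subgroup M)) hsQ
        exact this
      rw [h2] at h1
      exact h1.symm
    refine ⟨Q, ?_⟩
    let sQ : MulAut (Q : Subgroup M) := restr s (Q : Subgroup M) hinv
    have hpow : ∀ (k : ℕ) (x : (Q : Subgroup M)), (((sQ ^ k) x : (Q : Subgroup M)) : M) =
        (s ^ k) x := fun k x => restr_pow_apply s _ hinv k x
    have hLQ : SL sQ d := hL.of_inj (Q : Subgroup M).subtype Subtype.val_injective (fun x => rfl)
    haveI : Group.IsNilpotent (Q : Subgroup M) := Q.isPGroup'.isNilpotent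
    haveI : Group.IsSolvable (Q : Subgroup M) := inferInstance
    have h3 := solv_fix (Nat.card (Q : Subgroup M)) sQ hp
      (fun h => hc (dvd_trans h (Subgroup.card_subgroup_dvd_card _)))
      (N := N) (by ext x; rw [hpow, hN]; rfl) hLQ hv rfl
    intro x hx
    have h4 := hpow (p ^ v) ⟨x, hx⟩
    rw [h3] at h4
    exact h4.symm
  have htop : F = ⊤ := by
    apply Subgroup.eq_top_of_card_eq
    apply Nat.dvd_antisymm (Subgroup.card_subgroup_dvd_card _)
    rw [Nat.dvd_iff_prime_pow_dvd_dvd]
    intro q k hq hk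
    haveI : Fact q.Prime := ⟨hq⟩
    obtain ⟨Q, hQ⟩ := key q hq
    exact dvd_trans (Sylow.pow_dvd_card_of_pow_dvd_card Q hk) (Subgroup.card_dvd_of_le hQ)
  ext x
  have : x ∈ F := by rw [htop]; exact Subgroup.mem_top x
  exact this

end Pool.Agent.H81.ENG
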