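import Pool.Agent.H81.ENG.BaseThm

/-!
Twisted sequences of even permutations, transfers, block embeddings.
-/

set_option autoImplicit false
set_option linter.style.haveILetI false

namespace Pool.Agent.H81.ENG

open Equiv Equiv.Perm

variable {Ω : Type*} [Fintype Ω] [DecidableEq Ω]

/-- Sequences of even permutations with `ξ (i + k) = σ⁻¹ ξ i σ`. -/
def ASeq (σ : Perm Ω) (k : ℕ) : Subgroup (ℤ → Perm Ω) where
  carrier := {ξ | (∀ i, sign (ξ i) = 1) ∧ ∀ i, ξ (i + k) = σ⁻¹ * ξ i * σ}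
  one_mem' := ⟨fun i => by simp, fun i => by simp⟩
  mul_mem' := by
    rintro a b ⟨ha1, ha2⟩ ⟨hb1, hb2⟩
    refine ⟨fun i => ?_, fun i => ?_⟩
    · rw [Pi.mul_apply, map_mul, ha1, hb1, one_mul]
    · rw [Pi.mul_apply, Pi.mul_apply, ha2, hb2]; group
  inv_mem' := by
    rintro a ⟨ha1, ha2⟩
    refine ⟨fun i => ?_, fun i => ?_⟩
    · rw [Pi.inv_apply, map_inv, ha1, inv_one]
    · rw [Pi.inv_apply, Pi.inv_apply, ha2]; group

theorem mem_ASeq {σ : Perm Ω} {k : ℕ} {ξ : ℤ → Perm Ω} :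
    ξ ∈ ASeq σ k ↔ (∀ i, sign (ξ i) = 1) ∧ ∀ i, ξ (i + k) = σ⁻¹ * ξ i * σ := Iff.rfl

theorem ASeq_shift (σ : Perm Ω) (k : ℕ) (ξ : ℤ → Perm Ω) :
    ξ ∈ ASeq σ k ↔ shift (Perm Ω) ξ ∈ ASeq σ k := by
  rw [mem_ASeq, mem_ASeq]
  constructor
  · rintro ⟨h1, h2⟩
    refine ⟨fun i => h1 _, fun i => ?_⟩
    rw [shift_apply, shift_apply, ← h2]; congr 1; ring
  · rintro ⟨h1, h2⟩
    refine ⟨fun i => ?_, fun i => ?_⟩
    · have := h1 (i - 1)
      rwa [shift_apply, sub_add_cancel] at this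
    · have := h2 (i - 1)
      rw [shift_apply, shift_apply, sub_add_cancel] at this
      rw [← this]; congr 1; ring

/-- The shift on twisted sequences of even permutations. -/
def ash (σ : Perm Ω) (k : ℕ) : MulAut (ASeq σ k) :=
  restr (shift (Perm Ω)) (ASeq σ k) (ASeq_shift σ k)

/-- The law. -/
def ALaw (σ : Perm Ω) (k d : ℕ) : Prop := SL (ash σ k) d

theorem ALaw.pull {σ : Perm Ω} {k d : ℕ} (h : ALaw σ k d) {B : Type*} [Group B] (s : MulAut B)
    (F : B →* (ℤ → Perm Ω)) (hF : Function.Injective F) (hmem : ∀ x, F x ∈ ASeq σ k)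
    (hs : ∀ x i, F (s x) i = F x (i + 1)) : SL s d := by
  refine SL.of_inj (s' := ash σ k) (F.codRestrict (ASeq σ k) hmem) ?_ ?_ h
  · intro x y hxy
    exact hF (congrArg Subtype.val hxy)
  · intro x
    apply Subtype.ext
    funext i
    exact hs x i

section Via

variable {Ω' : Type*} [Fintype Ω'] [DecidableEq Ω']

theorem sign_via (ι : Ω' ↪ Ω) (x : Perm Ω') : sign (viaEmbeddingHom ι x) = sign x := by
  classical
  rw [viaEmbeddingHom_apply]
  unfold viaEmbedding
  rw [sign_extendDomain]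

theorem via_conj (ι : Ω' ↪ Ω) (σ : Perm Ω) (g : Ω' → Ω') (hg : Function.Surjective g)
    (hσ : ∀ w, σ (ι w) = ι (g w)) (x x' : Perm Ω') (hx : ∀ w, g (x' w) = x (g w)) :
    σ * viaEmbeddingHom ι x' = viaEmbeddingHom ι x * σ := by
  ext v
  rw [Perm.mul_apply, Perm.mul_apply, viaEmbeddingHom_apply, viaEmbeddingHom_apply]
  by_cases hv : v ∈ Set.range ι
  · obtain ⟨w, rfl⟩ := hv
    rw [viaEmbedding_apply, hσ, hσ, viaEmbedding_apply, hx]
  · rw [viaEmbedding_apply_of_notMem _ _ _ hv, viaEmbedding_apply_of_notMem]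
    rintro ⟨w, hw⟩
    obtain ⟨w', rfl⟩ := hg w
    rw [← hσ] at hw
    exact hv ⟨w', σ.injective hw⟩

theorem ALaw.restrict {σ : Perm Ω} {k d : ℕ} (h : ALaw σ k d) (ι : Ω' ↪ Ω) (σ' : Perm Ω')
    (hσ : ∀ w, σ (ι w) = ι (σ' w)) : ALaw σ' k d := by
  let F : (ASeq σ' k) →* (ℤ → Perm Ω) :=
    { toFun := fun ξ i => viaEmbeddingHom ι ((ξ : ℤ → Perm Ω') i)
      map_one' := by funext i; exact map_one _
      map_mul' := by intro x y; funext i; exact map_mul _ _ _ }
  refine h.pull (ash σ' k) F ?_ ?_ ?_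
  · intro x y hxy
    apply Subtype.ext
    funext i
    exact viaEmbeddingHom_injective ι (congrFun hxy i)
  · rintro ⟨ξ, h1, h2⟩
    refine ⟨fun i => ?_, fun i => ?_⟩
    · show sign (viaEmbeddingHom ι (ξ i)) = 1
      rw [sign_via, h1]
    · show viaEmbeddingHom ι (ξ (i + k)) = σ⁻¹ * viaEmbeddingHom ι (ξ i) * σ
      rw [mul_assoc, eq_inv_mul_iff_mul_eq]
      apply via_conj ι σ σ' σ'.surjective hσ
      intro w
      rw [h2]
      simp [Perm.mul_apply]
  · intro x i
    rfl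

end Via

theorem ALaw.block {σ : Perm Ω} {k d : ℕ} (h : ALaw σ k d) {P : Type*} [Group P] {p q h' : ℕ}
    (D : Base P p q h') {Z : Type*} [Fintype Z] [DecidableEq Z] (ψ : P →* Perm Z)
    (hψ : Function.Injective ψ) (hχ : ∀ x, sign (ψ x) = D.χ x) {m l : ℕ} (hkl : k * l = m)
    (hl : 0 < l) (ι : Fin l × Z ↪ Ω)
    (h1 : ∀ (r : Fin l) (x : Z) (hr : (r : ℕ) + 1 < l), σ (ι (r, x)) = ι (⟨r + 1, hr⟩, x))
    (h2 : ∀ (r : Fin l) (x : Z), (r : ℕ) + 1 = l → σ (ι (r, x)) = ι (⟨0, hl⟩, ψ D.y x)) :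
    SL (D.sh m k l) d := by
  let G : (ℤ → P) → ℤ → Perm (Fin l × Z) := fun η i =>
    prodCongrRight (fun r : Fin l => ψ (η (i + k * (r : ℕ))))
  let F : (D.TS m k l) →* (ℤ → Perm Ω) :=
    { toFun := fun η i => viaEmbeddingHom ι (G η i)
      map_one' := by
        funext i
        have : G (1 : ℤ → P) i = 1 := by
          ext w
          · rfl
          · simp [G]
        show viaEmbeddingHom ι (G (1 : ℤ → P) i) = 1
        rw [this, map_one]
      map_mul' := by
        intro x y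
        funext i
        have : G ((x : ℤ → P) * (y : ℤ → P)) i = G x i * G y i := by
          ext w
          · rfl
          · simp [G]
        show viaEmbeddingHom ι (G ((x : ℤ → P) * (y : ℤ → P)) i) = _
        rw [this, map_mul]
        rfl }
  let g : Fin l × Z → Fin l × Z := fun w =>
    if hr : (w.1 : ℕ) + 1 < l then (⟨w.1 + 1, hr⟩, w.2) else (⟨0, hl⟩, ψ D.y w.2)
  have hg : Function.Surjective g := by
    rintro ⟨r, x⟩
    by_cases hr : (r : ℕ) = 0
    · refine ⟨(⟨l - 1, by omega⟩, (ψ D.y)⁻¹ x), ?_⟩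
      simp only [g]
      rw [dif_neg (show ¬ (l - 1 + 1 < l) by omega)]
      apply Prod.ext
      · apply Fin.ext; simp [hr]
      · simp
    · have hr2 := r.2
      refine ⟨(⟨r - 1, by omega⟩, x), ?_⟩
      simp only [g]
      rw [dif_pos (show (r : ℕ) - 1 + 1 < l by omega)]
      apply Prod.ext
      · apply Fin.ext
        show (r : ℕ) - 1 + 1 = r
        omega
      · rfl
  have hσg : ∀ w, σ (ι w) = ι (g w) := by
    rintro ⟨r, x⟩
    by_cases hr : (r : ℕ) + 1 < l
    · rw [h1 r x hr]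
      simp only [g]
      rw [dif_pos hr]
    · rw [h2 r x (by have := r.2; omega)]
      simp only [g]
      rw [dif_neg hr]
  refine h.pull (D.sh m k l) F ?_ ?_ ?_
  · intro x y hxy
    apply Subtype.ext
    funext i
    have h3 := viaEmbeddingHom_injective ι (congrFun hxy i)
    apply hψ
    ext z
    have h4 := congrArg (fun e : Perm (Fin l × Z) => (e (⟨0, hl⟩, z)).2) h3
    simpa [G] using h4
  · rintro ⟨η, hW, htw, hχη⟩
    refine ⟨fun i => ?_, fun i => ?_⟩
    · show sign (viaEmbeddingHom ι (G η i)) = 1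
      rw [sign_via]
      simp only [G]
      rw [sign_prodCongrRight]
      have h5 : ∀ r : Fin l, sign (ψ (η (i + k * ((r : ℕ) : ℤ)))) = D.χ (η (i + k * ((r : ℕ) : ℤ))) :=
        fun r => hχ _
      rw [Finset.prod_congr rfl (fun r _ => h5 r),
        ← Finset.prod_range (fun r : ℕ => D.χ (η (i + k * (r : ℤ))))]
      exact hχη i
    · show viaEmbeddingHom ι (G η (i + k)) = σ⁻¹ * viaEmbeddingHom ι (G η i) * σ
      rw [mul_assoc, eq_inv_mul_iff_mul_eq]
      apply via_conj ι σ g hg hσg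
      rintro ⟨r, x⟩
      by_cases hr : (r : ℕ) + 1 < l
      · simp only [g, G, prodCongrRight_apply]
        rw [dif_pos hr, dif_pos hr]
        simp only [prodCongrRight_apply]
        have h6 : i + (k : ℤ) + k * ((r : ℕ) : ℤ) = i + k * (((r : ℕ) + 1 : ℕ) : ℤ) := by
          push_cast; ring
        rw [h6]
      · simp only [g, G, prodCongrRight_apply]
        rw [dif_neg hr, dif_neg hr]
        simp only [prodCongrRight_apply]
        have hrl : (r : ℕ) + 1 = l := by have := r.2; omega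
        have h6 : i + (k : ℤ) + k * ((r : ℕ) : ℤ) = i + m := by
          have h7 : (m : ℤ) = k * l := by rw [← hkl]; push_cast; ring
          have h8 : ((r : ℕ) : ℤ) = l - 1 := by omega
          rw [h7, h8]; ring
        rw [h6, htw]
        simp
  · intro x i
    show viaEmbeddingHom ι (G (fun i => (x : ℤ → P) (i + 1)) i) = viaEmbeddingHom ι (G x (i + 1))
    congr 1
    simp only [G]
    congr 1
    funext r
    congr 2
    ring_nf

/-- The orbit embedding. -/
theorem orbit_embed {p : ℕ} (hp : p.Prime) {c : ℕ} (σ : Perm Ω) (u : Ω)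
    (h1 : (σ ^ (p ^ (c + 1))) u = u) (h0 : (σ ^ (p ^ c)) u ≠ u) {l β : ℕ} [NeZero β]
    (hlβ : l * β = p ^ (c + 1)) (hl : 0 < l) :
    ∃ ι : Fin l × ZMod β ↪ Ω,
      (∀ (r : Fin l) (x : ZMod β) (hr : (r : ℕ) + 1 < l), σ (ι (r, x)) = ι (⟨r + 1, hr⟩, x)) ∧
      (∀ (r : Fin l) (x : ZMod β), (r : ℕ) + 1 = l → σ (ι (r, x)) = ι (⟨0, hl⟩, x + 1)) := by
  haveI : Fact p.Prime := ⟨hp⟩
  have hper : Function.minimalPeriod σ u = p ^ (c + 1) := by
    apply Function.minimalPeriod_eq_prime_pow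
    · intro h
      apply h0
      rw [← Perm.iterate_eq_pow]
      exact h
    · show (⇑σ)^[p ^ (c + 1)] u = u
      rw [Perm.iterate_eq_pow]
      exact h1
  refine ⟨⟨fun w => (σ ^ ((w.1 : ℕ) + l * w.2.val)) u, ?_⟩, ?_, ?_⟩
  · rintro ⟨r, x⟩ ⟨r', x'⟩ h
    simp only at h
    rw [← Perm.iterate_eq_pow, ← Perm.iterate_eq_pow] at h
    have hb : ∀ (r : Fin l) (x : ZMod β), (r : ℕ) + l * x.val < p ^ (c + 1) := by
      intro r x
      rw [← hlβ]
      have h3 := ZMod.val_lt x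
      calc (r : ℕ) + l * x.val < l + l * x.val := by have := r.2; omega
        _ = l * (x.val + 1) := by ring
        _ ≤ l * β := Nat.mul_le_mul_left l h3
    have h4 := Function.iterate_injOn_Iio_minimalPeriod (f := σ) (x := u)
      (by rw [Set.mem_Iio, hper]; exact hb r x) (by rw [Set.mem_Iio, hper]; exact hb r' x') h
    have h5 : ((r : ℕ) + l * x.val) % l = ((r' : ℕ) + l * x'.val) % l := by rw [h4]
    rw [Nat.add_mul_mod_self_left, Nat.add_mul_mod_self_left, Nat.mod_eq_of_lt r.2,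
      Nat.mod_eq_of_lt r'.2] at h5
    have h6 : x.val = x'.val := by
      have h7 : l * x.val = l * x'.val := by omega
      exact Nat.eq_of_mul_eq_mul_left hl h7
    rw [Prod.mk.injEq]
    exact ⟨Fin.ext h5, ZMod.val_injective β h6⟩
  · intro r x hr
    show σ ((σ ^ ((r : ℕ) + l * x.val)) u) = (σ ^ ((r : ℕ) + 1 + l * x.val)) u
    rw [← Perm.mul_apply, ← pow_succ']
    congr 2
    ring
  · intro r x hr
    show σ ((σ ^ ((r : ℕ) + l * x.val)) u) = (σ ^ (0 + l * (x + 1).val)) u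
    rw [← Perm.mul_apply, ← pow_succ', zero_add]
    have h3 : (r : ℕ) + l * x.val + 1 = l * (x.val + 1) := by
      have h2 : l * (x.val + 1) = l * x.val + l := by ring
      omega
    rw [h3]
    have hfix : ∀ n, (σ ^ (p ^ (c + 1) * n)) u = u := by
      intro n
      rw [pow_mul, ← Perm.iterate_eq_pow]
      exact Function.iterate_fixed h1 n
    rcases Nat.lt_or_ge (x.val + 1) β with h4 | h4
    · have h5 : (x + 1).val = x.val + 1 := by
        rcases Nat.lt_or_ge 1 β with h6 | h6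
        · haveI : Fact (1 < β) := ⟨h6⟩
          rw [ZMod.val_add, ZMod.val_one, Nat.mod_eq_of_lt h4]
        · omega
      rw [h5]
    · have h5 : x.val + 1 = β := by have := ZMod.val_lt x; omega
      have h6 : (x + 1).val = 0 := by
        rw [ZMod.val_eq_zero]
        have h7 : ((x.val + 1 : ℕ) : ZMod β) = 0 := by rw [h5]; simp
        rw [Nat.cast_add, ZMod.natCast_zmod_val, Nat.cast_one] at h7
        exact h7
      rw [h6, h5, hlβ, mul_zero, pow_zero, h1]
      rfl

end Pool.Agent.H81.ENG
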