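import Pool.Agent.H81.ENG.Main

/-!
From prime powers to the exponent.
-/

set_option autoImplicit false

namespace Pool.Agent.H81.ENG

open Equiv Equiv.Perm

theorem exists_min_exp {G : Type} [Group G] (F : Subgroup G) {g : G} {o : ℕ} (ho : 0 < o)
    (hg : g ^ o ∈ F) : ∃ m : ℕ, 0 < m ∧ g ^ m ∈ F ∧ ∀ n : ℕ, g ^ n ∈ F → m ∣ n := by
  classical
  have hex : ∃ m : ℕ, 0 < m ∧ g ^ m ∈ F := ⟨o, ho, hg⟩
  refine ⟨Nat.find hex, (Nat.find_spec hex).1, (Nat.find_spec hex).2, fun n hn => ?_⟩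
  set m := Nat.find hex with hm
  have hm1 : 0 < m := (Nat.find_spec hex).1
  have hm2 : g ^ m ∈ F := (Nat.find_spec hex).2
  apply Nat.dvd_of_mod_eq_zero
  by_contra hne
  have h1 : g ^ (n % m) ∈ F := by
    have h2 : g ^ (n % m) = (g ^ (m * (n / m)))⁻¹ * g ^ n := by
      conv_rhs => rw [← Nat.div_add_mod n m, pow_add]
      rw [Nat.div_add_mod]
      group
    rw [h2, pow_mul]
    exact F.mul_mem (F.inv_mem (F.pow_mem hm2 _)) hn
  exact Nat.find_min hex (Nat.mod_lt n hm1) ⟨Nat.pos_of_ne_zero hne, h1⟩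

/-- The join of the nilpotent normal subgroups. -/
def Fit (G : Type) [Group G] : Subgroup G :=
  ⨆ (N : Subgroup G) (_ : N.Normal ∧ Group.IsNilpotent N), N

theorem p_part_aux {G : Type} [Group G] [Finite G] {d p : ℕ} (hp : p.Prime)
    (h : ∀ (y : G) (N : ℕ), y ^ (p ^ N) = 1 → ∀ (v : ℕ), ¬ p ^ (v + 1) ∣ ed d →
      ∃ P : Subgroup G, P.Normal ∧ IsPGroup p P ∧ y ^ (p ^ v) ∈ P) (g : G) :
    ∃ n : ℕ, ¬ p ∣ n ∧ g ^ (ed d * n) ∈ Fit G := by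
  haveI : Fact p.Prime := ⟨hp⟩
  have hPF : ∀ P : Subgroup G, P.Normal → IsPGroup p P → P ≤ Fit G := by
    intro P hPn hPp
    have hnil : Group.IsNilpotent P := hPp.isNilpotent
    exact le_iSup₂_of_le P ⟨hPn, hnil⟩ le_rfl
  obtain ⟨N, w, hw, ho⟩ := Nat.exists_eq_pow_mul_and_not_dvd (orderOf_pos g).ne' p hp.ne_one
  refine ⟨w, hw, ?_⟩
  by_cases hD : ed d = 0
  · rw [hD, zero_mul, pow_zero]
    exact Subgroup.one_mem _
  · obtain ⟨v, D', hD', hDv⟩ := Nat.exists_eq_pow_mul_and_not_dvd hD p hp.ne_one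
    have hnd : ¬ p ^ (v + 1) ∣ ed d := by
      rw [hDv, pow_succ]
      intro hcon
      exact hD' (Nat.dvd_of_mul_dvd_mul_left (pow_pos hp.pos v) hcon)
    obtain ⟨P, hPn, hPp, hz⟩ := h (g ^ w) N
      (by rw [← pow_mul, mul_comm, ← ho, pow_orderOf_eq_one]) v hnd
    have h1 : g ^ (ed d * w) = ((g ^ w) ^ (p ^ v)) ^ D' := by
      rw [← pow_mul, ← pow_mul, hDv]
      congr 1
      ring
    rw [h1]
    exact Subgroup.pow_mem _ (hPF P hPn hPp hz) D'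

theorem q1_of_p_parts {G : Type} [Group G] {d : ℕ} (g : G)
    (h : ∀ p : ℕ, p.Prime → ∃ n : ℕ, ¬ p ∣ n ∧ g ^ (ed d * n) ∈ Fit G) :
    g ^ (ed d) ∈ Fit G := by
  obtain ⟨n0, hn0, hg0⟩ := h 2 Nat.prime_two
  have hn0' : 0 < n0 := Nat.pos_of_ne_zero (by rintro rfl; exact hn0 (dvd_zero _))
  rw [pow_mul] at hg0
  obtain ⟨m, hm0, hmF, hmd⟩ := exists_min_exp (Fit G) (g := g ^ ed d) hn0' hg0
  have hm1 : m = 1 := by
    by_contra hne
    obtain ⟨p, hp, hpm⟩ := Nat.exists_prime_and_dvd hne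
    obtain ⟨n, hn, hg⟩ := h p hp
    rw [pow_mul] at hg
    exact hn (dvd_trans hpm (hmd n hg))
  rw [hm1, pow_one] at hmF
  exact hmF

end Pool.Agent.H81.ENG
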