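import Pool.Agent.H81.ENG.Basic

/-!
The abelian lemma (coprime action on an abelian group): the argument of the soluble case.
-/

set_option autoImplicit false

namespace Pool.Agent.H81.ENG

/-- `e · d`. -/
def ed (d : ℕ) : ℕ := (if d % 2 = 0 then 1 else 2) * d

theorem dvd_ed (d : ℕ) : d ∣ ed d := Dvd.intro_left _ rfl

section Add

variable {A : Type*} [AddCommGroup A]

theorem emul {A : Type*} [AddCommGroup A] (f g : AddMonoid.End A) (x : A) :
    (f * g) x = f (g x) := rfl

theorem end_sum_apply (s : Finset ℕ) (F : ℕ → AddMonoid.End A) (w : A) :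
    (∑ j ∈ s, F j) w = ∑ j ∈ s, F j w := by
  induction s using Finset.cons_induction with
  | empty => simp
  | cons a s ha ih => rw [Finset.sum_cons, Finset.sum_cons, ← ih]; rfl

theorem gh_add (S S' : AddMonoid.End A) (h1 : S * S' = 1) (h2 : S' * S = 1) {p : ℕ}
    (hp : p.Prime) (htor : ∀ x : A, p • x = 0 → x = 0) {N : ℕ} (hN : S ^ (p ^ N) = 1)
    {d r r' : ℕ} (hL : (S - 1) ^ r = (S - 1) ^ (r + d)) (hL' : (S' - 1) ^ r' = (S' - 1) ^ (r' + d))
    {v : ℕ} (hv : S ^ (p ^ v) ≠ 1) : p ^ (v + 1) ∣ ed d := by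
  -- maximal exponent
  obtain ⟨v', hvv', hv', hv1⟩ : ∃ v', v ≤ v' ∧ S ^ (p ^ v') ≠ 1 ∧ S ^ (p ^ (v' + 1)) = 1 := by
    by_contra hcon
    push Not at hcon
    have : ∀ n, S ^ (p ^ (v + n)) ≠ 1 := by
      intro n
      induction n with
      | zero => exact hv
      | succ n ih => exact hcon (v + n) (by omega) ih
    have h3 : S ^ (p ^ (v + N)) = 1 := by
      rw [add_comm, pow_add, pow_mul, hN, one_pow]
    exact this N h3
  by_contra hnd
  have hnd' : ¬ p ^ (v' + 1) ∣ ed d := fun h => hnd (dvd_trans (pow_dvd_pow p (by omega)) h)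
  set Z := S ^ (p ^ v') with hZ
  have hZp : Z ^ p = 1 := by rw [hZ, ← pow_mul, ← pow_succ, hv1]
  have hcomm : Commute S S' := by rw [Commute, SemiconjBy, h1, h2]
  have hSZ : Commute S Z := (Commute.refl S).pow_right _
  have hS'Z : Commute S' Z := hcomm.symm.pow_right _
  -- (i) Z - 1 is injective on its range
  have inj1 : ∀ u : A, (Z - 1) ((Z - 1) u) = 0 → (Z - 1) u = 0 := by
    intro u hu
    apply htor
    have hfix : ∀ j, (Z ^ j) ((Z - 1) u) = (Z - 1) u := by
      intro j
      induction j with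
      | zero => rfl
      | succ j ih =>
        rw [pow_succ, emul]
        have : Z ((Z - 1) u) = (Z - 1) u := by
          have h4 : (Z - 1) ((Z - 1) u) = Z ((Z - 1) u) - (Z - 1) u := rfl
          rw [h4] at hu
          exact sub_eq_zero.mp hu
        rw [this, ih]
    have hsum : (∑ j ∈ Finset.range p, Z ^ j) * (Z - 1) = 0 := by
      rw [geom_sum_mul, hZp, sub_self]
    have h5 : (∑ j ∈ Finset.range p, Z ^ j) ((Z - 1) u) = 0 := by
      rw [← emul, hsum]; rfl
    rw [end_sum_apply] at h5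
    rw [Finset.sum_congr rfl (fun j _ => hfix j)] at h5
    simpa using h5
  -- (ii) Z - 1 is a multiple of S - 1
  have hfac : ∃ Q : AddMonoid.End A, Z - 1 = Q * (S - 1) := ⟨_, (geom_sum_mul S (p ^ v')).symm⟩
  obtain ⟨Q, hQ⟩ := hfac
  have injS : ∀ u : A, (S - 1) ((Z - 1) u) = 0 → (Z - 1) u = 0 := by
    intro u hu
    apply inj1
    conv_lhs => rw [hQ, emul]
    rw [← hQ, hu, map_zero]
  have hSS : S' - 1 = - S' * (S - 1) := by
    rw [mul_sub, mul_one, neg_mul, h2]; abel
  have injS' : ∀ u : A, (S' - 1) ((Z - 1) u) = 0 → (Z - 1) u = 0 := by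
    intro u hu
    apply injS
    rw [hSS, neg_mul] at hu
    have h6 : S' ((S - 1) ((Z - 1) u)) = 0 := by
      have h7 : (-(S' * (S - 1))) ((Z - 1) u) = - (S' ((S - 1) ((Z - 1) u))) := rfl
      rw [h7] at hu
      exact neg_eq_zero.mp hu
    have h8 : S (S' ((S - 1) ((Z - 1) u))) = 0 := by rw [h6, map_zero]
    rw [← emul, h1] at h8
    exact h8
  -- (iii)
  have key : ∀ (U : AddMonoid.End A), Commute U Z → (∀ u : A, U ((Z - 1) u) = 0 → (Z - 1) u = 0) →
      ∀ r0, U ^ r0 = U ^ (r0 + d) → ∀ u, (U ^ d) ((Z - 1) u) = (Z - 1) u := by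
    intro U hUZ hinj r0 hr0 u
    have hUZ' : Commute U (Z - 1) := hUZ.sub_right (Commute.one_right U)
    have injpow : ∀ n u, (U ^ n) ((Z - 1) u) = 0 → (Z - 1) u = 0 := by
      intro n
      induction n with
      | zero => intro u hu; exact hu
      | succ n ih =>
        intro u hu
        apply hinj
        rw [← emul, hUZ'.eq, emul]
        apply ih
        rw [← emul (Z - 1) U, ← hUZ'.eq, emul,
          ← emul (U ^ n), ← pow_succ]
        exact hu
    have h9 : (U ^ r0) ((Z - 1) ((U ^ d) u - u)) = 0 := by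
      rw [map_sub, map_sub]
      have h10 : (U ^ r0) ((Z - 1) ((U ^ d) u)) = (U ^ (r0 + d)) ((Z - 1) u) := by
        rw [pow_add, emul, ← emul (Z - 1) (U ^ d),
          ← (hUZ'.pow_left d).eq, emul]
      rw [h10, ← hr0, sub_self]
    have h11 := injpow _ _ h9
    rw [map_sub, sub_eq_zero, ← emul, ← (hUZ'.pow_left d).eq,
      emul] at h11
    exact h11
  have hkS := key (S - 1) (hSZ.sub_left (Commute.one_left Z)) injS r hL
  have hkS' := key (S' - 1) (hS'Z.sub_left (Commute.one_left Z)) injS' r' hL'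
  -- (iv)
  have hSd : ∀ u, (S ^ d) ((Z - 1) u) = ((-1 : AddMonoid.End A) ^ d) ((Z - 1) u) := by
    intro u
    have hc : Commute (-S') (S - 1) :=
      (hcomm.symm.neg_left).sub_right (Commute.one_right _)
    have h12 : (S' - 1) ^ d = (-1) ^ d * S' ^ d * (S - 1) ^ d := by
      rw [hSS, hc.mul_pow, neg_pow]
    have h13 := hkS' u
    rw [h12, emul, hkS u, emul] at h13
    have h14 : S ^ d * ((-1) ^ d * S' ^ d) = (-1) ^ d := by
      have hc1 : Commute (S ^ d) ((-1 : AddMonoid.End A) ^ d) :=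
        ((Commute.neg_one_right S).pow_right d).pow_left d
      rw [← mul_assoc, hc1.eq, mul_assoc, ← hcomm.mul_pow, h1, one_pow, mul_one]
    have h15 := congrArg (S ^ d) h13
    rw [← emul, ← emul, mul_assoc, h14] at h15
    exact h15.symm
  have hed : ∀ u, (S ^ (ed d)) ((Z - 1) u) = (Z - 1) u := by
    intro u
    have hu := hSd u
    unfold ed
    by_cases hpar : d % 2 = 0
    · rw [if_pos hpar, one_mul, hu, (Nat.even_iff.mpr hpar).neg_one_pow]; rfl
    · rw [if_neg hpar]
      have hodd : Odd d := Nat.odd_iff.mpr (by omega)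
      rw [hodd.neg_one_pow] at hu
      have h16 : (S ^ d) ((Z - 1) u) = - (Z - 1) u := hu
      rw [two_mul, pow_add, emul, h16, map_neg, h16, neg_neg]
  -- (v)
  apply hv'
  have hfinal : ∀ u, (Z - 1) u = 0 := by
    intro u
    -- Z fixes (Z-1) u
    have hg : Nat.gcd (ed d) (p ^ (v' + 1)) ∣ p ^ v' := by
      obtain ⟨e, he, hge⟩ := (Nat.dvd_prime_pow hp).mp (Nat.gcd_dvd_right (ed d) (p ^ (v' + 1)))
      rw [hge]
      apply pow_dvd_pow
      by_contra hcon
      have : e = v' + 1 := by omega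
      subst this
      exact hnd' (hge ▸ Nat.gcd_dvd_left _ _)
    have hper1 : Function.IsPeriodicPt (fun x => S x) (ed d) ((Z - 1) u) := by
      have := hed u
      rw [AddMonoid.End.coe_pow] at this
      exact this
    have hper2 : Function.IsPeriodicPt (fun x => S x) (p ^ (v' + 1)) ((Z - 1) u) := by
      have : (S ^ (p ^ (v' + 1))) ((Z - 1) u) = (Z - 1) u := by rw [hv1]; rfl
      rw [AddMonoid.End.coe_pow] at this
      exact this
    have hper3 := hper1.gcd hper2
    have hper4 := hper3.trans_dvd hg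
    apply inj1
    have h17 : Z ((Z - 1) u) = (Z - 1) u := by
      rw [hZ, AddMonoid.End.coe_pow]
      exact hper4
    have h18 : (Z - 1) ((Z - 1) u) = Z ((Z - 1) u) - (Z - 1) u := rfl
    rw [h18, h17, sub_self]
  ext u
  have h19 : (Z - 1) u = Z u - u := rfl
  have h20 := hfinal u
  rw [h19, sub_eq_zero] at h20
  exact h20

end Add

/-- Multiplicative form. -/
theorem gh_mul {A : Type*} [CommGroup A] (s : MulAut A) {p : ℕ} (hp : p.Prime)
    (htor : ∀ x : A, x ^ p = 1 → x = 1) {N : ℕ} (hN : s ^ (p ^ N) = 1) {d : ℕ} (hL : SL s d)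
    {v : ℕ} (hv : s ^ (p ^ v) ≠ 1) : p ^ (v + 1) ∣ ed d := by
  let F : MulAut A → AddMonoid.End (Additive A) := fun t => t.toMonoidHom.toAdditive
  have Fapp : ∀ t (x : Additive A), F t x = Additive.ofMul (t x.toMul) := fun _ _ => rfl
  have Fmul : ∀ t t', F (t * t') = F t * F t' := by
    intro t t'; rfl
  have Fone : F 1 = 1 := rfl
  have Fpow : ∀ t n, F (t ^ n) = (F t) ^ n := by
    intro t n
    induction n with
    | zero => rw [pow_zero, pow_zero, Fone]
    | succ n ih => rw [pow_succ, pow_succ, Fmul, ih]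
  have Fiter : ∀ (t : MulAut A) (n : ℕ) (x : A),
      ((F t - 1) ^ n) (Additive.ofMul x) = Additive.ofMul ((ef t)^[n] x) := by
    intro t n
    induction n with
    | zero => intro x; rfl
    | succ n ih =>
      intro x
      rw [pow_succ, emul, Function.iterate_succ_apply, ← ih]
      congr 1
      show Additive.ofMul (t x) - Additive.ofMul x = Additive.ofMul (ef t x)
      unfold ef
      rw [← ofMul_div, div_eq_mul_inv, mul_comm]
  obtain ⟨⟨r, hr⟩, ⟨r', hr'⟩⟩ := hL
  refine gh_add (F s) (F s⁻¹) ?_ ?_ hp ?_ (N := N) ?_ (d := d) (r := r) (r' := r') ?_ ?_ ?_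
  · rw [← Fmul, mul_inv_cancel, Fone]
  · rw [← Fmul, inv_mul_cancel, Fone]
  · intro x hx
    have := htor x.toMul (by
      have h := congrArg Additive.toMul hx
      simpa using h)
    exact this
  · rw [← Fpow, hN, Fone]
  · ext x
    have := hr x.toMul
    have h1 := Fiter s r x.toMul
    have h2 := Fiter s (r + d) x.toMul
    rw [← this] at h2
    exact h1.trans h2.symm
  · ext x
    have := hr' x.toMul
    have h1 := Fiter s⁻¹ r' x.toMul
    have h2 := Fiter s⁻¹ (r' + d) x.toMul
    rw [← this] at h2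
    exact h1.trans h2.symm
  · rw [← Fpow]
    intro h
    apply hv
    ext x
    have := congrArg (fun f : AddMonoid.End (Additive A) => f (Additive.ofMul x)) h
    exact this

end Pool.Agent.H81.ENG
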