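import Pool.Agent.H81.ENG.Ext
import Pool.Agent.H81.ENG.GH

/-!
The abelian lemma for sequences with values in an abelian `p'`-subgroup normalised by `σ`.
-/

set_option autoImplicit false
set_option linter.style.haveILetI false

namespace Pool.Agent.H81.ENG

open Equiv Equiv.Perm

theorem gh_grp {A : Type*} [Group A] (hc : ∀ a b : A, a * b = b * a) (s : MulAut A) {p : ℕ}
    (hp : p.Prime) (htor : ∀ x : A, x ^ p = 1 → x = 1) {N : ℕ} (hN : s ^ (p ^ N) = 1) {d : ℕ}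
    (hL : SL s d) {v : ℕ} (hv : s ^ (p ^ v) ≠ 1) : p ^ (v + 1) ∣ ed d := by
  letI : CommGroup A := { (inferInstance : Group A) with mul_comm := hc }
  exact gh_mul s hp htor hN hL hv

variable {Ω : Type*} [Fintype Ω] [DecidableEq Ω]

/-- Twisted sequences with values in `V`. -/
def VSeq (σ : Perm Ω) (k : ℕ) (V : Subgroup (Perm Ω)) : Subgroup (ℤ → Perm Ω) where
  carrier := {ξ | (∀ i, ξ i ∈ V) ∧ ∀ i, ξ (i + k) = σ⁻¹ * ξ i * σ}
  one_mem' := ⟨fun i => V.one_mem, fun i => by simp⟩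
  mul_mem' := by
    rintro a b ⟨ha1, ha2⟩ ⟨hb1, hb2⟩
    refine ⟨fun i => V.mul_mem (ha1 i) (hb1 i), fun i => ?_⟩
    rw [Pi.mul_apply, Pi.mul_apply, ha2, hb2]; group
  inv_mem' := by
    rintro a ⟨ha1, ha2⟩
    refine ⟨fun i => V.inv_mem (ha1 i), fun i => ?_⟩
    rw [Pi.inv_apply, Pi.inv_apply, ha2]; group

theorem mem_VSeq {σ : Perm Ω} {k : ℕ} {V : Subgroup (Perm Ω)} {ξ : ℤ → Perm Ω} :
    ξ ∈ VSeq σ k V ↔ (∀ i, ξ i ∈ V) ∧ ∀ i, ξ (i + k) = σ⁻¹ * ξ i * σ := Iff.rfl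

theorem VSeq_shift (σ : Perm Ω) (k : ℕ) (V : Subgroup (Perm Ω)) (ξ : ℤ → Perm Ω) :
    ξ ∈ VSeq σ k V ↔ shift (Perm Ω) ξ ∈ VSeq σ k V := by
  rw [mem_VSeq, mem_VSeq]
  constructor
  · rintro ⟨h1, h2⟩
    refine ⟨fun i => h1 _, fun i => ?_⟩
    rw [shift_apply, shift_apply, ← h2]; congr 1; ring
  · rintro ⟨h1, h2⟩
    refine ⟨fun i => ?_, fun i => ?_⟩
    · have := h1 (i - 1)
      rwa [shift_apply, sub_add_cancel] at this
    · have := h2 (i - 1)
      rw [shift_apply, shift_apply, sub_add_cancel] at this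
      rw [← this]; congr 1; ring

theorem ghseq {σ : Perm Ω} {p b d : ℕ} (hp : p.Prime) (hL : ALaw σ (p ^ b) d)
    (V : Subgroup (Perm Ω)) (hcomm : ∀ a ∈ V, ∀ c ∈ V, a * c = c * a)
    (htor : ∀ a ∈ V, a ^ p = 1 → a = 1) (heven : ∀ a ∈ V, sign a = 1)
    (hnorm : ∀ a ∈ V, σ⁻¹ * a * σ ∈ V) (hnorm' : ∀ a ∈ V, σ * a * σ⁻¹ ∈ V) {c : ℕ}
    (hσ : σ ^ (p ^ c) = 1) {t : Perm Ω} (ht : t ∈ V)
    (hc : (c = 0 ∧ t ≠ 1) ∨ (∃ c', c = c' + 1 ∧ σ ^ (p ^ c') * t ≠ t * σ ^ (p ^ c'))) :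
    p ^ (b + c) ∣ ed d := by
  set k := p ^ b with hk
  have hk0 : 0 < k := pow_pos hp.pos b
  have hkz : (k : ℤ) ≠ 0 := by exact_mod_cast hk0.ne'
  let s : MulAut (VSeq σ k V) := restr (shift (Perm Ω)) (VSeq σ k V) (VSeq_shift σ k V)
  have hSL : SL s d := by
    refine hL.pull s (VSeq σ k V).subtype (Subtype.val_injective) ?_ ?_
    · rintro ⟨x, h1, h2⟩
      exact ⟨fun i => heven _ (h1 i), h2⟩
    · intro x i; rfl
  have hzn : ∀ (j : ℤ) (a : Perm Ω), a ∈ V → σ ^ (-j) * a * σ ^ j ∈ V := by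
    intro j
    induction j using Int.induction_on with
    | zero => intro a ha; simpa using ha
    | succ j ih =>
      intro a ha
      have h1 := hnorm _ (ih a ha)
      have h2 : σ ^ (-((j : ℤ) + 1)) * a * σ ^ ((j : ℤ) + 1) =
          σ⁻¹ * (σ ^ (-(j : ℤ)) * a * σ ^ (j : ℤ)) * σ := by
        rw [show -((j : ℤ) + 1) = -1 + -(j : ℤ) by ring, zpow_add, zpow_add, zpow_neg_one, zpow_one]
        group
      rw [h2]; exact h1
    | pred j ih =>
      intro a ha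
      have h1 := hnorm' _ (ih a ha)
      have h2 : σ ^ (-(-(j : ℤ) - 1)) * a * σ ^ (-(j : ℤ) - 1) =
          σ * (σ ^ (-(-(j : ℤ))) * a * σ ^ (-(j : ℤ))) * σ⁻¹ := by
        rw [show -(-(j : ℤ) - 1) = 1 + -(-(j : ℤ)) by ring, zpow_add, zpow_sub, zpow_one]
        group
      rw [h2]; exact h1
  let α : ℤ → Perm Ω := fun i => if i % k = 0 then σ ^ (-(i / k)) * t * σ ^ (i / k) else 1
  have hα : α ∈ VSeq σ k V := by
    refine ⟨fun i => ?_, fun i => ?_⟩
    · simp only [α]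
      split_ifs with h
      · exact hzn _ _ ht
      · exact V.one_mem
    · simp only [α]
      rw [Int.add_emod_right, Int.add_ediv_of_dvd_right (dvd_refl _), Int.ediv_self hkz]
      split_ifs with h
      · rw [show -(i / (k : ℤ) + 1) = -1 + -(i / (k : ℤ)) by ring, zpow_add, zpow_add,
          zpow_neg_one, zpow_one]
        group
      · simp
  have hα0 : α 0 = t := by simp [α]
  have hspow : ∀ (n : ℕ) (x : VSeq σ k V) (i : ℤ),
      (((s ^ n) x : VSeq σ k V) : ℤ → Perm Ω) i = (x : ℤ → Perm Ω) (i + n) := by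
    intro n x i
    have h1 := restr_pow_apply (shift (Perm Ω)) (VSeq σ k V) (VSeq_shift σ k V) n x
    have h2 := congrFun h1 i
    rw [shift_pow_apply] at h2
    exact h2
  have hcommA : ∀ x y : VSeq σ k V, x * y = y * x := by
    intro x y
    apply Subtype.ext
    funext i
    exact hcomm _ (x.2.1 i) _ (y.2.1 i)
  have htorA : ∀ x : VSeq σ k V, x ^ p = 1 → x = 1 := by
    intro x hx
    apply Subtype.ext
    funext i
    apply htor _ (x.2.1 i)
    exact congrFun (congrArg Subtype.val hx) i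
  have hN : s ^ (p ^ (b + c)) = 1 := by
    ext x : 1
    apply Subtype.ext
    funext i
    rw [hspow]
    have h1 := tw_zpow σ x.1 k x.2.2 (p ^ c : ℕ) i
    have h2 : ((p ^ (b + c) : ℕ) : ℤ) = (k : ℤ) * ((p ^ c : ℕ) : ℤ) := by
      rw [hk]; push_cast; ring
    rw [h2, h1, zpow_neg, zpow_natCast, hσ]
    simp
  rcases hc with ⟨hc0, ht1⟩ | ⟨c', hcc, hnt⟩
  · subst hc0
    rcases b with _ | b'
    · simp
    · rw [add_zero]
      refine gh_grp hcommA s hp htorA hN hSL ?_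
      intro hcon
      apply ht1
      have h1 := hspow (p ^ b') ⟨α, hα⟩ 0
      rw [hcon] at h1
      have h2 : α 0 = α (0 + ((p ^ b' : ℕ) : ℤ)) := h1
      rw [hα0] at h2
      rw [h2]
      have h3 : ¬ (0 + ((p ^ b' : ℕ) : ℤ)) % (k : ℤ) = 0 := by
        rw [zero_add, hk]
        have h4 : p ^ b' % p ^ (b' + 1) = p ^ b' :=
          Nat.mod_eq_of_lt (Nat.pow_lt_pow_right hp.one_lt (Nat.lt_succ_self b'))
        have h5 : ((p ^ b' : ℕ) : ℤ) % ((p ^ (b' + 1) : ℕ) : ℤ) = ((p ^ b' % p ^ (b' + 1) : ℕ) : ℤ) :=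
          by push_cast; rfl
        rw [h5, h4]
        have := pow_pos hp.pos b'
        omega
      show (if (0 + ((p ^ b' : ℕ) : ℤ)) % (k : ℤ) = 0 then _ else (1 : Perm Ω)) = 1
      rw [if_neg h3]
  · rw [hcc, ← add_assoc]
    refine gh_grp hcommA s hp htorA hN hSL ?_
    intro hcon
    apply hnt
    have h1 := hspow (p ^ (b + c')) ⟨α, hα⟩ 0
    rw [hcon] at h1
    have h2 : α 0 = α (0 + ((p ^ (b + c') : ℕ) : ℤ)) := h1
    have h3 := tw_zpow σ α k hα.2 (p ^ c' : ℕ) 0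
    have h4 : ((p ^ (b + c') : ℕ) : ℤ) = (k : ℤ) * ((p ^ c' : ℕ) : ℤ) := by
      rw [hk]; push_cast; ring
    rw [h4, h3, hα0, zpow_neg, zpow_natCast] at h2
    calc σ ^ p ^ c' * t = σ ^ p ^ c' * ((σ ^ p ^ c')⁻¹ * t * σ ^ p ^ c') := by rw [← h2]
      _ = t * σ ^ p ^ c' := by group

theorem ghgen {σ : Perm Ω} {p b d : ℕ} (hp : p.Prime) (hL : ALaw σ (p ^ b) d) {q : ℕ}
    (hq : q.Prime) (hpq : p ≠ q) (t₁ t₂ : Perm Ω) (h12 : t₁ * t₂ = t₂ * t₁) (hq1 : t₁ ^ q = 1)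
    (hq2 : t₂ ^ q = 1) (hs1 : sign t₁ = 1) (hs2 : sign t₂ = 1)
    (hn1 : σ⁻¹ * t₁ * σ ∈ Subgroup.closure {t₁, t₂})
    (hn2 : σ⁻¹ * t₂ * σ ∈ Subgroup.closure {t₁, t₂}) {c : ℕ} (hσ : σ ^ (p ^ c) = 1)
    (hc : (c = 0 ∧ t₁ ≠ 1) ∨ (∃ c', c = c' + 1 ∧ σ ^ (p ^ c') * t₁ ≠ t₁ * σ ^ (p ^ c'))) :
    p ^ (b + c) ∣ ed d := by
  set V := Subgroup.closure {t₁, t₂} with hV
  have ht1 : t₁ ∈ V := Subgroup.subset_closure (by simp)
  have ht2 : t₂ ∈ V := Subgroup.subset_closure (by simp)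
  have hV1 : V ≤ Subgroup.centralizer {t₁, t₂} := by
    rw [hV, Subgroup.closure_le]
    rintro x (rfl | rfl)
    · rw [SetLike.mem_coe, Subgroup.mem_centralizer_iff]
      rintro y (rfl | rfl)
      · rfl
      · exact h12.symm
    · rw [SetLike.mem_coe, Subgroup.mem_centralizer_iff]
      rintro y (rfl | rfl)
      · exact h12
      · rfl
  have hcomm : ∀ a ∈ V, ∀ c ∈ V, a * c = c * a := by
    intro a ha
    have h1 : V ≤ Subgroup.centralizer {a} := by
      rw [hV, Subgroup.closure_le]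
      rintro x hx
      rw [SetLike.mem_coe, Subgroup.mem_centralizer_iff]
      rintro y rfl
      exact ((Subgroup.mem_centralizer_iff.mp (hV1 ha)) x hx).symm
    intro c hc
    exact (Subgroup.mem_centralizer_iff.mp (h1 hc)) a rfl
  have hpowq : ∀ a ∈ V, a ^ q = 1 := by
    intro a ha
    induction ha using Subgroup.closure_induction with
    | mem x hx =>
      rcases hx with rfl | rfl
      · exact hq1
      · exact hq2
    | one => simp
    | mul x y hx hy ihx ihy =>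
      rw [(show Commute x y from hcomm x hx y hy).mul_pow, ihx, ihy, one_mul]
    | inv x hx ih => rw [inv_pow, ih, inv_one]
  have htor : ∀ a ∈ V, a ^ p = 1 → a = 1 := by
    intro a ha hap
    have h1 : orderOf a ∣ Nat.gcd p q :=
      Nat.dvd_gcd (orderOf_dvd_of_pow_eq_one hap) (orderOf_dvd_of_pow_eq_one (hpowq a ha))
    rw [(Nat.coprime_primes hp hq).mpr hpq] at h1
    exact orderOf_eq_one_iff.mp (Nat.dvd_one.mp h1)
  have heven : ∀ a ∈ V, sign a = 1 := by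
    intro a ha
    induction ha using Subgroup.closure_induction with
    | mem x hx =>
      rcases hx with rfl | rfl
      · exact hs1
      · exact hs2
    | one => simp
    | mul x y hx hy ihx ihy => rw [map_mul, ihx, ihy, one_mul]
    | inv x hx ih => rw [map_inv, ih, inv_one]
  have hnorm : ∀ a ∈ V, σ⁻¹ * a * σ ∈ V := by
    intro a ha
    induction ha using Subgroup.closure_induction with
    | mem x hx =>
      rcases hx with rfl | rfl
      · exact hn1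
      · exact hn2
    | one => simp
    | mul x y hx hy ihx ihy =>
      have := V.mul_mem ihx ihy
      have h3 : σ⁻¹ * (x * y) * σ = σ⁻¹ * x * σ * (σ⁻¹ * y * σ) := by group
      rw [h3]; exact this
    | inv x hx ih =>
      have := V.inv_mem ih
      have h3 : σ⁻¹ * x⁻¹ * σ = (σ⁻¹ * x * σ)⁻¹ := by group
      rw [h3]; exact this
  have hnormk : ∀ (n : ℕ) (a : Perm Ω), a ∈ V → (σ ^ n)⁻¹ * a * σ ^ n ∈ V := by
    intro n
    induction n with
    | zero => intro a ha; simpa using ha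
    | succ n ih =>
      intro a ha
      have h1 := hnorm _ (ih a ha)
      have h2 : (σ ^ (n + 1))⁻¹ * a * σ ^ (n + 1) = σ⁻¹ * ((σ ^ n)⁻¹ * a * σ ^ n) * σ := by
        rw [pow_succ]; group
      rw [h2]; exact h1
  have hnorm' : ∀ a ∈ V, σ * a * σ⁻¹ ∈ V := by
    intro a ha
    have h1 := hnormk (p ^ c - 1) a ha
    have h2 : σ ^ (p ^ c - 1) = σ⁻¹ := by
      apply eq_inv_of_mul_eq_one_left
      rw [← pow_succ, Nat.sub_add_cancel (Nat.one_le_iff_ne_zero.mpr (pow_ne_zero c hp.ne_zero)),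
        hσ]
    rw [h2, inv_inv] at h1
    exact h1
  exact ghseq hp hL V hcomm htor heven hnorm hnorm' hσ ht1 hc

end Pool.Agent.H81.ENG
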