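import Pool.Agent.H81.ENG.Basic

/-!
The linear algebra behind the affine count: if `A` kills a nonzero vector of a space of dimension at
most `M = p^μ` over `F_p`, then `∑_{i < pM} A^i u = 0` implies `∑_{i < M} A^i u = 0`.
-/

set_option autoImplicit false
set_option linter.style.haveILetI false

namespace Pool.Agent.H81.ENG

open Polynomial

theorem geom_poly (p : ℕ) [hp : Fact p.Prime] (k : ℕ) :
    (∑ i ∈ Finset.range (p ^ k), (X : (ZMod p)[X]) ^ i) = (X - 1) ^ (p ^ k - 1) := by
  have h1 : (X - 1 : (ZMod p)[X]) ≠ 0 := by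
    have := X_sub_C_ne_zero (1 : ZMod p)
    rwa [C_1] at this
  apply mul_right_cancel₀ h1
  rw [geom_sum_mul, ← pow_succ, Nat.sub_add_cancel (Nat.one_le_iff_ne_zero.mpr
    (pow_ne_zero k hp.out.ne_zero)), sub_pow_char_pow, one_pow]

variable {p : ℕ} [hp : Fact p.Prime] {V : Type*} [AddCommGroup V] [Module (ZMod p) V]

theorem geom_end (A : Module.End (ZMod p) V) (k : ℕ) :
    (∑ i ∈ Finset.range (p ^ k), A ^ i) = (A - 1) ^ (p ^ k - 1) := by
  have h := congrArg (aeval A) (geom_poly p k)
  simpa using h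

theorem la [FiniteDimensional (ZMod p) V] {μ : ℕ} (hV : Module.finrank (ZMod p) V ≤ p ^ μ)
    (A : Module.End (ZMod p) V) {z : V} (hz : z ≠ 0) (hAz : A z = 0) {u : V}
    (hu : (∑ i ∈ Finset.range (p ^ (μ + 1)), A ^ i) u = 0) :
    (∑ i ∈ Finset.range (p ^ μ), A ^ i) u = 0 := by
  rw [geom_end] at hu ⊢
  set W : Submodule (ZMod p) V := LinearMap.ker ((A - 1) ^ (p ^ (μ + 1))) with hW
  have hpos : 0 < p ^ (μ + 1) := pow_pos hp.out.pos _
  have huW : u ∈ W := by
    rw [hW, LinearMap.mem_ker, ← Nat.sub_add_cancel (Nat.one_le_iff_ne_zero.mpr hpos.ne'),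
      add_comm, pow_add, Module.End.mul_apply, hu, map_zero]
  have hzW : z ∉ W := by
    rw [hW, LinearMap.mem_ker]
    have h1 : ∀ n, ((A - 1) ^ n) z = ((-1 : ZMod p) ^ n) • z := by
      intro n
      induction n with
      | zero => simp
      | succ n ih =>
        rw [pow_succ', Module.End.mul_apply, ih, map_smul, LinearMap.sub_apply, hAz,
          Module.End.one_apply, zero_sub, smul_neg, pow_succ, mul_neg_one, neg_smul]
    rw [h1]
    intro h2
    rcases smul_eq_zero.mp h2 with h3 | h3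
    · exact (pow_ne_zero _ (neg_ne_zero.mpr one_ne_zero)) h3
    · exact hz h3
  have hlt : Module.finrank (ZMod p) W < Module.finrank (ZMod p) V := by
    apply Submodule.finrank_lt
    intro h
    apply hzW
    rw [h]
    exact Submodule.mem_top
  have hmap : ∀ x ∈ W, (A - 1) x ∈ W := by
    intro x hx
    rw [hW, LinearMap.mem_ker] at hx ⊢
    rw [← Module.End.mul_apply, ← pow_succ, pow_succ', Module.End.mul_apply, hx, map_zero]
  set g : Module.End (ZMod p) W := (A - 1).restrict hmap with hg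
  have hgn : ∀ n (x : W), ((g ^ n) x : V) = ((A - 1) ^ n) x := by
    intro n
    induction n with
    | zero => intro x; rfl
    | succ n ih =>
      intro x
      rw [pow_succ, pow_succ, Module.End.mul_apply, Module.End.mul_apply, ih]
      rfl
  have hfin : Module.finrank (ZMod p) W ≤ p ^ (μ + 1) :=
    le_trans (le_trans hlt.le hV) (Nat.pow_le_pow_right hp.out.pos (Nat.le_succ μ))
  have hker := Module.End.ker_pow_eq_ker_pow_finrank_of_le (f := g) hfin
  have hu1 : (⟨u, huW⟩ : W) ∈ LinearMap.ker (g ^ (p ^ (μ + 1))) := by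
    rw [LinearMap.mem_ker]
    apply Subtype.ext
    rw [hgn]
    rw [hW, LinearMap.mem_ker] at huW
    exact huW
  rw [hker, LinearMap.mem_ker] at hu1
  have hu2 : ((A - 1) ^ (Module.finrank (ZMod p) W)) u = 0 := by
    have := congrArg (Subtype.val) hu1
    rw [hgn] at this
    exact this
  obtain ⟨e, he⟩ := Nat.exists_eq_add_of_le (show Module.finrank (ZMod p) W ≤ p ^ μ - 1 by omega)
  rw [he, add_comm, pow_add, Module.End.mul_apply, hu2, map_zero]

theorem aff_count {V : Type*} [AddCommGroup V] [Finite V] {p : ℕ} (hp : p.Prime)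
    (hexp : ∀ v : V, p • v = 0) {μ : ℕ} (hcard : Nat.card V ≤ p ^ (p ^ μ)) (A : V →+ V) (u0 : V)
    {z : V} (hz : z ≠ 0) (hAz : A z = 0) (φ : V → V) (hφ : ∀ v, φ v = A v + u0) {n : V} {r : ℕ}
    (hr : r ≠ 0) (h : φ^[r * p ^ (μ + 1)] n = n) : φ^[r * p ^ μ] n = n := by
  haveI : Fact p.Prime := ⟨hp⟩
  letI : Module (ZMod p) V := AddCommGroup.zmodModule (n := p) hexp
  haveI : FiniteDimensional (ZMod p) V := Module.Finite.of_finite
  have hfinr : Module.finrank (ZMod p) V ≤ p ^ μ := by
    have h5 := Module.natCard_eq_pow_finrank (K := ZMod p) (V := V)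
    rw [Nat.card_zmod] at h5
    rw [h5] at hcard
    exact (Nat.pow_le_pow_iff_right hp.one_lt).mp hcard
  let T : Module.End (ZMod p) V := A.toZModLinearMap p
  have hTA : ∀ v, T v = A v := fun _ => rfl
  have hφA : ∀ v w : V, φ v - φ w = T (v - w) := by
    intro v w
    rw [hφ, hφ, map_sub, hTA, hTA]
    abel
  have hφAk : ∀ (k : ℕ) (v w : V), φ^[k] v - φ^[k] w = (T ^ k) (v - w) := by
    intro k
    induction k with
    | zero => intro v w; rfl
    | succ k ih =>
      intro v w
      rw [Function.iterate_succ_apply', Function.iterate_succ_apply', pow_succ',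
        Module.End.mul_apply, ← ih]
      exact hφA _ _
  set u : V := φ^[r] n - n with hu
  have hsum : ∀ k : ℕ, φ^[r * k] n - n = (∑ i ∈ Finset.range k, (T ^ r) ^ i) u := by
    intro k
    induction k with
    | zero => simp
    | succ k ih =>
      rw [geom_sum_succ, LinearMap.add_apply, Module.End.mul_apply, ← ih, Module.End.one_apply, hu,
        ← hφAk r]
      have h9 : φ^[r * (k + 1)] n = φ^[r] (φ^[r * k] n) := by
        rw [← Function.iterate_add_apply]
        congr 1
        ring
      rw [h9]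
      abel
  have hzA : (T ^ r) z = 0 := by
    obtain ⟨k, rfl⟩ := Nat.exists_eq_succ_of_ne_zero hr
    rw [pow_succ, Module.End.mul_apply, hTA, hAz, map_zero]
  have hzero1 : (∑ i ∈ Finset.range (p ^ (μ + 1)), (T ^ r) ^ i) u = 0 := by
    rw [← hsum, h, sub_self]
  have hzero2 := la hfinr (T ^ r) hz hzA hzero1
  rw [← hsum, sub_eq_zero] at hzero2
  exact hzero2

theorem aff_count_grp {N : Type*} [Group N] [Finite N] (hc : ∀ a b : N, a * b = b * a) {p : ℕ}
    (hp : p.Prime) (hexp : ∀ v : N, v ^ p = 1) {μ : ℕ} (hcard : Nat.card N ≤ p ^ (p ^ μ))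
    (A : N →* N) (u0 : N) {z : N} (hz : z ≠ 1) (hAz : A z = 1) (φ : N → N)
    (hφ : ∀ v, φ v = A v * u0) {n : N} {r : ℕ} (hr : r ≠ 0) (h : φ^[r * p ^ (μ + 1)] n = n) :
    φ^[r * p ^ μ] n = n := by
  letI : CommGroup N := { (inferInstance : Group N) with mul_comm := hc }
  haveI : Finite (Additive N) := inferInstanceAs (Finite N)
  exact aff_count (V := Additive N) hp (fun v => hexp v) hcard (MonoidHom.toAdditive A)
    (Additive.ofMul u0) (z := Additive.ofMul z) hz hAz φ hφ hr h

end Pool.Agent.H81.ENG
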