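import Pool.Agent.H81.ENG.CompCase
import Pool.Agent.H81.ENG.Coprime
import Pool.Agent.H81.ENG.Comb
import Pool.Agent.H81.ENG.Comp

/-!
The induction.
-/

set_option autoImplicit false
set_option linter.style.haveILetI false

namespace Pool.Agent.H81.ENG

open Equiv Equiv.Perm

/-- Every simple quotient `H ⧸ K` of order divisible by `p` of a subnormal subgroup `H` of `G` (that
is, every composition factor of `G` of order divisible by `p`) is abelian or alternating of degree
`n ≥ 5`, with `n ≠ 6` if `p = 2`. -/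
def PFactors (G : Type) [Group G] (p : ℕ) : Prop :=
  ∀ H : Subgroup G, H.IsSubnormal → ∀ (K : Subgroup H) (_ : K.Normal), IsSimpleGroup (H ⧸ K) →
    p ∣ Nat.card (H ⧸ K) → (∀ a b : H ⧸ K, a * b = b * a) ∨
      ∃ n : ℕ, 5 ≤ n ∧ (p = 2 → n ≠ 6) ∧ Nonempty ((H ⧸ K) ≃* alternatingGroup (Fin n))

/-- The Engel law with period `d`. -/
def GLaw (G : Type) [Group G] (d : ℕ) : Prop :=
  ∃ r : ℕ, ∀ x y : G, (fun z : G => z⁻¹ * y⁻¹ * z * y)^[r] x =
    (fun z : G => z⁻¹ * y⁻¹ * z * y)^[r + d] x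

theorem GLaw.sl {G : Type} [Group G] {d : ℕ} (h : GLaw G d) (y : G) : SL (MulAut.conj y⁻¹) d := by
  obtain ⟨r, hr⟩ := h
  have key : ∀ (y : G), ef (MulAut.conj y⁻¹) = (fun z : G => z⁻¹ * y⁻¹ * z * y) := by
    intro y
    funext z
    unfold ef
    rw [MulAut.conj_apply, inv_inv]
    group
  refine ⟨⟨r, fun x => ?_⟩, ⟨r, fun x => ?_⟩⟩
  · rw [key]; exact hr x y
  · have h1 : (MulAut.conj y⁻¹)⁻¹ = MulAut.conj (y⁻¹)⁻¹ :=
      (map_inv MulAut.conj y⁻¹).symm
    rw [h1, key]; exact hr x y⁻¹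

theorem GLaw.quotient {G : Type} [Group G] {d : ℕ} (h : GLaw G d) (M : Subgroup G) [M.Normal] :
    GLaw (G ⧸ M) d := by
  obtain ⟨r, hr⟩ := h
  refine ⟨r, ?_⟩
  have key : ∀ (n : ℕ) (x y : G), (fun z : G ⧸ M => z⁻¹ * ((y : G ⧸ M))⁻¹ * z * (y : G ⧸ M))^[n]
      (x : G ⧸ M) = (((fun z : G => z⁻¹ * y⁻¹ * z * y)^[n] x : G) : G ⧸ M) := by
    intro n
    induction n with
    | zero => intro x y; rfl
    | succ n ih =>
      intro x y
      rw [Function.iterate_succ_apply, Function.iterate_succ_apply, ← ih]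
      rfl
  intro x y
  obtain ⟨x, rfl⟩ := QuotientGroup.mk_surjective x
  obtain ⟨y, rfl⟩ := QuotientGroup.mk_surjective y
  rw [key, key, hr]

theorem PFactors.quotient {G : Type} [Group G] {p : ℕ} (h : PFactors G p) (M : Subgroup G)
    [M.Normal] : PFactors (G ⧸ M) p := by
  intro H hH K hK hs hpd
  -- pull back
  set H' := H.comap (QuotientGroup.mk' M) with hH'
  have hsub : H'.IsSubnormal := hH.comap (QuotientGroup.mk' M)
  let f : H' →* H := (QuotientGroup.mk' M).subgroupComap H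
  have hf : Function.Surjective f := by
    rintro ⟨x, hx⟩
    obtain ⟨x, rfl⟩ := QuotientGroup.mk_surjective x
    exact ⟨⟨x, hx⟩, rfl⟩
  let g : H' →* H ⧸ K := (QuotientGroup.mk' K).comp f
  have hg : Function.Surjective g := (QuotientGroup.mk'_surjective K).comp hf
  let e : (H' ⧸ g.ker) ≃* (H ⧸ K) := QuotientGroup.quotientKerEquivOfSurjective g hg
  have hs' : IsSimpleGroup (H' ⧸ g.ker) := e.isSimpleGroup
  have hpd' : p ∣ Nat.card (H' ⧸ g.ker) := by rw [Nat.card_congr e.toEquiv]; exact hpd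
  rcases h H' hsub g.ker inferInstance hs' hpd' with h1 | ⟨n, h5, h6, ⟨ψ⟩⟩
  · left
    intro a b
    obtain ⟨a, rfl⟩ := e.surjective a
    obtain ⟨b, rfl⟩ := e.surjective b
    rw [← map_mul, ← map_mul, h1]
  · exact Or.inr ⟨n, h5, h6, ⟨e.symm.trans ψ⟩⟩

theorem PFactors.component {G : Type} [Group G] {p : ℕ} (h : PFactors G p) {M T : Subgroup G}
    [hM : M.Normal] (hTM : T ≤ M) (hn : ∀ m ∈ M, ∀ t ∈ T, m * t * m⁻¹ ∈ T)
    (hT : IsSimpleGroup T) (hpT : p ∣ Nat.card T) (hnc : ¬ ∀ a ∈ T, ∀ b ∈ T, a * b = b * a) :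
    ∃ n : ℕ, 5 ≤ n ∧ (p = 2 → n ≠ 6) ∧ Nonempty (T ≃* alternatingGroup (Fin n)) := by
  have hsub : T.IsSubnormal := by
    refine Subgroup.IsSubnormal.step T M hTM hM.isSubnormal ?_
    constructor
    intro t ht m
    exact hn m m.2 t ht
  let e : (T ⧸ (⊥ : Subgroup T)) ≃* T := QuotientGroup.quotientBot
  have hs : IsSimpleGroup (T ⧸ (⊥ : Subgroup T)) := e.isSimpleGroup
  have hpd' : p ∣ Nat.card (T ⧸ (⊥ : Subgroup T)) := by rw [Nat.card_congr e.toEquiv]; exact hpT
  rcases h T hsub ⊥ inferInstance hs hpd' with h1 | ⟨n, h5, h6, ⟨ψ⟩⟩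
  · exfalso
    apply hnc
    intro a ha b hb
    have h2 := h1 (e.symm ⟨a, ha⟩) (e.symm ⟨b, hb⟩)
    rw [← map_mul, ← map_mul] at h2
    exact congrArg Subtype.val (e.symm.injective h2)
  · exact ⟨n, h5, h6, ⟨e.symm.trans ψ⟩⟩

/-- Existence of a minimal normal subgroup. -/
theorem exists_min_normal {G : Type} [Group G] [Finite G] (h : ∃ g : G, g ≠ 1) :
    ∃ M : Subgroup G, M.Normal ∧ M ≠ ⊥ ∧
      ∀ K : Subgroup G, K.Normal → K ≤ M → K = ⊥ ∨ K = M := by
  let S : Set (Subgroup G) := {K | K.Normal ∧ K ≠ ⊥}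
  have hS : S.Nonempty := by
    refine ⟨⊤, inferInstance, ?_⟩
    intro hcon
    obtain ⟨g, hg⟩ := h
    have : g ∈ (⊤ : Subgroup G) := Subgroup.mem_top g
    rw [hcon, Subgroup.mem_bot] at this
    exact hg this
  obtain ⟨M, hM⟩ := S.toFinite.exists_minimal hS
  refine ⟨M, hM.prop.1, hM.prop.2, fun K hK hle => ?_⟩
  by_cases hb : K = ⊥
  · exact Or.inl hb
  · exact Or.inr (le_antisymm hle (hM.le_of_le ⟨hK, hb⟩ hle))

/-- Pull back of a normal `p`-subgroup of `G ⧸ M`. -/
theorem pullback {G : Type} [Group G] {M : Subgroup G} [M.Normal] {p : ℕ} {P : Subgroup (G ⧸ M)}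
    (hP : IsPGroup p P) {x : G} (hx : x ∈ P.comap (QuotientGroup.mk' M)) :
    ∃ j, x ^ (p ^ j) ∈ M := by
  obtain ⟨j, hj⟩ := hP ⟨QuotientGroup.mk' M x, hx⟩
  refine ⟨j, ?_⟩
  have h1 := congrArg Subtype.val hj
  have h2 : (QuotientGroup.mk' M x) ^ (p ^ j) = 1 := h1
  rw [← map_pow] at h2
  exact (QuotientGroup.eq_one_iff _).mp h2

/-- The coprime case: `y^(p^v)` centralises a normal `p'`-subgroup. -/
theorem coprime_case {G : Type} [Group G] [Finite G] {d : ℕ} (hL : GLaw G d) {M : Subgroup G}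
    [hM : M.Normal] {p : ℕ} (hp : p.Prime) (hc : ¬ p ∣ Nat.card M) {y : G} {N : ℕ}
    (hy : y ^ (p ^ N) = 1) {v : ℕ} (hv : ¬ p ^ (v + 1) ∣ ed d) :
    ∀ m ∈ M, y ^ (p ^ v) * m = m * y ^ (p ^ v) := by
  have hinv : ∀ x, x ∈ M ↔ MulAut.conj y⁻¹ x ∈ M := by
    intro x
    rw [MulAut.conj_apply]
    constructor
    · intro h; exact hM.conj_mem x h _
    · intro h
      have h1 := hM.conj_mem _ h y
      have h2 : y * (y⁻¹ * x * y⁻¹⁻¹) * y⁻¹ = x := by group
      rwa [h2] at h1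
  let s : MulAut M := restr (MulAut.conj y⁻¹) M hinv
  have hs : ∀ (n : ℕ) (x : M), (((s ^ n) x : M) : G) = (y ^ n)⁻¹ * x * y ^ n := by
    intro n x
    have h1 := restr_pow_apply (MulAut.conj y⁻¹) M hinv n x
    rw [← map_pow, MulAut.conj_apply] at h1
    rw [h1, inv_pow, inv_inv]
  have hSL : SL s d := (hL.sl y).of_inj M.subtype Subtype.val_injective (fun x => rfl)
  have hsN : s ^ (p ^ N) = 1 := by
    ext x
    rw [hs, hy]
    simp
  have hsv : s ^ (p ^ v) = 1 := coprime_fix s hp hc hsN hSL hv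
  intro m hm
  have h1 := hs (p ^ v) ⟨m, hm⟩
  rw [hsv] at h1
  have h2 : m = (y ^ p ^ v)⁻¹ * m * y ^ p ^ v := h1
  calc y ^ p ^ v * m = y ^ p ^ v * ((y ^ p ^ v)⁻¹ * m * y ^ p ^ v) := by rw [← h2]
    _ = m * y ^ p ^ v := by group

/-- If `p` divides the order of a nonabelian minimal normal subgroup, it divides the order of its
components. -/
theorem p_dvd_comp {G : Type} [Group G] [Finite G] {M : Subgroup G} [hMn : M.Normal]
    (hmin : ∀ K : Subgroup G, K.Normal → K ≤ M → K = ⊥ ∨ K = M)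
    (hab : ¬ ∀ a ∈ M, ∀ b ∈ M, a * b = b * a) {T : Subgroup G} (hTM : T ≤ M)
    (hTs : IsSimpleGroup T) (hTn : ¬ ∀ a ∈ T, ∀ b ∈ T, a * b = b * a)
    (hTg : ∀ g : G, (∀ t, t ∈ T ↔ g * t * g⁻¹ ∈ T) ∨
      (∀ t ∈ T, ∀ t' ∈ T, (g * t * g⁻¹) * t' = t' * (g * t * g⁻¹)))
    {p : ℕ} (hp : p.Prime) (hpM : p ∣ Nat.card M) : p ∣ Nat.card T := by
  haveI : Fact p.Prime := ⟨hp⟩
  by_contra hpT
  have hcen : ∀ t ∈ T, (∀ s ∈ T, s * t = t * s) → t = 1 := by
    intro t ht hs
    have h1 : (⟨t, ht⟩ : T) ∈ Subgroup.center T := by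
      rw [Subgroup.mem_center_iff]
      intro g
      exact Subtype.ext (hs g g.2)
    rcases hTs.eq_bot_or_eq_top_of_normal (Subgroup.center T) inferInstance with h2 | h2
    · rw [h2, Subgroup.mem_bot] at h1
      exact congrArg Subtype.val h1
    · exfalso
      apply hTn
      intro a ha b hb
      have h3 : (⟨b, hb⟩ : T) ∈ Subgroup.center T := by rw [h2]; exact Subgroup.mem_top _
      rw [Subgroup.mem_center_iff] at h3
      exact congrArg Subtype.val (h3 ⟨a, ha⟩)
  -- the normal closure of T is M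
  have hNM : Subgroup.normalClosure (T : Set G) = M := by
    rcases hmin _ Subgroup.normalClosure_normal (Subgroup.normalClosure_le_normal hTM) with h | h
    · exfalso
      apply hTn
      have h1 : ∀ t ∈ T, t = 1 := by
        intro t ht
        have : t ∈ Subgroup.normalClosure (T : Set G) := Subgroup.subset_normalClosure ht
        rw [h, Subgroup.mem_bot] at this
        exact this
      intro a ha b hb
      rw [h1 a ha, h1 b hb]
    · exact h
  -- M = T C(T)
  let H : Subgroup G :=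
    { carrier := {m | ∃ t ∈ T, ∃ c : G, (∀ t' ∈ T, c * t' = t' * c) ∧ m = t * c}
      one_mem' := ⟨1, T.one_mem, 1, fun t' _ => by simp, by simp⟩
      mul_mem' := by
        rintro _ _ ⟨t, ht, c, hc, rfl⟩ ⟨t', ht', c', hc', rfl⟩
        refine ⟨t * t', T.mul_mem ht ht', c * c', ?_, ?_⟩
        · intro s hs
          rw [mul_assoc, hc' s hs, ← mul_assoc, hc s hs, mul_assoc]
        · calc t * c * (t' * c') = t * (c * t') * c' := by group
            _ = t * (t' * c) * c' := by rw [hc t' ht']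
            _ = _ := by group
      inv_mem' := by
        rintro _ ⟨t, ht, c, hc, rfl⟩
        have hci : ∀ t' ∈ T, c⁻¹ * t' = t' * c⁻¹ := by
          intro s hs
          have h1 := hc s hs
          calc c⁻¹ * s = c⁻¹ * (s * c) * c⁻¹ := by group
            _ = c⁻¹ * (c * s) * c⁻¹ := by rw [h1]
            _ = s * c⁻¹ := by group
        refine ⟨t⁻¹, T.inv_mem ht, c⁻¹, hci, ?_⟩
        rw [mul_inv_rev, hci _ (T.inv_mem ht)] }
  have hMH : M ≤ H := by
    rw [← hNM]
    unfold Subgroup.normalClosure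
    rw [Subgroup.closure_le]
    intro m hm
    rw [Group.mem_conjugatesOfSet_iff] at hm
    obtain ⟨t, ht, hconj⟩ := hm
    obtain ⟨g, hg⟩ := isConj_iff.mp hconj
    rcases hTg g with h1 | h1
    · refine ⟨m, ?_, 1, fun t' _ => by simp, by simp⟩
      rw [← hg]
      exact (h1 t).mp ht
    · refine ⟨1, T.one_mem, m, ?_, by simp⟩
      intro t' ht'
      rw [← hg]
      exact h1 t ht t' ht'
  have hcenT : ∀ x ∈ M, x ^ p = 1 → ∀ t' ∈ T, x * t' = t' * x := by
    intro x hx hxp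
    obtain ⟨t, ht, c, hc, rfl⟩ := hMH hx
    have hct : Commute t c := (hc t ht).symm
    rw [hct.mul_pow] at hxp
    have h1 : t ^ p = (c ^ p)⁻¹ := eq_inv_of_mul_eq_one_left hxp
    have h2 : t ^ p = 1 := by
      apply hcen _ (T.pow_mem ht p)
      intro s hs
      rw [h1]
      have h3 : Commute c s := hc s hs
      exact ((h3.pow_left p).inv_left).symm.eq
    have h4 : (⟨t, ht⟩ : T) = 1 := no_tor hp hpT _ (Subtype.ext h2)
    have h5 : t = 1 := congrArg Subtype.val h4
    rw [h5, one_mul]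
    exact hc
  obtain ⟨x, hx⟩ := exists_prime_orderOf_dvd_card' (G := M) p hpM
  have hxp : (x : G) ^ p = 1 := by
    have := pow_orderOf_eq_one x
    rw [hx] at this
    exact congrArg Subtype.val this
  have hxcen : ∀ m ∈ M, m * (x : G) = x * m := by
    have h1 : M ≤ Subgroup.centralizer {(x : G)} := by
      refine le_trans hNM.ge ?_
      unfold Subgroup.normalClosure
      rw [Subgroup.closure_le]
      intro m hm
      rw [Group.mem_conjugatesOfSet_iff] at hm
      obtain ⟨t, ht, hconj⟩ := hm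
      obtain ⟨g, hg⟩ := isConj_iff.mp hconj
      have h2 : (g⁻¹ * (x : G) * g) ∈ M := by
        have := hMn.conj_mem x x.2 g⁻¹
        rwa [inv_inv] at this
      have h3 : (g⁻¹ * (x : G) * g) ^ p = 1 := by
        have := conj_pow (i := p) (a := g⁻¹) (b := (x : G))
        rw [inv_inv] at this
        rw [this, hxp]
        group
      have h4 := hcenT _ h2 h3 t ht
      show m ∈ Subgroup.centralizer {(x : G)}
      rw [Subgroup.mem_centralizer_iff]
      rintro _ rfl
      rw [← hg]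
      calc (x : G) * (g * t * g⁻¹) = g * ((g⁻¹ * x * g) * t) * g⁻¹ := by group
        _ = g * (t * (g⁻¹ * x * g)) * g⁻¹ := by rw [h4]
        _ = g * t * g⁻¹ * x := by group
    intro m hm
    exact ((Subgroup.mem_centralizer_iff.mp (h1 hm)) x rfl).symm
  have hcap : M ⊓ Subgroup.centralizer (M : Set G) = ⊥ := by
    rcases hmin (M ⊓ Subgroup.centralizer (M : Set G)) inferInstance inf_le_left with h1 | h1
    · exact h1
    · exfalso
      apply hab
      intro a ha b hb
      have h2 : b ∈ M ⊓ Subgroup.centralizer (M : Set G) := by rw [h1]; exact hb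
      exact (Subgroup.mem_centralizer_iff.mp h2.2) a ha
  have h5 : (x : G) ∈ M ⊓ Subgroup.centralizer (M : Set G) := by
    refine ⟨x.2, ?_⟩
    show (x : G) ∈ Subgroup.centralizer (M : Set G)
    rw [Subgroup.mem_centralizer_iff]
    exact hxcen
  rw [hcap, Subgroup.mem_bot] at h5
  have h6 : x = 1 := Subtype.ext h5
  rw [h6, orderOf_one] at hx
  exact hp.one_lt.ne hx

theorem op_main {p : ℕ} (hp : p.Prime)
    (haut : ∀ (n : ℕ), 5 ≤ n → (p = 2 → n ≠ 6) → ∀ (N : ℕ)
      (φ : MulAut (alternatingGroup (Fin n))), φ ^ (p ^ N) = 1 → ∃ σ : Perm (Fin n),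
      ∀ x : alternatingGroup (Fin n),
        ((φ x : alternatingGroup (Fin n)) : Perm (Fin n)) = σ * x * σ⁻¹) :
    ∀ (n : ℕ) (G : Type) [Group G] [Finite G], Nat.card G = n → PFactors G p → ∀ (d : ℕ),
      GLaw G d → ∀ (y : G) (N : ℕ), y ^ (p ^ N) = 1 → ∀ (v : ℕ),
      ¬ p ^ (v + 1) ∣ ed d → ∃ P : Subgroup G, P.Normal ∧ IsPGroup p P ∧ y ^ (p ^ v) ∈ P := by
  intro n
  induction n using Nat.strong_induction_on with
  | _ n ih =>
  intro G _ _ hcard hG d hL y N hy v hv
  haveI : Fact p.Prime := ⟨hp⟩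
  by_cases htriv : ∃ g : G, g ≠ 1
  swap
  · push Not at htriv
    exact ⟨⊥, inferInstance, IsPGroup.of_bot, by rw [htriv (y ^ p ^ v)]; exact Subgroup.one_mem _⟩
  obtain ⟨M, hMn, hMb, hmin⟩ := exists_min_normal htriv
  haveI := hMn
  have hlt : Nat.card (G ⧸ M) < n := by
    have h1 := Subgroup.card_eq_card_quotient_mul_card_subgroup M
    have h2 : 1 < Nat.card M := (Subgroup.one_lt_card_iff_ne_bot M).mpr hMb
    have h3 : 0 < Nat.card (G ⧸ M) := Nat.card_pos
    rw [← hcard, h1]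
    exact lt_mul_of_one_lt_right h3 h2
  obtain ⟨Pb, hPbn, hPbp, hzPb⟩ := ih _ hlt (G ⧸ M) rfl (hG.quotient M) d (hL.quotient M)
    (QuotientGroup.mk' M y) N (by rw [← map_pow, hy, map_one]) v hv
  haveI := hPbn
  set L := Pb.comap (QuotientGroup.mk' M) with hLdef
  have hLn : L.Normal := inferInstance
  have hzL : y ^ (p ^ v) ∈ L := by
    rw [hLdef, Subgroup.mem_comap, map_pow]; exact hzPb
  have hLM : ∀ x ∈ L, ∃ j, x ^ (p ^ j) ∈ M := fun x hx => pullback hPbp hx
  set C := L ⊓ Subgroup.centralizer (M : Set G) with hC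
  have hCn : C.Normal := by
    rw [hC]; infer_instance
  have hCmem : ∀ x, x ∈ C ↔ x ∈ L ∧ ∀ m ∈ M, m * x = x * m := by
    intro x
    rw [hC, Subgroup.mem_inf, Subgroup.mem_centralizer_iff]
    rfl
  by_cases hpM : p ∣ Nat.card M
  swap
  · -- coprime case
    have hz := coprime_case hL hp hpM hy hv
    have hzC : y ^ (p ^ v) ∈ C := (hCmem _).mpr ⟨hzL, fun m hm => (hz m hm).symm⟩
    let f0 : C →* G ⧸ M := (QuotientGroup.mk' M).comp C.subtype
    have hfp : IsPGroup p f0.range := by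
      refine IsPGroup.to_le hPbp ?_
      rintro _ ⟨x, rfl⟩
      exact ((hCmem x).mp x.2).1
    haveI hnil0 : Group.IsNilpotent f0.range := hfp.isNilpotent
    haveI hnil : Group.IsNilpotent C := by
      refine isNilpotent_of_ker_le_center f0.rangeRestrict ?_
      intro x hx
      rw [MonoidHom.ker_rangeRestrict] at hx
      have hxM : (x : G) ∈ M := (QuotientGroup.eq_one_iff _).mp hx
      rw [Subgroup.mem_center_iff]
      intro g
      apply Subtype.ext
      exact (((hCmem g).mp g.2).2 x hxM).symm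
    let S : Sylow p C := Classical.arbitrary _
    haveI hSc : (S : Subgroup C).Characteristic := S.characteristic_of_normal inferInstance
    refine ⟨(S : Subgroup C).map C.subtype, ConjAct.normal_of_characteristic_of_normal,
      S.isPGroup'.map _, ?_⟩
    refine ⟨⟨y ^ (p ^ v), hzC⟩, ?_, rfl⟩
    have hzp : IsPGroup p (Subgroup.zpowers (⟨y ^ (p ^ v), hzC⟩ : C)) := by
      rw [IsPGroup.iff_card]
      rw [Nat.card_zpowers]
      have h1 : orderOf (⟨y ^ (p ^ v), hzC⟩ : C) ∣ p ^ N := by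
        apply orderOf_dvd_of_pow_eq_one
        apply Subtype.ext
        show (y ^ (p ^ v)) ^ (p ^ N) = 1
        rw [← pow_mul, mul_comm, pow_mul, hy, one_pow]
      obtain ⟨e, -, he⟩ := (Nat.dvd_prime_pow hp).mp h1
      exact ⟨e, he⟩
    obtain ⟨Q, hQ⟩ := hzp.exists_le_sylow
    haveI := Sylow.unique_of_normal S inferInstance
    have hQS : Q = S := Subsingleton.elim _ _
    rw [← hQS]
    exact hQ (Subgroup.mem_zpowers _)
  by_cases hab : ∀ a ∈ M, ∀ b ∈ M, a * b = b * a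
  · -- abelian, elementary abelian p-group
    let Om : Subgroup G :=
      { carrier := {x | x ∈ M ∧ x ^ p = 1}
        one_mem' := ⟨M.one_mem, one_pow p⟩
        mul_mem' := by
          rintro a b ⟨ha, ha'⟩ ⟨hb, hb'⟩
          refine ⟨M.mul_mem ha hb, ?_⟩
          rw [(show Commute a b from hab a ha b hb).mul_pow, ha', hb', one_mul]
        inv_mem' := by
          rintro a ⟨ha, ha'⟩
          exact ⟨M.inv_mem ha, by rw [inv_pow, ha', inv_one]⟩ }
    have hOmn : Om.Normal := by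
      constructor
      rintro x ⟨hx, hx'⟩ g
      exact ⟨hMn.conj_mem x hx g, by rw [conj_pow, hx']; simp⟩
    rcases hmin Om hOmn (fun x hx => hx.1) with hO | hO
    · exfalso
      obtain ⟨x, hx⟩ := exists_prime_orderOf_dvd_card' (G := M) p hpM
      have h1 : (x : G) ∈ Om := by
        refine ⟨x.2, ?_⟩
        have := pow_orderOf_eq_one x
        rw [hx] at this
        exact congrArg Subtype.val this
      rw [hO, Subgroup.mem_bot] at h1
      have h6 : x = 1 := Subtype.ext h1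
      rw [h6, orderOf_one] at hx
      exact hp.one_lt.ne hx
    · refine ⟨L, hLn, ?_, hzL⟩
      rintro ⟨x, hx⟩
      obtain ⟨j, hj⟩ := hLM x hx
      refine ⟨j + 1, ?_⟩
      apply Subtype.ext
      show x ^ (p ^ (j + 1)) = 1
      rw [pow_succ, pow_mul]
      rw [← hO] at hj
      exact hj.2
  · -- nonabelian
    have hz : ∀ m ∈ M, y ^ (p ^ v) * m = m * y ^ (p ^ v) := by
      by_contra hcon
      push Not at hcon
      obtain ⟨T, hTM, hTn, hTs, hTnc, ⟨t, ht, htz⟩, hTg⟩ :=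
        Pool.ENG81.exists_comp M hmin hab (y ^ (p ^ v)) hcon
      have hpT := p_dvd_comp hmin hab hTM hTs hTnc hTg hp hpM
      obtain ⟨k, h5, h6, ⟨Ψ⟩⟩ := hG.component hTM hTn hTs hpT hTnc
      exact htz (comp_case (fun p hp h5 => Pool.ENG81.comb p hp h5) y hp hy T hTs hTnc hTg h5
        (haut k h5 h6 N) Ψ (hL.sl y) hv t ht)
    have hzC : y ^ (p ^ v) ∈ C := (hCmem _).mpr ⟨hzL, fun m hm => (hz m hm).symm⟩
    refine ⟨C, hCn, ?_, hzC⟩
    have hcap : M ⊓ Subgroup.centralizer (M : Set G) = ⊥ := by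
      rcases hmin (M ⊓ Subgroup.centralizer (M : Set G)) inferInstance inf_le_left with h1 | h1
      · exact h1
      · exfalso
        apply hab
        intro a ha b hb
        have h2 : b ∈ M ⊓ Subgroup.centralizer (M : Set G) := by rw [h1]; exact hb
        exact (Subgroup.mem_centralizer_iff.mp h2.2) a ha
    rintro ⟨x, hx⟩
    obtain ⟨hxL, hxc⟩ := (hCmem x).mp hx
    obtain ⟨j, hj⟩ := hLM x hxL
    refine ⟨j, ?_⟩
    apply Subtype.ext
    show x ^ (p ^ j) = 1
    have h3 : x ^ (p ^ j) ∈ M ⊓ Subgroup.centralizer (M : Set G) := by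
      refine ⟨hj, ?_⟩
      show x ^ (p ^ j) ∈ Subgroup.centralizer (M : Set G)
      rw [Subgroup.mem_centralizer_iff]
      intro m hm
      exact ((show Commute m x from hxc m hm).pow_right _).eq
    rw [hcap, Subgroup.mem_bot] at h3
    exact h3

end Pool.Agent.H81.ENG
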