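import Pool.Agent.H81.ENG.Final
import Pool.Agent.H81.ENG.AutOdd

/-!
The `π`-part.
-/

set_option autoImplicit false

namespace Pool.Agent.H81.ENG

open Equiv Equiv.Perm

theorem p_part {G : Type} [Group G] [Finite G] {p : ℕ} (hp : p.Prime) (hG : PFactors G p) {d : ℕ}
    (hL : GLaw G d) (g : G) : ∃ n : ℕ, ¬ p ∣ n ∧ g ^ (ed d * n) ∈ Fit G := by
  refine p_part_aux hp ?_ g
  intro y N hy v hv
  refine op_main hp ?_ (Nat.card G) G rfl hG d hL y N hy v hv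
  intro n h5 h6 N φ hφ
  by_cases hn6 : n = 6
  · have hp2 : p ≠ 2 := fun h => h6 h hn6
    exact Pool.ENG81.aut_alt_odd h5 φ ((hp.odd_of_ne_two hp2).pow) hφ
  · exact Pool.ENG81.aut_alt h5 hn6 φ

theorem pi_part {G : Type} [Group G] [Finite G] (π : Set ℕ)
    (hπ : ∀ p ∈ π, p.Prime ∧ PFactors G p) {d : ℕ} (hL : GLaw G d) :
    ∃ n : ℕ, 0 < n ∧ (∀ p ∈ π, ¬ p ∣ n) ∧ ∀ g : G, g ^ (ed d * n) ∈ Fit G := by
  classical
  have key : ∀ g : G, ∃ n : ℕ, 0 < n ∧ (∀ p ∈ π, ¬ p ∣ n) ∧ g ^ (ed d * n) ∈ Fit G := by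
    intro g
    have h0 : (g ^ ed d) ^ (orderOf g) ∈ Fit G := by
      rw [← pow_mul, mul_comm, pow_mul, pow_orderOf_eq_one, one_pow]
      exact Subgroup.one_mem _
    obtain ⟨m, hm0, hmF, hmd⟩ := exists_min_exp (Fit G) (orderOf_pos g) h0
    refine ⟨m, hm0, ?_, by rw [pow_mul]; exact hmF⟩
    intro p hp hpm
    obtain ⟨n, hn, hg⟩ := p_part (hπ p hp).1 (hπ p hp).2 hL g
    rw [pow_mul] at hg
    exact hn (dvd_trans hpm (hmd n hg))
  choose f hf0 hfp hfF using key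
  haveI : Fintype G := Fintype.ofFinite G
  refine ⟨∏ g : G, f g, Finset.prod_pos (fun g _ => hf0 g), ?_, ?_⟩
  · intro p hp hpd
    obtain ⟨g, -, hg⟩ := (Prime.dvd_finset_prod_iff (hπ p hp).1.prime f).mp hpd
    exact hfp g p hp hg
  · intro g
    obtain ⟨k, hk⟩ := Finset.dvd_prod_of_mem f (Finset.mem_univ g)
    rw [hk, ← mul_assoc, pow_mul]
    exact Subgroup.pow_mem _ (hfF g) k

end Pool.Agent.H81.ENG
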