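import Pool.Agent.H81.ENG.Ext

/-!
From the law of a group to the law of twisted sequences.
-/

set_option autoImplicit false
set_option linter.style.haveILetI false

namespace Pool.Agent.H81.ENG

open Equiv Equiv.Perm

section

variable {G : Type*} [Group G]

/-- ordered product `f 0 * ... * f (n-1)` -/
def pr (f : ℕ → G) : ℕ → G
  | 0 => 1
  | n + 1 => pr f n * f n

theorem pr_comm {f : ℕ → G} {x : G} {n : ℕ} (h : ∀ i < n, Commute x (f i)) :
    Commute x (pr f n) := by
  induction n with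
  | zero => exact Commute.one_right x
  | succ n ih =>
    exact (ih (fun i hi => h i (by omega))).mul_right (h n (by omega))

theorem pr_mul {f g : ℕ → G} {n : ℕ} (h : ∀ i < n, ∀ j < n, i ≠ j → Commute (f i) (g j)) :
    pr (fun i => f i * g i) n = pr f n * pr g n := by
  induction n with
  | zero => simp [pr]
  | succ n ih =>
    have h1 : Commute (f n) (pr g n) := pr_comm (fun i hi => h n (by omega) i (by omega) (by omega))
    show pr (fun i => f i * g i) n * (f n * g n) = pr f n * f n * (pr g n * g n)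
    rw [ih (fun i hi j hj hij => h i (by omega) j (by omega) hij)]
    calc pr f n * pr g n * (f n * g n) = pr f n * (pr g n * f n) * g n := by group
      _ = pr f n * (f n * pr g n) * g n := by rw [h1.eq]
      _ = _ := by group

theorem pr_conj (y : G) (f : ℕ → G) (n : ℕ) :
    y⁻¹ * pr f n * y = pr (fun i => y⁻¹ * f i * y) n := by
  induction n with
  | zero => simp [pr]
  | succ n ih =>
    show y⁻¹ * (pr f n * f n) * y = pr (fun i => y⁻¹ * f i * y) n * (y⁻¹ * f n * y)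
    rw [← ih]; group

theorem pr_shift (f : ℕ → G) (n : ℕ) : pr f (n + 1) = f 0 * pr (fun i => f (i + 1)) n := by
  induction n with
  | zero => simp [pr]
  | succ n ih =>
    show pr f (n + 1) * f (n + 1) = f 0 * (pr (fun i => f (i + 1)) n * f (n + 1))
    rw [ih, mul_assoc]

theorem pr_split (f : ℕ → G) (n j : ℕ) (hj : j < n) : ∃ A C : G, pr f n = A * f j * C ∧
    ∀ S : G, (∀ i < n, i ≠ j → Commute S (f i)) → Commute S A ∧ Commute S C := by
  induction n with
  | zero => omega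
  | succ n ih =>
    rcases Nat.lt_or_ge j n with h | h
    · obtain ⟨A, C, h1, h2⟩ := ih h
      refine ⟨A, C * f n, ?_, ?_⟩
      · show pr f n * f n = _
        rw [h1]; group
      · intro S hS
        have h3 := h2 S (fun i hi hij => hS i (by omega) hij)
        exact ⟨h3.1, h3.2.mul_right (hS n (by omega) (by omega))⟩
    · have hjn : j = n := by omega
      subst hjn
      refine ⟨pr f j, 1, ?_, ?_⟩
      · show pr f j * f j = _
        rw [mul_one]
      · intro S hS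
        exact ⟨pr_comm (fun i hi => hS i (by omega) (by omega)), Commute.one_right S⟩

theorem pr_eq_one (f : ℕ → G) (n j : ℕ) (hj : j < n) (h : pr f n = 1) (S : G)
    (hS : ∀ i < n, i ≠ j → Commute S (f i)) : Commute S (f j) := by
  obtain ⟨A, C, h1, h2⟩ := pr_split f n j hj
  obtain ⟨h3, h4⟩ := h2 S hS
  rw [h1] at h
  have h5 : f j = A⁻¹ * C⁻¹ := by
    calc f j = A⁻¹ * (A * f j * C) * C⁻¹ := by group
      _ = A⁻¹ * C⁻¹ := by rw [h, mul_one]
  rw [h5]
  exact h3.inv_right.mul_right h4.inv_right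

theorem prod_law {Ω : Type*} [Fintype Ω] [DecidableEq Ω] (y : G) (T : Subgroup G) {k : ℕ}
    (hk : 0 < k)
    (hcommT : ∀ i < k, ∀ j < k, i ≠ j → ∀ s ∈ T, ∀ t ∈ T,
      Commute (y ^ i * s * (y ^ i)⁻¹) (y ^ j * t * (y ^ j)⁻¹))
    (hnorm : ∀ t ∈ T, (y ^ k)⁻¹ * t * y ^ k ∈ T)
    (hcen : ∀ t ∈ T, (∀ s ∈ T, Commute s t) → t = 1)
    (Ψ : T ≃* alternatingGroup Ω) (σ : Perm Ω)
    (hΨ : ∀ t : T, ((Ψ ⟨(y ^ k)⁻¹ * t * y ^ k, hnorm t t.2⟩ : alternatingGroup Ω) : Perm Ω) =
      σ⁻¹ * (Ψ t : Perm Ω) * σ)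
    {d : ℕ} (hL : SL (MulAut.conj y⁻¹) d) : ALaw σ k d := by
  -- slots
  let φ : ASeq σ k → ℤ → T := fun ξ i =>
    Ψ.symm ⟨(ξ : ℤ → Perm Ω) i, mem_alternatingGroup.mpr (ξ.2.1 i)⟩
  have hφmul : ∀ ξ η i, φ (ξ * η) i = φ ξ i * φ η i := by
    intro ξ η i
    simp only [φ]
    rw [← map_mul]
    rfl
  let sl : ASeq σ k → ℕ → G := fun ξ i => y ^ i * (φ ξ i : G) * (y ^ i)⁻¹
  have hslc : ∀ ξ η, ∀ i < k, ∀ j < k, i ≠ j → Commute (sl ξ i) (sl η j) :=
    fun ξ η i hi j hj hij => hcommT i hi j hj hij _ (φ ξ i).2 _ (φ η j).2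
  let Θ : ASeq σ k →* G :=
    { toFun := fun ξ => pr (sl ξ) k
      map_one' := by
        have h1 : ∀ n, pr (sl 1) n = 1 := by
          intro n
          induction n with
          | zero => rfl
          | succ n ih =>
            show pr (sl 1) n * sl 1 n = 1
            rw [ih, one_mul]
            have h2 : φ 1 n = 1 := by
              simp only [φ]
              have h3 : (⟨((1 : ASeq σ k) : ℤ → Perm Ω) n, mem_alternatingGroup.mpr
                ((1 : ASeq σ k).2.1 n)⟩ : alternatingGroup Ω) = 1 := rfl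
              rw [h3, map_one]
            simp only [sl]
            rw [h2]
            simp
        exact h1 k
      map_mul' := by
        intro ξ η
        show pr (sl (ξ * η)) k = pr (sl ξ) k * pr (sl η) k
        rw [← pr_mul (hslc ξ η)]
        congr 1
        funext i
        simp only [sl]
        rw [hφmul]
        push_cast
        group }
  have hΘ : ∀ ξ, Θ ξ = pr (sl ξ) k := fun _ => rfl
  refine SL.of_inj (s' := MulAut.conj y⁻¹) Θ ?_ ?_ hL
  · -- injective
    rw [injective_iff_map_eq_one]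
    intro ξ hξ
    rw [hΘ] at hξ
    have h1 : ∀ j : ℕ, j < k → (ξ : ℤ → Perm Ω) (j : ℤ) = 1 := by
      intro j hj
      have h2 : (φ ξ j : G) = 1 := by
        apply hcen _ (φ ξ j).2
        intro s hs
        have h3 := pr_eq_one (sl ξ) k j hj hξ (y ^ j * s * (y ^ j)⁻¹)
          (fun i hi hij => hcommT j hj i hi hij.symm s hs _ (φ ξ i).2)
        have h4 : (y ^ j)⁻¹ * ((y ^ j * s * (y ^ j)⁻¹) * (y ^ j * (φ ξ j : G) * (y ^ j)⁻¹)) * y ^ j =
          (y ^ j)⁻¹ * ((y ^ j * (φ ξ j : G) * (y ^ j)⁻¹) * (y ^ j * s * (y ^ j)⁻¹)) * y ^ j :=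
          congrArg (fun g => (y ^ j)⁻¹ * g * y ^ j) h3.eq
        calc s * (φ ξ j : G) = (y ^ j)⁻¹ * ((y ^ j * s * (y ^ j)⁻¹) *
              (y ^ j * (φ ξ j : G) * (y ^ j)⁻¹)) * y ^ j := by group
          _ = (y ^ j)⁻¹ * ((y ^ j * (φ ξ j : G) * (y ^ j)⁻¹) * (y ^ j * s * (y ^ j)⁻¹)) * y ^ j := h4
          _ = (φ ξ j : G) * s := by group
      have h5 : φ ξ j = 1 := Subtype.ext h2
      simp only [φ] at h5
      have h6 := (MulEquiv.map_eq_one_iff Ψ.symm).mp h5
      exact congrArg Subtype.val h6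
    apply Subtype.ext
    funext i
    have hkz : (k : ℤ) ≠ 0 := by exact_mod_cast hk.ne'
    have h7 := tw_zpow σ (ξ : ℤ → Perm Ω) k ξ.2.2 (i / k) (i % k)
    rw [Int.emod_add_mul_ediv] at h7
    have hge : 0 ≤ i % k := Int.emod_nonneg _ hkz
    have hlt : i % k < k := Int.emod_lt_of_pos _ (by exact_mod_cast hk)
    have h8 : (((i % k).toNat : ℕ) : ℤ) = i % k := Int.toNat_of_nonneg hge
    have h9 := h1 (i % k).toNat (by omega)
    rw [h8] at h9
    rw [h7, h9, mul_one, ← zpow_add, neg_add_cancel, zpow_zero]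
    rfl
  · -- equivariance
    intro ξ
    rw [hΘ, hΘ]
    obtain ⟨n, rfl⟩ : ∃ n, k = n + 1 := ⟨k - 1, by omega⟩
    have h1 : MulAut.conj y⁻¹ (pr (sl ξ) (n + 1)) = y⁻¹ * pr (sl ξ) (n + 1) * y := by
      rw [MulAut.conj_apply, inv_inv]
    rw [h1, pr_conj, pr_shift (fun i => y⁻¹ * sl ξ i * y)]
    have hφs : ∀ i : ℕ, φ (ash σ (n + 1) ξ) i = φ ξ (i + 1) := fun i => rfl
    have h2 : (fun i => y⁻¹ * sl ξ (i + 1) * y) = sl (ash σ (n + 1) ξ) := by
      funext i
      simp only [sl]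
      rw [hφs, pow_succ' y i]
      push_cast
      group
    have h2' : (fun i => (fun i => y⁻¹ * sl ξ i * y) (i + 1)) = sl (ash σ (n + 1) ξ) := h2
    rw [h2']
    have h3 : y⁻¹ * sl ξ 0 * y = sl (ash σ (n + 1) ξ) n := by
      simp only [sl]
      rw [hφs]
      have h4 : φ ξ ((n : ℤ) + 1) = ⟨(y ^ (n + 1))⁻¹ * (φ ξ 0 : G) * y ^ (n + 1),
          hnorm _ (φ ξ 0).2⟩ := by
        apply Ψ.injective
        apply Subtype.ext
        rw [hΨ (φ ξ 0)]
        simp only [φ]
        rw [MulEquiv.apply_symm_apply, MulEquiv.apply_symm_apply]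
        have h5 := ξ.2.2 0
        rw [zero_add] at h5
        have h6 : (((n + 1 : ℕ) : ℤ)) = (n : ℤ) + 1 := by push_cast; ring
        rw [h6] at h5
        exact h5
      rw [h4]
      show y⁻¹ * (y ^ 0 * (φ ξ ((0 : ℕ) : ℤ) : G) * (y ^ 0)⁻¹) * y =
        y ^ n * ((y ^ (n + 1))⁻¹ * (φ ξ 0 : G) * y ^ (n + 1)) * (y ^ n)⁻¹
      rw [pow_zero, Nat.cast_zero, pow_succ]
      group
    show pr (sl (ash σ (n + 1) ξ)) n * sl (ash σ (n + 1) ξ) n =
      y⁻¹ * sl ξ 0 * y * pr (sl (ash σ (n + 1) ξ)) n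
    rw [h3]
    have h4 : Commute (sl (ash σ (n + 1) ξ) n) (pr (sl (ash σ (n + 1) ξ)) n) :=
      pr_comm (fun i hi => hslc _ _ n (by omega) i (by omega) (by omega))
    exact h4.eq.symm

end

end Pool.Agent.H81.ENG
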