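import Pool.Agent.H81.ENG.Basic

/-!
Eigen-sequences of the difference operator over `F_q` coming from a `p^μ`-th root of unity.
-/

set_option autoImplicit false
set_option linter.style.haveILetI false

namespace Pool.Agent.H81.ENG

theorem prime_pow_dvd_lcm {p μ a b : ℕ} (hp : p.Prime) (ha : a ≠ 0) (hb : b ≠ 0)
    (h : p ^ μ ∣ Nat.lcm a b) : p ^ μ ∣ a ∨ p ^ μ ∣ b := by
  rw [hp.pow_dvd_iff_le_factorization (Nat.lcm_ne_zero ha hb), Nat.factorization_lcm ha hb,
    Finsupp.sup_apply, le_sup_iff] at h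
  rcases h with h | h
  · exact Or.inl ((hp.pow_dvd_iff_le_factorization ha).mpr h)
  · exact Or.inr ((hp.pow_dvd_iff_le_factorization hb).mpr h)

/-- In a finite field, if `p^μ` divides the order of `ω` then `ζ` is a positive power of `ω`. -/
theorem pow_of_dvd_order {K : Type*} [Field K] {M : ℕ} (hM : 1 < M) {ζ ω : K}
    (hζ : IsPrimitiveRoot ζ M) (hω0 : orderOf ω ≠ 0) (hd : M ∣ orderOf ω) :
    ∃ r : ℕ, 0 < r ∧ ω ^ r = ζ := by
  obtain ⟨e, he⟩ := hd
  have h1 : IsPrimitiveRoot (ω ^ e) M :=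
    (IsPrimitiveRoot.orderOf ω).pow (Nat.pos_of_ne_zero hω0) (by rw [he, mul_comm])
  haveI : NeZero M := ⟨by omega⟩
  obtain ⟨i, -, hi⟩ := h1.eq_pow_of_pow_eq_one hζ.pow_eq_one
  refine ⟨e * i, ?_, by rw [pow_mul, hi]⟩
  rcases Nat.eq_zero_or_pos (e * i) with h | h
  · exfalso
    rw [← pow_mul, h, pow_zero] at hi
    exact hζ.ne_one hM hi.symm
  · exact h

theorem root_field {p q : ℕ} (hp : p.Prime) [hq : Fact q.Prime] (hpq : p ≠ q) {μ : ℕ}
    (hμ : 2 < p ^ μ) {K : Type} [Field K] [Finite K] {ζ : K}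
    (hζ : IsPrimitiveRoot ζ (p ^ μ)) :
    (∃ r : ℕ, 0 < r ∧ (ζ - 1) ^ r = ζ) ∨ (∃ r : ℕ, 0 < r ∧ (ζ⁻¹ - 1) ^ r = ζ⁻¹) := by
  have hM1 : 1 < p ^ μ := by omega
  have hζ0 : ζ ≠ 0 := hζ.ne_zero (by omega)
  have hζ1 : ζ ≠ 1 := hζ.ne_one hM1
  have hζ' : IsPrimitiveRoot ζ⁻¹ (p ^ μ) := hζ.inv
  set ω := ζ - 1 with hω
  set ω' := ζ⁻¹ - 1 with hω'
  have hω0 : ω ≠ 0 := sub_ne_zero.mpr hζ1
  have hω'0 : ω' ≠ 0 := sub_ne_zero.mpr (hζ'.ne_one hM1)
  have hrel : ω = -ζ * ω' := by rw [hω, hω']; field_simp; ring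
  have hord : ∀ x : K, x ≠ 0 → orderOf x ≠ 0 := by
    intro x hx
    have h1 : IsOfFinOrder (Units.mk0 x hx) := isOfFinOrder_of_finite _
    have h2 := h1.orderOf_pos
    rw [← orderOf_units] at h2
    exact h2.ne'
  -- p^μ divides the order of -ζ
  have hneg : ∀ n : ℕ, (-ζ) ^ n = 1 → p ^ μ ∣ n := by
    intro n hn
    rcases hp.eq_two_or_odd' with h2 | hodd
    · subst h2
      -- -1 = ζ^(M/2)
      obtain ⟨ν, rfl⟩ : ∃ ν, μ = ν + 2 := by
        rcases μ with _ | _ | ν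
        · norm_num at hμ
        · norm_num at hμ
        · exact ⟨ν, rfl⟩
      have hm : ζ ^ (2 ^ (ν + 1)) = -1 := by
        have hprim : IsPrimitiveRoot (ζ ^ (2 ^ (ν + 1))) 2 :=
          hζ.pow (pow_pos (by norm_num) _) (by rw [← pow_succ])
        exact hprim.eq_neg_one_of_two_right
      have h3 : -ζ = ζ ^ (2 ^ (ν + 1) + 1) := by rw [pow_succ, hm, neg_one_mul]
      rw [h3, ← pow_mul] at hn
      have h4 := hζ.dvd_of_pow_eq_one _ hn
      have hcop : Nat.Coprime (2 ^ (ν + 2)) (2 ^ (ν + 1) + 1) := by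
        apply Nat.Coprime.pow_left
        rw [Nat.Prime.coprime_iff_not_dvd Nat.prime_two, pow_succ]
        omega
      exact hcop.dvd_of_dvd_mul_left h4
    · have h3 : ζ ^ (2 * n) = 1 := by
        calc ζ ^ (2 * n) = ((-ζ) ^ n) ^ 2 := by rw [← pow_mul, mul_comm n 2, pow_mul, pow_mul,
              neg_sq]
          _ = 1 := by rw [hn, one_pow]
      have h4 := hζ.dvd_of_pow_eq_one _ h3
      have hcop : Nat.Coprime (p ^ μ) 2 :=
        Nat.Coprime.pow_left _ ((Nat.coprime_two_right).mpr hodd)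
      exact hcop.dvd_of_dvd_mul_left h4
  have hdvd : p ^ μ ∣ Nat.lcm (orderOf ω) (orderOf ω') := by
    apply hneg
    have h5 : -ζ = ω * ω'⁻¹ := by rw [hrel]; field_simp
    rw [h5, mul_pow, inv_pow, orderOf_dvd_iff_pow_eq_one.mp (Nat.dvd_lcm_left _ _),
      orderOf_dvd_iff_pow_eq_one.mp (Nat.dvd_lcm_right _ _), inv_one, mul_one]
  rcases prime_pow_dvd_lcm hp (hord ω hω0) (hord ω' hω'0) hdvd with h | h
  · exact Or.inl (pow_of_dvd_order hM1 hζ (hord ω hω0) h)
  · exact Or.inr (pow_of_dvd_order hM1 hζ' (hord ω' hω'0) h)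

theorem root_seq {p q : ℕ} (hp : p.Prime) [hq : Fact q.Prime] (hpq : p ≠ q) {μ : ℕ}
    (hμ : 2 < p ^ μ) :
    ∃ a : ℤ → ZMod q, a 0 = 1 ∧ (∀ i, a (i + ((p ^ μ : ℕ) : ℤ)) = a i) ∧
      (∀ m : ℕ, 2 * m = p ^ μ → ∀ i, a (i + m) = - a i) ∧
      (∀ k l : ℕ, k * l = p ^ μ → 1 < l → ∀ i : ℤ, ∑ r ∈ Finset.range l, a (i + k * r) = 0) ∧
      ((∃ r : ℕ, 0 < r ∧ ∀ i, ((fun (b : ℤ → ZMod q) j => b (j + 1) - b j)^[r] a) i = a (i + 1)) ∨
       (∃ r : ℕ, 0 < r ∧ ∀ i, ((fun (b : ℤ → ZMod q) j => b (j - 1) - b j)^[r] a) i = a (i - 1)))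
      := by
  have hMq : ((p ^ μ : ℕ) : ZMod q) ≠ 0 := by
    rw [Ne, ZMod.natCast_eq_zero_iff]
    intro h
    have := hq.out.dvd_of_dvd_pow h
    exact hpq ((Nat.prime_dvd_prime_iff_eq hq.out hp).mp this).symm
  haveI : NeZero ((p ^ μ : ℕ) : ZMod q) := ⟨hMq⟩
  haveI : NeZero (p ^ μ) := ⟨by omega⟩
  let K := CyclotomicField (p ^ μ) (ZMod q)
  haveI : Finite K := by
    haveI : FiniteDimensional (ZMod q) K :=
      IsCyclotomicExtension.finiteDimensional {p ^ μ} (ZMod q) K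
    exact Module.finite_of_finite (ZMod q)
  let ζ : K := IsCyclotomicExtension.zeta (p ^ μ) (ZMod q) K
  have hζ : IsPrimitiveRoot ζ (p ^ μ) := IsCyclotomicExtension.zeta_spec (p ^ μ) (ZMod q) K
  have hζ0 : ζ ≠ 0 := hζ.ne_zero (by omega)
  obtain ⟨L, hL⟩ : ∃ L : K →ₗ[ZMod q] ZMod q, L 1 = 1 := by
    obtain ⟨g, hg⟩ := (Algebra.linearMap (ZMod q) K).exists_leftInverse_of_injective
      (LinearMap.ker_eq_bot.mpr (algebraMap (ZMod q) K).injective)
    refine ⟨g, ?_⟩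
    have := congrArg (fun f => f (1 : ZMod q)) hg
    simpa using this
  refine ⟨fun i => L (ζ ^ i), ?_, ?_, ?_, ?_, ?_⟩
  · simp [hL]
  · intro i
    show L (ζ ^ (i + ((p ^ μ : ℕ) : ℤ))) = L (ζ ^ i)
    rw [zpow_add₀ hζ0, zpow_natCast, hζ.pow_eq_one, mul_one]
  · intro m hm i
    have hm1 : ζ ^ m = -1 := by
      have hprim : IsPrimitiveRoot (ζ ^ m) 2 :=
        hζ.pow (by omega) (by omega)
      exact hprim.eq_neg_one_of_two_right
    show L (ζ ^ (i + (m : ℤ))) = - L (ζ ^ i)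
    rw [zpow_add₀ hζ0, zpow_natCast, hm1, mul_neg_one, map_neg]
  · intro k l hkl hl i
    have hk : 0 < k := Nat.pos_of_ne_zero (by rintro rfl; omega)
    have hprim : IsPrimitiveRoot (ζ ^ k) l := hζ.pow (by omega) hkl.symm
    have h1 := hprim.geom_sum_eq_zero hl
    show ∑ r ∈ Finset.range l, L (ζ ^ (i + (k : ℤ) * (r : ℤ))) = 0
    have h2 : ∀ r ∈ Finset.range l, L (ζ ^ (i + (k : ℤ) * (r : ℤ))) = L (ζ ^ i * (ζ ^ k) ^ r) := by
      intro r _
      congr 1
      rw [zpow_add₀ hζ0, zpow_mul, zpow_natCast, zpow_natCast]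
    rw [Finset.sum_congr rfl h2, ← map_sum, ← Finset.mul_sum, h1, mul_zero, map_zero]
  · rcases root_field hp hpq hμ hζ with ⟨r, hr, h⟩ | ⟨r, hr, h⟩
    · left
      refine ⟨r, hr, ?_⟩
      have key : ∀ (n : ℕ) (x : K), ((fun (b : ℤ → ZMod q) j => b (j + 1) - b j)^[n]
          (fun i => L (x * ζ ^ i))) = fun i => L (x * (ζ - 1) ^ n * ζ ^ i) := by
        intro n
        induction n with
        | zero => intro x; simp
        | succ n ih =>
          intro x
          rw [Function.iterate_succ_apply]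
          have : (fun j : ℤ => L (x * ζ ^ (j + 1)) - L (x * ζ ^ j)) =
              fun i => L (x * (ζ - 1) * ζ ^ i) := by
            funext j
            rw [← map_sub, zpow_add_one₀ hζ0]
            congr 1
            ring
          show ((fun (b : ℤ → ZMod q) (j : ℤ) => b (j + 1) - b j)^[n]
              (fun j : ℤ => L (x * ζ ^ (j + 1)) - L (x * ζ ^ j))) = _
          rw [this, ih]
          funext i
          congr 1
          ring
      intro i
      have := congrFun (key r 1) i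
      simp only [one_mul] at this
      show _ = L (ζ ^ (i + 1))
      rw [this, h, zpow_add_one₀ hζ0]
      congr 1
      ring
    · right
      refine ⟨r, hr, ?_⟩
      have key : ∀ (n : ℕ) (x : K), ((fun (b : ℤ → ZMod q) j => b (j - 1) - b j)^[n]
          (fun i => L (x * ζ ^ i))) = fun i => L (x * (ζ⁻¹ - 1) ^ n * ζ ^ i) := by
        intro n
        induction n with
        | zero => intro x; simp
        | succ n ih =>
          intro x
          rw [Function.iterate_succ_apply]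
          have : (fun j : ℤ => L (x * ζ ^ (j - 1)) - L (x * ζ ^ j)) =
              fun i => L (x * (ζ⁻¹ - 1) * ζ ^ i) := by
            funext j
            rw [← map_sub, zpow_sub_one₀ hζ0]
            congr 1
            ring
          show ((fun (b : ℤ → ZMod q) (j : ℤ) => b (j - 1) - b j)^[n]
              (fun j : ℤ => L (x * ζ ^ (j - 1)) - L (x * ζ ^ j))) = _
          rw [this, ih]
          funext i
          congr 1
          ring
      intro i
      have := congrFun (key r 1) i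
      simp only [one_mul] at this
      show _ = L (ζ ^ (i - 1))
      rw [this, h, zpow_sub_one₀ hζ0]
      congr 1
      ring

end Pool.Agent.H81.ENG
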