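import Pool.Agent.H81.ENG.Unip
import Pool.Agent.H81.ENG.Root

/-!
Twisted periodic sequences and the base theorem.
-/

set_option autoImplicit false
set_option linter.style.haveILetI false

namespace Pool.Agent.H81.ENG

/-- Restriction of an automorphism to an invariant subgroup. -/
def restr {G : Type*} [Group G] (s : MulAut G) (H : Subgroup G) (h : ∀ x, x ∈ H ↔ s x ∈ H) :
    MulAut H where
  toFun x := ⟨s x, (h x).mp x.2⟩
  invFun x := ⟨s⁻¹ x, (h _).mpr (by rw [MulAut.apply_inv_self]; exact x.2)⟩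
  left_inv x := by apply Subtype.ext; simp
  right_inv x := by apply Subtype.ext; simp
  map_mul' x y := by apply Subtype.ext; simp

@[simp] theorem restr_apply {G : Type*} [Group G] (s : MulAut G) (H : Subgroup G)
    (h : ∀ x, x ∈ H ↔ s x ∈ H) (x : H) : ((restr s H h x : H) : G) = s x := rfl

theorem restr_inv_apply {G : Type*} [Group G] (s : MulAut G) (H : Subgroup G)
    (h : ∀ x, x ∈ H ↔ s x ∈ H) (x : H) : (((restr s H h)⁻¹ x : H) : G) = s⁻¹ x := rfl

theorem restr_pow_apply {G : Type*} [Group G] (s : MulAut G) (H : Subgroup G)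
    (h : ∀ x, x ∈ H ↔ s x ∈ H) (n : ℕ) (x : H) :
    ((((restr s H h) ^ n) x : H) : G) = (s ^ n) x := by
  induction n generalizing x with
  | zero => rfl
  | succ n ih => rw [pow_succ, pow_succ, MulAut.mul_apply, MulAut.mul_apply, ih]; rfl

/-- The shift of two-sided sequences. -/
def shift (P : Type*) [Group P] : MulAut (ℤ → P) where
  toFun ξ := fun i => ξ (i + 1)
  invFun ξ := fun i => ξ (i - 1)
  left_inv ξ := by funext i; simp
  right_inv ξ := by funext i; simp
  map_mul' _ _ := rfl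

@[simp] theorem shift_apply {P : Type*} [Group P] (ξ : ℤ → P) (i : ℤ) :
    shift P ξ i = ξ (i + 1) := rfl

@[simp] theorem shift_inv_apply {P : Type*} [Group P] (ξ : ℤ → P) (i : ℤ) :
    (shift P)⁻¹ ξ i = ξ (i - 1) := rfl

theorem shift_pow_apply {P : Type*} [Group P] (n : ℕ) (ξ : ℤ → P) (i : ℤ) :
    ((shift P) ^ n) ξ i = ξ (i + n) := by
  induction n generalizing ξ i with
  | zero => simp
  | succ n ih =>
    rw [pow_succ, MulAut.mul_apply, ih, shift_apply]
    congr 1
    push_cast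
    ring

/-- `x ^ c` for `c : ZMod q`. -/
def pw {Q : Type*} [Group Q] (x : Q) {q : ℕ} (c : ZMod q) : Q := x ^ c.val

theorem pw_add {Q : Type*} [Group Q] {x : Q} {q : ℕ} [NeZero q] (hx : x ^ q = 1) (c e : ZMod q) :
    pw x (c + e) = pw x c * pw x e := by
  unfold pw
  rw [ZMod.val_add, ← pow_add]
  conv_rhs => rw [← Nat.mod_add_div (c.val + e.val) q, pow_add, pow_mul, hx, one_pow, mul_one]

theorem pw_zero {Q : Type*} [Group Q] (x : Q) {q : ℕ} : pw x (0 : ZMod q) = 1 := by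
  unfold pw; simp

theorem pw_neg {Q : Type*} [Group Q] {x : Q} {q : ℕ} [NeZero q] (hx : x ^ q = 1) (c : ZMod q) :
    pw x (-c) = (pw x c)⁻¹ := by
  apply eq_inv_of_mul_eq_one_left
  rw [← pw_add hx, neg_add_cancel, pw_zero]

theorem pw_one {Q : Type*} [Group Q] (x : Q) {q : ℕ} (hq : 1 < q) : pw x (1 : ZMod q) = x := by
  unfold pw
  haveI : Fact (1 < q) := ⟨hq⟩
  rw [ZMod.val_one, pow_one]

theorem pw_map {Q Q' : Type*} [Group Q] [Group Q'] (f : Q →* Q') (x : Q) {q : ℕ} (c : ZMod q) :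
    f (pw x c) = pw (f x) c := by
  unfold pw; rw [map_pow]

theorem pw_sum {Q : Type*} [CommGroup Q] {x : Q} {q : ℕ} [NeZero q] (hx : x ^ q = 1)
    (s : Finset ℕ) (F : ℕ → ZMod q) : ∏ r ∈ s, pw x (F r) = pw x (∑ r ∈ s, F r) := by
  induction s using Finset.cons_induction with
  | empty => simp [pw_zero]
  | cons a s ha ih => rw [Finset.prod_cons, Finset.sum_cons, pw_add hx, ih]

/-- The data of a base group: `N0 ≤ W` normal in `P`, `N0` elementary abelian of order `p^h`,
`ρ` a `q`-element of `W`, `y ∈ P`, `y^h ∈ N0`. -/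
structure Base (P : Type*) [Group P] (p q h : ℕ) where
  W : Subgroup P
  N0 : Subgroup P
  y : P
  ρ : P
  χ : P →* ℤˣ
  nW : W.Normal
  nN : N0.Normal
  le : N0 ≤ W
  comm : ∀ a ∈ N0, ∀ b ∈ N0, a * b = b * a
  exp : ∀ a ∈ N0, a ^ p = 1
  card : Nat.card N0 = p ^ h
  zN : y ^ h ∈ N0
  ρW : ρ ∈ W
  ρq : ρ ^ q = 1
  nc : y ^ h * ρ ≠ ρ * y ^ h
  χN : ∀ a ∈ N0, χ a = 1
  tw : (h = 1 ∧ y⁻¹ * ρ * y * ρ⁻¹ ∈ N0) ∨ (h = 2 ∧ y⁻¹ * ρ * y * ρ ∈ N0)

/-- Twisted periodic sequences. -/
def Base.TS {P : Type*} [Group P] {p q h : ℕ} (D : Base P p q h) (m k l : ℕ) :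
    Subgroup (ℤ → P) where
  carrier := {η | (∀ i, η i ∈ D.W) ∧ (∀ i, η (i + m) = D.y⁻¹ * η i * D.y) ∧
    ∀ i, ∏ r ∈ Finset.range l, D.χ (η (i + k * r)) = 1}
  one_mem' := ⟨fun i => D.W.one_mem, fun i => by simp, fun i => by simp⟩
  mul_mem' := by
    rintro a b ⟨ha1, ha2, ha3⟩ ⟨hb1, hb2, hb3⟩
    refine ⟨fun i => D.W.mul_mem (ha1 i) (hb1 i), fun i => ?_, fun i => ?_⟩
    · rw [Pi.mul_apply, Pi.mul_apply, ha2, hb2]; group
    · simp only [Pi.mul_apply, map_mul]
      rw [Finset.prod_mul_distrib, ha3, hb3, one_mul]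
  inv_mem' := by
    rintro a ⟨ha1, ha2, ha3⟩
    refine ⟨fun i => D.W.inv_mem (ha1 i), fun i => ?_, fun i => ?_⟩
    · rw [Pi.inv_apply, Pi.inv_apply, ha2]; group
    · simp only [Pi.inv_apply, map_inv]
      rw [Finset.prod_inv_distrib, ha3, inv_one]

theorem Base.TS_shift {P : Type*} [Group P] {p q h : ℕ} (D : Base P p q h) (m k l : ℕ)
    (ξ : ℤ → P) : ξ ∈ D.TS m k l ↔ shift P ξ ∈ D.TS m k l := by
  constructor
  · rintro ⟨h1, h2, h3⟩
    refine ⟨fun i => h1 _, fun i => ?_, fun i => ?_⟩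
    · rw [shift_apply, shift_apply, ← h2]; congr 1; ring
    · have := h3 (i + 1)
      simp only [shift_apply]
      rw [← this]
      apply Finset.prod_congr rfl
      intro r _
      congr 2
      ring
  · rintro ⟨h1, h2, h3⟩
    refine ⟨fun i => ?_, fun i => ?_, fun i => ?_⟩
    · have := h1 (i - 1)
      rwa [shift_apply, sub_add_cancel] at this
    · have := h2 (i - 1)
      rw [shift_apply, shift_apply, sub_add_cancel] at this
      rw [← this]; congr 1; ring
    · have := h3 (i - 1)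
      simp only [shift_apply] at this
      rw [← this]
      apply Finset.prod_congr rfl
      intro r _
      congr 2
      ring

/-- The shift on twisted periodic sequences. -/
def Base.sh {P : Type*} [Group P] {p q h : ℕ} (D : Base P p q h) (m k l : ℕ) :
    MulAut (D.TS m k l) := restr (shift P) (D.TS m k l) (D.TS_shift m k l)

end Pool.Agent.H81.ENG
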