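import Pool.Agent.H81.ENG.GHSeq
import Pool.Agent.H81.ENG.BaseA4
import Pool.Agent.H81.ENG.BaseAGL

/-!
The small cases.
-/

set_option autoImplicit false
set_option linter.style.haveILetI false

namespace Pool.Agent.H81.ENG

open Equiv Equiv.Perm

variable {Ω : Type*} [Fintype Ω] [DecidableEq Ω]

theorem finRot_val (L : ℕ) (a : Fin L) : ((finRotate L a : Fin L) : ℕ) = ((a : ℕ) + 1) % L := by
  rcases L with _ | n
  · exact a.elim0
  · rw [finRotate_succ_apply]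
    simp [Fin.val_add]

theorem sum_embed {σ : Perm Ω} {u w : Ω} {L1 L2 : ℕ} (h1 : 0 < L1) (h2 : 0 < L2)
    (hu : Function.minimalPeriod σ u = L1) (hw : Function.minimalPeriod σ w = L2)
    (hdis : ∀ a < L1, (σ ^ a) u ≠ w) :
    ∃ ι : (Fin L1 ⊕ Fin L2) ↪ Ω,
      ∀ x, σ (ι x) = ι ((Equiv.sumCongr (finRotate L1) (finRotate L2)) x) := by
  have hmod : ∀ (v : Ω) (L : ℕ), Function.minimalPeriod σ v = L → ∀ n, (σ ^ n) v =
      (σ ^ (n % L)) v := by
    intro v L hv n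
    rw [← Perm.iterate_eq_pow, ← Perm.iterate_eq_pow, ← hv, Function.iterate_mod_minimalPeriod_eq]
  have hinj : ∀ (v : Ω) (L : ℕ), Function.minimalPeriod σ v = L → ∀ a b, a < L → b < L →
      (σ ^ a) v = (σ ^ b) v → a = b := by
    intro v L hv a b ha hb hab
    rw [← Perm.iterate_eq_pow, ← Perm.iterate_eq_pow] at hab
    exact Function.iterate_injOn_Iio_minimalPeriod (f := σ) (x := v)
      (by rw [Set.mem_Iio, hv]; exact ha) (by rw [Set.mem_Iio, hv]; exact hb) hab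
  have hcross : ∀ a b, b < L2 → (σ ^ a) u ≠ (σ ^ b) w := by
    intro a b hb hab
    have h3 : (σ ^ (L2 - b + a)) u = w := by
      rw [pow_add, Perm.mul_apply, hab, ← Perm.mul_apply, ← pow_add, Nat.sub_add_cancel hb.le,
        hmod w L2 hw, Nat.mod_self]
      rfl
    rw [hmod u L1 hu] at h3
    exact hdis _ (Nat.mod_lt _ h1) h3
  refine ⟨⟨fun x => match x with
    | Sum.inl a => (σ ^ (a : ℕ)) u
    | Sum.inr b => (σ ^ (b : ℕ)) w, ?_⟩, ?_⟩
  · rintro (a | a) (b | b) hab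
    · simp only at hab
      rw [Sum.inl.injEq]
      exact Fin.ext (hinj u L1 hu _ _ a.2 b.2 hab)
    · exact absurd hab (hcross _ _ b.2)
    · exact absurd hab.symm (hcross _ _ a.2)
    · simp only at hab
      rw [Sum.inr.injEq]
      exact Fin.ext (hinj w L2 hw _ _ a.2 b.2 hab)
  · rintro (a | b)
    · show σ ((σ ^ (a : ℕ)) u) = (σ ^ ((finRotate L1 a : Fin L1) : ℕ)) u
      rw [finRot_val, ← hmod u L1 hu, ← Perm.mul_apply, ← pow_succ']
    · show σ ((σ ^ (b : ℕ)) w) = (σ ^ ((finRotate L2 b : Fin L2) : ℕ)) w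
      rw [finRot_val, ← hmod w L2 hw, ← Perm.mul_apply, ← pow_succ']

theorem relseq {σ : Perm Ω} {p c d : ℕ} (hp : p.Prime) (hL : ALaw σ 1 d) (x : Perm Ω)
    (hx : sign x = 1) (hσ : σ ^ (p ^ (c + 1)) = 1) {j : ℕ} (hj : 0 < j) {i : ℕ} (hi : ¬ p ∣ i)
    (hrel : (fun z : Perm Ω => z⁻¹ * (σ⁻¹ * z * σ))^[j] x = (σ ^ i)⁻¹ * x * σ ^ i)
    (hnc : σ ^ (p ^ c) * x ≠ x * σ ^ (p ^ c)) : p ^ (c + 1) ∣ d := by
  let Ξ : (z : Perm Ω) → sign z = 1 → ASeq σ 1 := fun z hz => ⟨fun n => σ ^ (-n) * z * σ ^ n, by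
    refine ⟨fun n => ?_, fun n => ?_⟩
    · rw [map_mul, map_mul, map_zpow, map_zpow, hz, mul_one, ← zpow_add, neg_add_cancel, zpow_zero]
    · show σ ^ (-(n + ((1 : ℕ) : ℤ))) * z * σ ^ (n + ((1 : ℕ) : ℤ)) = _
      rw [Nat.cast_one, show -(n + (1 : ℤ)) = -1 + -n by ring, zpow_add, zpow_add, zpow_neg_one,
        zpow_one]
      group⟩
  have hΞ : ∀ z hz (n : ℤ), ((Ξ z hz : ASeq σ 1) : ℤ → Perm Ω) n = σ ^ (-n) * z * σ ^ n :=
    fun _ _ _ => rfl
  have hfs : ∀ z : Perm Ω, sign z = 1 → sign (z⁻¹ * (σ⁻¹ * z * σ)) = 1 := by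
    intro z hz
    rw [map_mul, map_mul, map_mul, map_inv, map_inv, hz]
    simp
  have hfsk : ∀ (k : ℕ) (z : Perm Ω), sign z = 1 →
      sign ((fun z : Perm Ω => z⁻¹ * (σ⁻¹ * z * σ))^[k] z) = 1 := by
    intro k
    induction k with
    | zero => intro z hz; exact hz
    | succ k ih => intro z hz; exact ih _ (hfs z hz)
  have hef : ∀ z hz, ef (ash σ 1) (Ξ z hz) = Ξ (z⁻¹ * (σ⁻¹ * z * σ)) (hfs z hz) := by
    intro z hz
    apply Subtype.ext
    funext n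
    show (σ ^ (-n) * z * σ ^ n)⁻¹ * (σ ^ (-(n + 1)) * z * σ ^ (n + 1)) =
      σ ^ (-n) * (z⁻¹ * (σ⁻¹ * z * σ)) * σ ^ n
    rw [show -(n + (1 : ℤ)) = -n + -1 by ring, zpow_add, add_comm n 1, zpow_add, zpow_neg_one,
      zpow_one]
    group
  have hefk : ∀ (k : ℕ) z hz, (ef (ash σ 1))^[k] (Ξ z hz) =
      Ξ ((fun z : Perm Ω => z⁻¹ * (σ⁻¹ * z * σ))^[k] z) (hfsk k z hz) := by
    intro k
    induction k with
    | zero => intro z hz; rfl
    | succ k ih =>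
      intro z hz
      rw [Function.iterate_succ_apply, hef z hz, ih _ (hfs z hz)]
      rfl
  have hsh : ∀ (k : ℕ) (y : ASeq σ 1) (n : ℤ),
      ((((ash σ 1) ^ k) y : ASeq σ 1) : ℤ → Perm Ω) n = (y : ℤ → Perm Ω) (n + k) := by
    intro k y n
    have h1 := restr_pow_apply (shift (Perm Ω)) (ASeq σ 1) (ASeq_shift σ 1) k y
    have h2 := congrFun h1 n
    rw [shift_pow_apply] at h2
    exact h2
  by_contra hnd
  have h3 : ((ash σ 1) ^ ((p : ℤ) ^ c)) (Ξ x hx) = Ξ x hx := by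
    refine hL.1.rel hp (N := c + 1) (j := j) (i := (i : ℤ)) ?_ hj ?_ ?_ hnd
    · apply Subtype.ext
      funext n
      have h4 : ((p : ℤ) ^ (c + 1)) = ((p ^ (c + 1) : ℕ) : ℤ) := by push_cast; ring
      rw [h4, zpow_natCast, hsh, hΞ x hx, hΞ x hx, neg_add, zpow_add, zpow_add, zpow_neg, zpow_neg,
        zpow_natCast, hσ]
      simp
    · rw [hefk j x hx]
      apply Subtype.ext
      funext n
      rw [zpow_natCast, hsh, hΞ _ (hfsk j x hx), hΞ x hx]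
      rw [hrel, show -(n + (i : ℤ)) = -n + -(i : ℤ) by ring, zpow_add, add_comm n (i : ℤ), zpow_add,
        zpow_neg σ (i : ℤ), zpow_natCast]
      group
    · intro h
      exact hi (by exact_mod_cast h)
  have h5 := congrFun (congrArg Subtype.val h3) 0
  have h4 : ((p : ℤ) ^ c) = ((p ^ c : ℕ) : ℤ) := by push_cast; ring
  rw [h4, zpow_natCast] at h5
  have h6 := hsh (p ^ c) (Ξ x hx) 0
  rw [h5] at h6
  have h7 : ((Ξ x hx : ASeq σ 1) : ℤ → Perm Ω) 0 = x := by rw [hΞ x hx]; simp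
  rw [h7, hΞ x hx, zero_add, zpow_neg, zpow_natCast] at h6
  apply hnc
  calc σ ^ p ^ c * x = σ ^ p ^ c * ((σ ^ p ^ c)⁻¹ * x * σ ^ p ^ c) := by rw [← h6]
    _ = x * σ ^ p ^ c := by group

end Pool.Agent.H81.ENG
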