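import Pool.Agent.H81.ENG.Small

/-!
The small cases, concrete models.
-/

set_option autoImplicit false
set_option linter.style.haveILetI false

namespace Pool.Agent.H81.ENG

open Equiv Equiv.Perm Sum

/-- model of a 2-cycle and a fixed point -/
def s21 : Perm (Fin 2 ⊕ Fin 1) := Equiv.sumCongr (finRotate 2) (finRotate 1)
def tA : Perm (Fin 2 ⊕ Fin 1) := swap (inl 0) (inl 1) * swap (inl 1) (inr 0)

theorem m21 {b d : ℕ} (hL : ALaw s21 (2 ^ b) d) : 2 ^ (b + 1) ∣ ed d := by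
  have h1 : s21⁻¹ * tA * s21 = tA⁻¹ := by decide
  have h2 : s21⁻¹ * tA * s21 ∈ Subgroup.closure {tA, tA} := by
    rw [h1]; exact Subgroup.inv_mem _ (Subgroup.subset_closure (by simp))
  refine ghgen Nat.prime_two hL Nat.prime_three (by norm_num) tA tA rfl (by decide) (by decide)
    (by decide) (by decide) h2 h2 (c := 1) (by decide) (Or.inr ⟨0, rfl, by decide⟩)

/-- three 2-cycles -/
def s222 : Perm (Fin 6) := swap 0 1 * swap 2 3 * swap 4 5
def tB : Perm (Fin 6) := swap 0 2 * swap 2 4 * (swap 1 5 * swap 5 3)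

theorem m222 {b d : ℕ} (hL : ALaw s222 (2 ^ b) d) : 2 ^ (b + 1) ∣ ed d := by
  have h1 : s222⁻¹ * tB * s222 = tB⁻¹ := by decide
  have h2 : s222⁻¹ * tB * s222 ∈ Subgroup.closure {tB, tB} := by
    rw [h1]; exact Subgroup.inv_mem _ (Subgroup.subset_closure (by simp))
  refine ghgen Nat.prime_two hL Nat.prime_three (by norm_num) tB tB rfl (by decide) (by decide)
    (by decide) (by decide) h2 h2 (c := 1) (by decide) (Or.inr ⟨0, rfl, by decide⟩)

/-- a 3-cycle and a fixed point -/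
def s31 : Perm (Fin 3 ⊕ Fin 1) := Equiv.sumCongr (finRotate 3) (finRotate 1)
def tC1 : Perm (Fin 3 ⊕ Fin 1) := swap (inl 0) (inl 1) * swap (inl 2) (inr 0)
def tC2 : Perm (Fin 3 ⊕ Fin 1) := swap (inl 0) (inl 2) * swap (inl 1) (inr 0)

theorem m31 {b d : ℕ} (hL : ALaw s31 (3 ^ b) d) : 3 ^ (b + 1) ∣ ed d := by
  have h1 : s31⁻¹ * tC1 * s31 = tC2 := by decide
  have h2 : s31⁻¹ * tC2 * s31 = tC1 * tC2 := by decide
  have hm1 : tC1 ∈ Subgroup.closure {tC1, tC2} := Subgroup.subset_closure (by simp)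
  have hm2 : tC2 ∈ Subgroup.closure {tC1, tC2} := Subgroup.subset_closure (by simp)
  refine ghgen Nat.prime_three hL Nat.prime_two (by norm_num) tC1 tC2 (by decide) (by decide)
    (by decide) (by decide) (by decide) (h1 ▸ hm2) (h2 ▸ Subgroup.mul_mem _ hm1 hm2) (c := 1)
    (by decide) (Or.inr ⟨0, rfl, by decide⟩)

/-- two 3-cycles -/
def s33 : Perm (Fin 3 ⊕ Fin 3) := Equiv.sumCongr (finRotate 3) (finRotate 3)
def tD1 : Perm (Fin 3 ⊕ Fin 3) := swap (inl 0) (inr 0) * swap (inl 1) (inr 1)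
def tD2 : Perm (Fin 3 ⊕ Fin 3) := swap (inl 1) (inr 1) * swap (inl 2) (inr 2)

theorem m33 {b d : ℕ} (hL : ALaw s33 (3 ^ b) d) : 3 ^ (b + 1) ∣ ed d := by
  have h1 : s33⁻¹ * tD1 * s33 = tD1 * tD2 := by decide
  have h2 : s33⁻¹ * tD2 * s33 = tD1 := by decide
  have hm1 : tD1 ∈ Subgroup.closure {tD1, tD2} := Subgroup.subset_closure (by simp)
  have hm2 : tD2 ∈ Subgroup.closure {tD1, tD2} := Subgroup.subset_closure (by simp)
  refine ghgen Nat.prime_three hL Nat.prime_two (by norm_num) tD1 tD2 (by decide) (by decide)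
    (by decide) (by decide) (by decide) (h1 ▸ Subgroup.mul_mem _ hm1 hm2) (h2 ▸ hm1) (c := 1)
    (by decide) (Or.inr ⟨0, rfl, by decide⟩)

/-- a 4-cycle and a fixed point -/
def s41 : Perm (Fin 4 ⊕ Fin 1) := Equiv.sumCongr (finRotate 4) (finRotate 1)
def tE : Perm (Fin 4 ⊕ Fin 1) :=
  swap (inr 0) (inl 0) * swap (inl 0) (inl 1) * (swap (inl 1) (inl 3) * swap (inl 3) (inl 2))

theorem m41 {b d : ℕ} (hL : ALaw s41 (2 ^ b) d) : 2 ^ (b + 2) ∣ ed d := by
  have h1 : s41⁻¹ * tE * s41 = tE ^ 3 ∨ s41⁻¹ * tE * s41 = tE ^ 2 := by decide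
  have hm1 : tE ∈ Subgroup.closure {tE, tE} := Subgroup.subset_closure (by simp)
  have h2 : s41⁻¹ * tE * s41 ∈ Subgroup.closure {tE, tE} := by
    rcases h1 with h1 | h1 <;> (rw [h1]; exact Subgroup.pow_mem _ hm1 _)
  refine ghgen Nat.prime_two hL Nat.prime_five (by norm_num) tE tE rfl (by decide) (by decide)
    (by decide) (by decide) h2 h2 (c := 2) (by decide) (Or.inr ⟨1, rfl, by decide⟩)

/-- a 4-cycle and a 2-cycle -/
def s42 : Perm (Fin 4 ⊕ Fin 2) := Equiv.sumCongr (finRotate 4) (finRotate 2)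
def tF1 : Perm (Fin 4 ⊕ Fin 2) := swap (inl 0) (inl 2) * swap (inl 2) (inr 0)
def tF2 : Perm (Fin 4 ⊕ Fin 2) := swap (inl 1) (inl 3) * swap (inl 3) (inr 1)

theorem m42 {b d : ℕ} (hL : ALaw s42 (2 ^ b) d) : 2 ^ (b + 2) ∣ ed d := by
  have h1 : s42⁻¹ * tF1 * s42 = tF2⁻¹ := by decide
  have h2 : s42⁻¹ * tF2 * s42 = tF1 := by decide
  have hm1 : tF1 ∈ Subgroup.closure {tF1, tF2} := Subgroup.subset_closure (by simp)
  have hm2 : tF2 ∈ Subgroup.closure {tF1, tF2} := Subgroup.subset_closure (by simp)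
  refine ghgen Nat.prime_two hL Nat.prime_three (by norm_num) tF1 tF2 (by decide) (by decide)
    (by decide) (by decide) (by decide) (h1 ▸ Subgroup.inv_mem _ hm2) (h2 ▸ hm1) (c := 2)
    (by decide) (Or.inr ⟨1, rfl, by decide⟩)

/-- two 4-cycles -/
def s44 : Perm (Fin 4 ⊕ Fin 4) := Equiv.sumCongr (finRotate 4) (finRotate 4)
def xG : Perm (Fin 4 ⊕ Fin 4) :=
  swap (inl 1) (inr 0) * swap (inr 0) (inr 3) * (swap (inr 3) (inl 3) * swap (inl 3) (inr 1)) *
    (swap (inr 1) (inl 2) * swap (inl 2) (inr 2))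

set_option maxRecDepth 100000 in
theorem m44 {d : ℕ} (hL : ALaw s44 1 d) : 2 ^ 2 ∣ d := by
  refine relseq Nat.prime_two hL xG (by decide) (c := 1) (by decide) (j := 2) (by norm_num) (i := 1)
    (by norm_num) ?_ (by decide)
  show ((fun z : Perm (Fin 4 ⊕ Fin 4) => z⁻¹ * (s44⁻¹ * z * s44)) ((fun z : Perm (Fin 4 ⊕ Fin 4) =>
    z⁻¹ * (s44⁻¹ * z * s44)) xG)) = _
  decide

end Pool.Agent.H81.ENG
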