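import Pool.Agent.H81.ENG.LA

/-!
The affine count.
-/

set_option autoImplicit false

namespace Pool.Agent.H81.ENG

section

variable {B : Type*} [Group B]

theorem lin_part (s : MulAut B) (N : Subgroup B) [hN : N.Normal]
    (hcomm : ∀ a ∈ N, ∀ b ∈ N, a * b = b * a) (hsN : ∀ a ∈ N, s a ∈ N)
    {z : B} (hzN : z ∈ N) (hsz : s z = z) (ξ : B) (j : ℕ) :
    ∃ a : N →* N, (∀ n : N, (ef s)^[j] ((n : B) * ξ) = (a n : B) * (ef s)^[j] ξ) ∧
      s (a ⟨z, hzN⟩ : B) = (a ⟨z, hzN⟩ : B) ∧ (0 < j → a ⟨z, hzN⟩ = 1) := by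
  induction j with
  | zero => exact ⟨MonoidHom.id _, fun n => rfl, hsz, fun h => absurd h (lt_irrefl 0)⟩
  | succ j ih =>
    obtain ⟨a, ha, hz, -⟩ := ih
    set c := (ef s)^[j] ξ with hc
    have hmem : ∀ n : N, c⁻¹ * (((a n : B))⁻¹ * s (a n : B)) * c ∈ N := by
      intro n
      have h1 : ((a n : B))⁻¹ * s (a n : B) ∈ N :=
        N.mul_mem (N.inv_mem (a n).2) (hsN _ (a n).2)
      have h2 := hN.conj_mem _ h1 c⁻¹
      rwa [inv_inv] at h2
    refine ⟨{ toFun := fun n => ⟨c⁻¹ * (((a n : B))⁻¹ * s (a n : B)) * c, hmem n⟩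
              map_one' := ?_
              map_mul' := ?_ }, ?_, ?_, ?_⟩
    · apply Subtype.ext
      simp
    · intro n m
      apply Subtype.ext
      show c⁻¹ * (((a (n * m) : N) : B)⁻¹ * s ((a (n * m) : N) : B)) * c = _ * _
      rw [map_mul]
      push_cast
      have h1 : ((a n : B))⁻¹ * s (a n : B) ∈ N :=
        N.mul_mem (N.inv_mem (a n).2) (hsN _ (a n).2)
      have h2 := hcomm _ (N.inv_mem (a m).2) _ h1
      rw [map_mul, mul_inv_rev]
      calc c⁻¹ * (((a m : B))⁻¹ * ((a n : B))⁻¹ * (s (a n : B) * s (a m : B))) * c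
          = c⁻¹ * ((((a m : B))⁻¹ * (((a n : B))⁻¹ * s (a n : B))) * s (a m : B)) * c := by group
        _ = c⁻¹ * (((((a n : B))⁻¹ * s (a n : B)) * ((a m : B))⁻¹) * s (a m : B)) * c := by rw [h2]
        _ = (c⁻¹ * (((a n : B))⁻¹ * s (a n : B)) * c) *
            (c⁻¹ * (((a m : B))⁻¹ * s (a m : B)) * c) := by group
    · intro n
      rw [Function.iterate_succ_apply', Function.iterate_succ_apply', ha, ← hc]
      show ((a n : B) * c)⁻¹ * s ((a n : B) * c) =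
        (c⁻¹ * (((a n : B))⁻¹ * s (a n : B)) * c) * (c⁻¹ * s c)
      rw [map_mul]
      group
    · show s (c⁻¹ * (((a ⟨z, hzN⟩ : N) : B)⁻¹ * s ((a ⟨z, hzN⟩ : N) : B)) * c) =
        c⁻¹ * (((a ⟨z, hzN⟩ : N) : B)⁻¹ * s ((a ⟨z, hzN⟩ : N) : B)) * c
      rw [hz]
      simp
    · intro _
      apply Subtype.ext
      show c⁻¹ * (((a ⟨z, hzN⟩ : N) : B)⁻¹ * s ((a ⟨z, hzN⟩ : N) : B)) * c = 1
      rw [hz]
      simp

theorem zpow_conj (s : MulAut B) {z : B} (hsz : s z = z) {M : ℕ}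
    (hM : ∀ x, (s ^ M) x = z⁻¹ * x * z) (k : ℕ) (x : B) :
    (s ^ (M * k)) x = (z ^ k)⁻¹ * x * z ^ k := by
  induction k generalizing x with
  | zero => simp
  | succ k ih =>
    rw [Nat.mul_succ, pow_add, MulAut.mul_apply, hM, ih, pow_succ, mul_inv_rev]
    have : z * z ^ k = z ^ k * z := by rw [← pow_succ, ← pow_succ']
    calc (z ^ k)⁻¹ * (z⁻¹ * x * z) * z ^ k = ((z * z ^ k))⁻¹ * x * (z * z ^ k) := by group
      _ = _ := by rw [this]; group

theorem unip (s : MulAut B) (N : Subgroup B) [hN : N.Normal] [Finite N]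
    (hcomm : ∀ a ∈ N, ∀ b ∈ N, a * b = b * a) {p : ℕ} [hp : Fact p.Prime]
    (hexp : ∀ a ∈ N, a ^ p = 1) {μ : ℕ} (hcard : Nat.card N ≤ p ^ (p ^ μ))
    (hsN : ∀ a ∈ N, s a ∈ N) (hsN' : ∀ a ∈ N, s⁻¹ a ∈ N)
    {z : B} (hzN : z ∈ N) (hsz : s z = z) (hM : ∀ x, (s ^ (p ^ μ)) x = z⁻¹ * x * z)
    {ξ : B} (hnc : z * ξ ≠ ξ * z) {r : ℕ} (hr : 0 < r)
    (hrel : (ef s)^[r] ξ * (s ξ)⁻¹ ∈ N) {d : ℕ} (hL : L s d) : p ^ (μ + 1) ∣ d := by
  by_contra hnd
  obtain ⟨a, ha, -, haz⟩ := lin_part s N hcomm hsN hzN hsz ξ r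
  have haz := haz hr
  -- the affine map
  set u0 : N := ⟨s⁻¹ ((ef s)^[r] ξ) * ξ⁻¹, by
    have := hsN' _ hrel
    rwa [map_mul, map_inv, MulAut.inv_apply_self] at this⟩ with hu0
  let φ : N → N := fun n => ⟨s⁻¹ (a n : B), hsN' _ (a n).2⟩ * u0
  let Φ : B → B := fun x => s⁻¹ ((ef s)^[r] x)
  have hΦφ : ∀ n : N, Φ ((n : B) * ξ) = (φ n : B) * ξ := by
    intro n
    show s⁻¹ ((ef s)^[r] ((n : B) * ξ)) = (s⁻¹ (a n : B) * (s⁻¹ ((ef s)^[r] ξ) * ξ⁻¹)) * ξ
    rw [ha, map_mul]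
    group
  have hΦφk : ∀ (k : ℕ) (n : N), Φ^[k] ((n : B) * ξ) = (φ^[k] n : B) * ξ := by
    intro k
    induction k with
    | zero => intro n; rfl
    | succ k ih => intro n; rw [Function.iterate_succ_apply, hΦφ, ih, Function.iterate_succ_apply]
  have hΦk : ∀ (k : ℕ) (x : B), Φ^[k] x = (s ^ (-(k : ℤ))) ((ef s)^[r * k] x) := by
    intro k
    induction k with
    | zero => intro x; simp
    | succ k ih =>
      intro x
      rw [Function.iterate_succ_apply, ih]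
      show (s ^ (-(k : ℤ))) ((ef s)^[r * k] (s⁻¹ ((ef s)^[r] x))) = _
      have h1 : s⁻¹ ((ef s)^[r] x) = (s ^ (-1 : ℤ)) ((ef s)^[r] x) := by rw [zpow_neg_one]
      rw [h1, ef_iter_zpow, ← MulAut.mul_apply, ← zpow_add, ← Function.iterate_add_apply]
      congr 2
      push_cast
      ring
  -- exponents
  have hd0 : d ≠ 0 := by rintro rfl; exact hnd (dvd_zero _)
  obtain ⟨v, r', hr', hdv⟩ := Nat.exists_eq_pow_mul_and_not_dvd hd0 p hp.out.ne_one
  have hvμ : v ≤ μ := by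
    by_contra hcon
    push Not at hcon
    exact hnd (hdv ▸ Dvd.dvd.mul_right (pow_dvd_pow p hcon) r')
  have hdd : d ∣ p ^ μ * r' := hdv ▸ Nat.mul_dvd_mul_right (pow_dvd_pow p hvμ) r'
  have hr'0 : r' ≠ 0 := by rintro rfl; exact hr' (dvd_zero _)
  -- a periodic point
  obtain ⟨n, L0, hL0, hn⟩ : ∃ n : N, ∃ L0 : ℕ, 0 < L0 ∧ φ^[L0] n = n := by
    obtain ⟨i, j, hij, hfij⟩ := Finite.exists_ne_map_eq_of_infinite (fun k : ℕ => φ^[k] 1)
    wlog hlt : i < j generalizing i j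
    · exact this j i hij.symm hfij.symm (by omega)
    refine ⟨φ^[i] 1, j - i, by omega, ?_⟩
    rw [← Function.iterate_add_apply, Nat.sub_add_cancel hlt.le]
    exact hfij.symm
  set x : B := (n : B) * ξ with hx
  have hper0 : (ef s)^[r * L0] x = (s ^ (L0 : ℤ)) x := by
    have h1 := hΦφk L0 n
    rw [hn, ← hx, hΦk] at h1
    have h2 := congrArg (s ^ (L0 : ℤ)) h1
    rw [← MulAut.mul_apply, ← zpow_add, add_neg_cancel, zpow_zero] at h2
    exact h2
  have hzp : z ^ p = 1 := hexp z hzN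
  have hsp : ∀ k : ℕ, ∀ y : B, (s ^ (p ^ (μ + 1) * k)) y = y := by
    intro k y
    rw [pow_succ, mul_assoc, zpow_conj s hsz hM, pow_mul, hzp, one_pow]
    simp
  have hper1 : (ef s)^[r * L0 * p ^ (μ + 1)] x = x := by
    rw [ef_iter_mul s _ _ x hper0]
    have h3 : ((L0 : ℤ) * ((p ^ (μ + 1) : ℕ) : ℤ)) = ((p ^ (μ + 1) * L0 : ℕ) : ℤ) := by
      push_cast; ring
    rw [h3, zpow_natCast, hsp]
  have hfd : (ef s)^[d] x = x :=
    hL.periodic (Nat.mul_pos (Nat.mul_pos hr hL0) (pow_pos hp.out.pos _)) hper1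
  have hfdk : ∀ k, d ∣ k → (ef s)^[k] x = x := by
    rintro k ⟨k', rfl⟩
    rw [Function.iterate_mul]
    exact Function.iterate_fixed hfd k'
  have hA1 : Φ^[r' * p ^ μ] x = (s ^ (-((r' * p ^ μ : ℕ) : ℤ))) x := by
    rw [hΦk, hfdk]
    rw [mul_comm r' (p ^ μ)]
    exact Dvd.dvd.mul_left hdd r
  have hA2 : Φ^[r' * p ^ (μ + 1)] x = x := by
    rw [hΦk, hfdk]
    · have h4 : s ^ (-((r' * p ^ (μ + 1) : ℕ) : ℤ)) = (s ^ (p ^ (μ + 1) * r'))⁻¹ := by
        rw [zpow_neg, zpow_natCast, mul_comm]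
      rw [h4]
      conv_lhs => rw [← hsp r' x]
      rw [MulAut.inv_apply_self]
    · rw [mul_comm r' (p ^ (μ + 1)), pow_succ, mul_comm (p ^ μ) p, mul_assoc]
      exact Dvd.dvd.mul_left (Dvd.dvd.mul_left hdd p) r
  -- linear algebra
  have hxinj : ∀ n' : N, (n' : B) * ξ = x → n' = n := by
    intro n' h
    apply Subtype.ext
    exact mul_right_cancel h
  have h13 := hΦφk (r' * p ^ (μ + 1)) n
  rw [← hx, hA2] at h13
  have h14 : φ^[r' * p ^ μ] n = n := by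
    refine aff_count_grp (N := N) (fun a b => Subtype.ext (hcomm a a.2 b b.2)) hp.out
      (fun v => Subtype.ext (hexp v v.2)) hcard
      { toFun := fun n => ⟨s⁻¹ (a n : B), hsN' _ (a n).2⟩
        map_one' := by apply Subtype.ext; simp
        map_mul' := by intro x y; apply Subtype.ext; simp } u0 (z := ⟨z, hzN⟩) ?_ ?_ φ
      (fun v => rfl) hr'0 (hxinj _ h13.symm)
    · intro h
      apply hnc
      have h12 : z = 1 := congrArg Subtype.val h
      rw [h12]; simp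
    · apply Subtype.ext
      show s⁻¹ (a ⟨z, hzN⟩ : B) = 1
      rw [haz]
      simp
  have h15 := hΦφk (r' * p ^ μ) n
  rw [h14, ← hx, hA1] at h15
  -- so z ^ r' commutes with x
  have h16 : (s ^ (p ^ μ * r')) x = x := by
    have h17 : s ^ (-((r' * p ^ μ : ℕ) : ℤ)) = (s ^ (p ^ μ * r'))⁻¹ := by
      rw [zpow_neg, zpow_natCast, mul_comm]
    rw [h17] at h15
    conv_lhs => rw [← h15]
    rw [MulAut.apply_inv_self]
  rw [zpow_conj s hsz hM] at h16
  have h18 : Commute (z ^ r') x := by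
    rw [Commute, SemiconjBy]
    calc z ^ r' * x = z ^ r' * ((z ^ r')⁻¹ * x * z ^ r') := by rw [h16]
      _ = x * z ^ r' := by group
  have h19 : Commute z x := by
    have hcop : Nat.Coprime r' p := (Nat.Prime.coprime_iff_not_dvd hp.out).mpr hr' |>.symm
    have hb := Nat.gcd_eq_gcd_ab r' p
    rw [Nat.Coprime.gcd_eq_one hcop] at hb
    have h20 : z = (z ^ r') ^ (Nat.gcdA r' p) := by
      calc z = z ^ ((1 : ℕ) : ℤ) := by simp
        _ = z ^ ((r' : ℤ) * Nat.gcdA r' p + p * Nat.gcdB r' p) := by rw [hb]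
        _ = (z ^ r') ^ (Nat.gcdA r' p) := by
          rw [zpow_add, zpow_mul, zpow_mul, zpow_natCast, zpow_natCast, hzp, one_zpow, mul_one]
    rw [h20]
    exact h18.zpow_left _
  apply hnc
  have h21 : z * ((n : B) * ξ) = (n : B) * ξ * z := h19
  have h22 : z * (n : B) = (n : B) * z := hcomm _ hzN _ n.2
  rw [← mul_assoc, h22, mul_assoc, mul_assoc] at h21
  exact mul_left_cancel h21

end

end Pool.Agent.H81.ENG
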